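import Pool.Agent.H32.KR.Vol
import Pool.Agent.H50.PW.Cover
import Pool.Agent.H50.PW.Implicit

/-!
# The number of directions of the lines close to graphs of all dimensions
-/

set_option autoImplicit false

namespace Pool.GEN

open MeasureTheory Set MvPolynomial
open Pool.Agent.H50.PW

/-- The point with the time `t` and the position `x`. -/
def pnt {m : ℕ} (t : ℝ) (x : Fin m → ℝ) : Option (Fin m) → ℝ
  | none => t
  | some k => x k

/-- The mean value inequality for polynomials. -/
theorem mvt_poly {ι : Type} [Fintype ι] [DecidableEq ι] (P : MvPolynomial ι ℝ) (S : Set (ι → ℝ))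
    (hS : Convex ℝ S) (K : ℝ) (hK : 0 ≤ K) (hP : ∀ b ∈ S, ∀ o, |eval b (pderiv o P)| ≤ K)
    (x y : ι → ℝ) (hx : x ∈ S) (hy : y ∈ S) :
    |eval y P - eval x P| ≤ K * Fintype.card ι * ‖y - x‖ := by
  have h1 := hS.norm_image_sub_le_of_norm_hasFDerivWithin_le
    (f := fun z : ι → ℝ => eval z P) (f' := fun z => dEval P z) (C := K * Fintype.card ι)
    (fun z _ => (hasStrictFDerivAt_eval P z).hasFDerivAt.hasFDerivWithinAt) (by
      intro z hz
      refine ContinuousLinearMap.opNorm_le_bound _ (by positivity) fun v => ?_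
      rw [dEval_apply, Real.norm_eq_abs]
      refine (Finset.abs_sum_le_sum_abs _ _).trans ?_
      have h2 : ∀ j ∈ (Finset.univ : Finset ι), |eval z (pderiv j P) * v j| ≤ K * ‖v‖ := by
        intro j _
        rw [abs_mul]
        exact mul_le_mul (hP z hz j) (norm_le_pi_norm v j) (abs_nonneg _) hK
      refine (Finset.sum_le_sum h2).trans (le_of_eq ?_)
      rw [Finset.sum_const, Finset.card_univ, nsmul_eq_mul]
      ring) hx hy
  rw [Real.norm_eq_abs] at h1
  exact h1

/-- The substitution of the chart. -/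
noncomputable def sbs {m : ℕ} (τ ρ : ℝ) (a : Fin m → ℝ) :
    Option (Fin m) → MvPolynomial (Fin m) ℝ
  | none => C τ
  | some k => C (a k) + C ρ * X k

theorem eval_sbs {m : ℕ} (τ ρ : ℝ) (a : Fin m → ℝ) (P : MvPolynomial (Option (Fin m)) ℝ)
    (y : Fin m → ℝ) : eval y (bind₁ (sbs τ ρ a) P) = eval (pnt τ fun k => a k + ρ * y k) P := by
  rw [eval_bind₁_eq]
  congr 2
  funext o
  cases o with
  | none => simp [sbs, pnt]
  | some k => simp [sbs, pnt]

theorem deg_sbs {m : ℕ} (τ ρ : ℝ) (a : Fin m → ℝ) (o : Option (Fin m)) :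
    (sbs τ ρ a o).totalDegree ≤ 1 := by
  cases o with
  | none => simp [sbs]
  | some k =>
    refine (totalDegree_add _ _).trans (max_le ?_ ?_)
    · simp
    · refine (totalDegree_mul _ _).trans ?_
      simp only [totalDegree_C, totalDegree_X, zero_add, le_refl]

/-- The test polynomial. -/
noncomputable def tst {m : ℕ} (τ ρ : ℝ) (a : Fin m → ℝ) (c : Fin m → ℝ)
    (g : Fin m → Fin m → MvPolynomial (Option (Fin m)) ℝ) : MvPolynomial (Fin m) ℝ :=
  ∑ j, ∑ k, (C (c j) * (C (a k) + C ρ * X k - bind₁ (sbs τ ρ a) (g j k))) ^ 2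

theorem eval_tst {m : ℕ} (τ ρ : ℝ) (a : Fin m → ℝ) (c : Fin m → ℝ)
    (g : Fin m → Fin m → MvPolynomial (Option (Fin m)) ℝ) (y : Fin m → ℝ) :
    eval y (tst τ ρ a c g) = ∑ j, ∑ k, (c j * (a k + ρ * y k -
      eval (pnt τ fun k => a k + ρ * y k) (g j k))) ^ 2 := by
  unfold tst
  rw [map_sum]
  refine Finset.sum_congr rfl fun j _ => ?_
  rw [map_sum]
  refine Finset.sum_congr rfl fun k _ => ?_
  rw [map_pow, map_mul, eval_C, map_sub, eval_sbs]
  simp

theorem deg_tst {m K : ℕ} (τ ρ : ℝ) (a : Fin m → ℝ) (c : Fin m → ℝ)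
    (g : Fin m → Fin m → MvPolynomial (Option (Fin m)) ℝ)
    (hg : ∀ j k, (g j k).totalDegree ≤ K) : (tst τ ρ a c g).totalDegree ≤ 2 * (K + 1) := by
  unfold tst
  refine (totalDegree_finsetSum _ _).trans (Finset.sup_le fun j _ => ?_)
  refine (totalDegree_finsetSum _ _).trans (Finset.sup_le fun k _ => ?_)
  refine (totalDegree_pow _ _).trans (Nat.mul_le_mul_left 2 ?_)
  refine (totalDegree_mul _ _).trans ?_
  rw [totalDegree_C, zero_add]
  refine (totalDegree_sub _ _).trans (max_le ?_ ?_)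
  · refine (totalDegree_add _ _).trans (max_le ?_ ?_)
    · simp
    · refine (totalDegree_mul _ _).trans ?_
      simp only [totalDegree_C, totalDegree_X, zero_add]
      omega
  · exact ((totalDegree_bind₁_le _ (deg_sbs τ ρ a) _).trans (hg j k)).trans (by omega)

/-- The test times. -/
noncomputable def tt (m : ℕ) (i : Fin (Fintype.card (Fin m) + 1)) : ℝ := (i : ℕ) / ((m : ℝ) + 1)

theorem tt_inj (m : ℕ) : Function.Injective (tt m) := by
  intro i j h
  have h0 : (0 : ℝ) < (m : ℝ) + 1 := by positivity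
  unfold tt at h
  rw [div_left_inj' h0.ne'] at h
  exact Fin.ext (by exact_mod_cast h)

theorem tt_mem (m : ℕ) (i : Fin (Fintype.card (Fin m) + 1)) : tt m i ∈ Icc (0 : ℝ) 1 := by
  have h0 : (0 : ℝ) < (m : ℝ) + 1 := by positivity
  have h1 : ((i : ℕ) : ℝ) ≤ m := by
    have h2 := i.2
    have h3 := Fintype.card_fin m
    have h4 : (i : ℕ) ≤ m := by omega
    exact_mod_cast h4
  refine ⟨by unfold tt; positivity, ?_⟩
  unfold tt
  rw [div_le_one h0]
  linarith only [h1]

/-- **The number of directions.** -/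
theorem cnt_dir (m K : ℕ) : ∃ C : ℝ, 1 ≤ C ∧ ∀ (J : ℕ) (ρ τ₀ : ℝ) (a : Fin m → ℝ)
    (I : Fin m → Finset (Fin m)) (η : Fin m → ℝ)
    (g : Fin m → Fin m → MvPolynomial (Option (Fin m)) ℝ), 0 < ρ → ρ ≤ 1 →
    (∀ j, (I j).card ≤ j) → (∀ j, 1 / 2 ^ J ≤ η j) → (∀ j k, (g j k).totalDegree ≤ K) →
    (∀ j k, ∀ b b' : Option (Fin m) → ℝ, b none = b' none →
      (∀ i ∈ I j, b (some i) = b' (some i)) → eval b (g j k) = eval b' (g j k)) →
    (∀ b : Option (Fin m) → ℝ, b none ∈ Icc τ₀ (τ₀ + ρ) →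
      (∀ k, |b (some k) - a k| ≤ (2 * m + 5) * ρ) → ∀ j k o, |eval b (pderiv o (g j k))| ≤ K) →
    ∀ 𝓓 : Finset (Fin m → ℤ), (∀ v ∈ 𝓓, ∃ u d : Fin m → ℝ, (∀ k, |u k - a k| ≤ ρ) ∧
      (∀ k, |d k| ≤ 1) ∧ (∀ k, ⌊2 ^ J * d k⌋ = v k) ∧ ∀ s ∈ Icc (0 : ℝ) 1, ∀ j k,
        |u k + ρ * s * d k - eval (pnt (τ₀ + ρ * s) fun k => u k + ρ * s * d k) (g j k)| ≤ η j) →
    (𝓓.card : ℝ) ≤ C * (2 ^ J) ^ m * ∏ j, (η j / ρ) := by
  classical
  have hL0 : (0 : ℝ) ≤ (K : ℝ) * (m + 1) := by positivity
  obtain ⟨C₁, hC₁, hvol⟩ := vol_det m ((K : ℝ) * (m + 1)) hL0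
  obtain ⟨C₃, hC₃⟩ : ∃ C₃ : ℝ, C₃ = 3 + 2 * (K * (m + 1)) := ⟨_, rfl⟩
  have hC₃1 : 1 ≤ C₃ := by rw [hC₃]; linarith only [hL0]
  obtain ⟨N, hN⟩ : ∃ N : ℝ, N = C₃ * ((m : ℝ) + 1) ^ 2 := ⟨_, rfl⟩
  have hm1 : (1 : ℝ) ≤ (m : ℝ) + 1 := by
    have : (0 : ℝ) ≤ m := Nat.cast_nonneg m
    linarith only
  have hN1 : 1 ≤ N := by
    rw [hN]
    have : 1 ≤ ((m : ℝ) + 1) ^ 2 := one_le_pow₀ hm1
    nlinarith only [this, hL0, hC₃]
  obtain ⟨Wt, hWt⟩ : ∃ Wt : ℝ, Wt = ∑ i, wt (tt m) i := ⟨_, rfl⟩
  have hWt0 : 0 ≤ Wt := by rw [hWt]; exact Finset.sum_nonneg fun i _ => wt_nonneg _ _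
  obtain ⟨A, hA⟩ : ∃ A : ℝ, A = (2 * m + 1) * N := ⟨_, rfl⟩
  have hA1 : 1 ≤ A := by
    rw [hA]
    have : (0 : ℝ) ≤ m := Nat.cast_nonneg m
    nlinarith only [hN1]
  obtain ⟨B, hB⟩ : ∃ B : ℝ, B = ((2 * (K + 1) + 1) ^ (Fintype.card (Fin m) +
    Fintype.card (Fin m)) : ℕ) * (Wt * (C₁ * A ^ m)) := ⟨_, rfl⟩
  have hB0 : 0 ≤ B := by
    rw [hB]
    have : (0 : ℝ) ≤ C₁ := by linarith only [hC₁]
    have : (0 : ℝ) ≤ A := by linarith
    positivity
  refine ⟨B + 1, by linarith, ?_⟩
  intro J ρ τ₀ a I η g hρ hρ1 hI hη hdeg hdep hlip 𝓓 h𝓓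
  have hJ : (0 : ℝ) < 2 ^ J := by positivity
  have hη0 : ∀ j, 0 < η j := fun j => lt_of_lt_of_le (by positivity) (hη j)
  obtain ⟨δ, hδe⟩ : ∃ δ : ℝ, δ = 1 / 2 ^ J := ⟨_, rfl⟩
  have hδ : 0 < δ := by rw [hδe]; positivity
  have hδη : ∀ j, δ ≤ η j := fun j => by rw [hδe]; exact hη j
  have hδ1 : δ ≤ 1 := by
    rw [hδe, div_le_one hJ]
    exact one_le_pow₀ (by norm_num)
  obtain ⟨c, hc⟩ : ∃ c : Fin m → ℝ, c = fun j => 1 / (N * η j) := ⟨_, rfl⟩
  have hc0 : ∀ j, 0 < c j := fun j => by
    rw [hc]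
    have := hη0 j
    positivity
  obtain ⟨Q, hQ⟩ : ∃ Q : Fin (Fintype.card (Fin m) + 1) → MvPolynomial (Fin m) ℝ,
    Q = fun i => tst (τ₀ + ρ * tt m i) ρ a c g := ⟨_, rfl⟩
  have hQe : ∀ i (y : Fin m → ℝ), eval y (Q i) = ∑ j, ∑ k, (c j * (a k + ρ * y k -
      eval (pnt (τ₀ + ρ * tt m i) fun k => a k + ρ * y k) (g j k))) ^ 2 := by
    intro i y
    rw [hQ]
    exact eval_tst _ _ _ _ _ _
  have hQ0 : ∀ i x, 0 ≤ eval x (Q i) := by
    intro i x
    rw [hQe]
    exact Finset.sum_nonneg fun j _ => Finset.sum_nonneg fun k _ => sq_nonneg _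
  have hττ : ∀ i, τ₀ + ρ * tt m i ∈ Icc τ₀ (τ₀ + ρ) := by
    intro i
    have h1 := tt_mem m i
    have h2 := mul_nonneg hρ.le h1.1
    have h3 := mul_le_mul_of_nonneg_left h1.2 hρ.le
    exact ⟨by linarith only [h2], by linarith only [h3]⟩
  -- the box
  obtain ⟨S, hS⟩ : ∃ S : ℝ → Set (Option (Fin m) → ℝ), S = fun τ =>
    {b | b none = τ ∧ ∀ k, |b (some k) - a k| ≤ (2 * m + 5) * ρ} := ⟨_, rfl⟩
  have hScv : ∀ τ, Convex ℝ (S τ) := by
    intro τ
    rw [hS]
    intro b hb b' hb' p q hp hq hpq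
    refine ⟨?_, fun k => ?_⟩
    · simp only [Pi.add_apply, Pi.smul_apply, smul_eq_mul, hb.1, hb'.1]
      rw [← add_mul, hpq, one_mul]
    · have e : (p • b + q • b') (some k) - a k =
          p * (b (some k) - a k) + q * (b' (some k) - a k) := by
        simp only [Pi.add_apply, Pi.smul_apply, smul_eq_mul]
        have : p * a k + q * a k = a k := by rw [← add_mul, hpq, one_mul]
        linarith only [this]
      rw [e]
      refine (abs_add_le _ _).trans ?_
      rw [abs_mul, abs_mul, abs_of_nonneg hp, abs_of_nonneg hq]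
      have h1 := mul_le_mul_of_nonneg_left (hb.2 k) hp
      have h2 := mul_le_mul_of_nonneg_left (hb'.2 k) hq
      have h3 : p * ((2 * m + 5) * ρ) + q * ((2 * m + 5) * ρ) = (2 * m + 5) * ρ := by
        rw [← add_mul, hpq, one_mul]
      linarith only [h1, h2, h3]
  have hmv : ∀ τ ∈ Icc τ₀ (τ₀ + ρ), ∀ j k, ∀ b ∈ S τ, ∀ b' ∈ S τ,
      |eval b' (g j k) - eval b (g j k)| ≤ K * (m + 1) * ‖b' - b‖ := by
    intro τ hτ j k b hb b' hb'
    have h1 := mvt_poly (g j k) (S τ) (hScv τ) K (Nat.cast_nonneg K) (by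
      intro b hb o
      rw [hS] at hb
      exact hlip b (by rw [hb.1]; exact hτ) hb.2 j k o) b b' hb hb'
    rw [Fintype.card_option, Fintype.card_fin] at h1
    push_cast at h1
    exact h1
  -- the sections
  have hsec : ∀ i, volume {y : Fin m → ℝ | ‖y‖ ≤ 2 * Fintype.card (Fin m) + 2 + |tt m i| * 3 ∧
      eval y (Q i) ≤ 4 * Fintype.card (Fin m) + 1} ≤
      ENNReal.ofReal (C₁ * ∏ j, (A * η j / ρ)) := by
    intro i
    refine hvol _ I (fun j => A * η j / ρ) hI (fun j => by
      have := hη0 j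
      positivity) ?_
    rintro j y ⟨hy1, hy2⟩ y' ⟨hy1', hy2'⟩ ε hε hyy k
    rw [Fintype.card_fin] at hy1 hy2 hy1' hy2'
    have hti := tt_mem m i
    have hbox : ∀ z : Fin m → ℝ, ‖z‖ ≤ 2 * m + 2 + |tt m i| * 3 → ∀ k, |z k| ≤ 2 * m + 5 := by
      intro z hz k
      have h1 : |z k| ≤ ‖z‖ := norm_le_pi_norm z k
      have h2 : |tt m i| ≤ 1 := by rw [abs_of_nonneg hti.1]; exact hti.2
      linarith only [hz, h1, h2]
    have hval : ∀ z : Fin m → ℝ, eval z (Q i) ≤ 4 * m + 1 →
        |a k + ρ * z k - eval (pnt (τ₀ + ρ * tt m i) fun k => a k + ρ * z k) (g j k)| ≤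
          A * η j := by
      intro z hz
      rw [hQe] at hz
      have h1 : (c j * (a k + ρ * z k -
          eval (pnt (τ₀ + ρ * tt m i) fun k => a k + ρ * z k) (g j k))) ^ 2 ≤ 4 * m + 1 := by
        refine le_trans ?_ hz
        refine le_trans ?_ (Finset.single_le_sum (f := fun j => ∑ k, (c j * (a k + ρ * z k -
          eval (pnt (τ₀ + ρ * tt m i) fun k => a k + ρ * z k) (g j k))) ^ 2)
          (fun j _ => Finset.sum_nonneg fun k _ => sq_nonneg _) (Finset.mem_univ j))
        exact Finset.single_le_sum (f := fun k => (c j * (a k + ρ * z k -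
          eval (pnt (τ₀ + ρ * tt m i) fun k => a k + ρ * z k) (g j k))) ^ 2)
          (fun k _ => sq_nonneg _) (Finset.mem_univ k)
      have h2 : (4 * m + 1 : ℝ) ≤ (2 * m + 1) ^ 2 := by nlinarith only [sq_nonneg (m : ℝ)]
      have h3 := abs_le_of_sq_le_sq (h1.trans h2) (by positivity)
      have h4 : |c j * (a k + ρ * z k -
          eval (pnt (τ₀ + ρ * tt m i) fun k => a k + ρ * z k) (g j k))| ≤ 2 * m + 1 := h3
      rw [abs_mul, abs_of_pos (hc0 j), hc] at h4
      have h5 : 0 < N * η j := mul_pos (by linarith only [hN1]) (hη0 j)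
      simp only [one_div] at h4
      rw [inv_mul_le_iff₀ h5] at h4
      refine h4.trans (le_of_eq ?_)
      rw [hA]; ring
    -- the intermediate point
    obtain ⟨x, hx⟩ : ∃ x : Fin m → ℝ, x = fun i => if i ∈ I j then y i else y' i := ⟨_, rfl⟩
    have hxk : ∀ k, |x k| ≤ 2 * m + 5 := by
      intro k
      rw [hx]
      simp only
      split_ifs
      · exact hbox y hy1 k
      · exact hbox y' hy1' k
    have hin : ∀ z : Fin m → ℝ, (∀ k, |z k| ≤ 2 * m + 5) →
        pnt (τ₀ + ρ * tt m i) (fun k => a k + ρ * z k) ∈ S (τ₀ + ρ * tt m i) := by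
      intro z hz
      rw [hS]
      refine ⟨rfl, fun k => ?_⟩
      have e : pnt (τ₀ + ρ * tt m i) (fun k => a k + ρ * z k) (some k) - a k = ρ * z k := by
        simp only [pnt]; ring
      rw [e, abs_mul, abs_of_pos hρ, mul_comm]
      exact mul_le_mul_of_nonneg_right (hz k) hρ.le
    have h1 : eval (pnt (τ₀ + ρ * tt m i) fun k => a k + ρ * y k) (g j k) =
        eval (pnt (τ₀ + ρ * tt m i) fun k => a k + ρ * x k) (g j k) := by
      refine hdep j k _ _ rfl fun l hl => ?_
      simp only [pnt, hx, if_pos hl]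
    have h2 := hmv _ (hττ i) j k _ (hin y' (hbox y' hy1')) _ (hin x hxk)
    have h3 : ‖(pnt (τ₀ + ρ * tt m i) fun k => a k + ρ * x k) -
        pnt (τ₀ + ρ * tt m i) fun k => a k + ρ * y' k‖ ≤ ρ * ε := by
      rw [pi_norm_le_iff_of_nonneg (by positivity)]
      intro o
      cases o with
      | none =>
        simp only [Pi.sub_apply, pnt, sub_self, norm_zero]
        positivity
      | some l =>
        simp only [Pi.sub_apply, pnt, Real.norm_eq_abs]
        have e : a l + ρ * x l - (a l + ρ * y' l) = ρ * (x l - y' l) := by ring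
        rw [e, abs_mul, abs_of_pos hρ]
        refine mul_le_mul_of_nonneg_left ?_ hρ.le
        rw [hx]
        simp only
        split_ifs with hl
        · exact hyy l hl
        · rw [sub_self, abs_zero]
          exact hε
    have h4 := hval y hy2
    have h5 := hval y' hy2'
    rw [h1] at h4
    have h6 : |ρ * (y k - y' k)| ≤ 2 * (A * η j) + K * (m + 1) * (ρ * ε) := by
      have e : ρ * (y k - y' k) = (a k + ρ * y k -
          eval (pnt (τ₀ + ρ * tt m i) fun k => a k + ρ * x k) (g j k)) -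
          (a k + ρ * y' k - eval (pnt (τ₀ + ρ * tt m i) fun k => a k + ρ * y' k) (g j k)) +
          (eval (pnt (τ₀ + ρ * tt m i) fun k => a k + ρ * x k) (g j k) -
          eval (pnt (τ₀ + ρ * tt m i) fun k => a k + ρ * y' k) (g j k)) := by ring
      rw [e]
      refine (abs_add_le _ _).trans ?_
      have h7 := abs_sub (a k + ρ * y k -
          eval (pnt (τ₀ + ρ * tt m i) fun k => a k + ρ * x k) (g j k))
          (a k + ρ * y' k - eval (pnt (τ₀ + ρ * tt m i) fun k => a k + ρ * y' k) (g j k))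
      have h8 := h2.trans (mul_le_mul_of_nonneg_left h3 hL0)
      linarith only [h4, h5, h7, h8]
    rw [abs_mul, abs_of_pos hρ] at h6
    have h9 : 2 * (A * η j / ρ) + K * (m + 1) * ε =
        (2 * (A * η j) + K * (m + 1) * (ρ * ε)) / ρ := by
      field_simp
    rw [h9, le_div_iff₀ hρ, mul_comm]
    exact h6
  -- the count
  obtain ⟨f, hf⟩ : ∃ f : (Fin m → ℤ) → Fin m → ℝ, f = fun v k => (v k : ℝ) * δ := ⟨_, rfl⟩
  have hfi : Function.Injective f := by
    intro v v' h
    funext k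
    have h1 := congrFun h k
    rw [hf] at h1
    simp only [mul_left_inj' hδ.ne'] at h1
    exact_mod_cast h1
  have hmain := card_directions_le (μ := Fin m) (d := 2 * (K + 1)) (by omega) (R := 3) Q
    (fun i => by rw [hQ]; exact deg_tst _ _ _ _ _ hdeg) hQ0 (tt m) (tt_inj m) (𝓓.image f) hδ (by
      intro D hD D' hD' hne
      obtain ⟨v, -, rfl⟩ := Finset.mem_image.1 hD
      obtain ⟨v', -, rfl⟩ := Finset.mem_image.1 hD'
      have h1 : v ≠ v' := fun h => hne (by rw [h])
      obtain ⟨k, hk⟩ := Function.ne_iff.1 h1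
      refine le_trans ?_ (dist_le_pi_dist (f v) (f v') k)
      rw [Real.dist_eq, hf]
      simp only
      rw [← sub_mul, abs_mul, abs_of_pos hδ]
      have h2 : (1 : ℝ) ≤ |(v k : ℝ) - v' k| := by
        have : (1 : ℤ) ≤ |v k - v' k| := Int.one_le_abs (sub_ne_zero.2 hk)
        exact_mod_cast this
      nlinarith only [hδ, h2]) (by
      intro D hD
      obtain ⟨v, hv, rfl⟩ := Finset.mem_image.1 hD
      obtain ⟨u, d, hu, hd, hvd, hl⟩ := h𝓓 v hv
      refine ⟨fun k => (u k - a k) / ρ, ?_, fun D' hD' => ?_⟩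
      · rw [pi_norm_le_iff_of_nonneg zero_le_one]
        intro k
        rw [Real.norm_eq_abs, abs_div, abs_of_pos hρ, div_le_one hρ]
        exact hu k
      have hDd : ∀ k, |D' k - d k| ≤ 2 * δ := by
        intro k
        have h1 : |D' k - f v k| ≤ δ / 2 := by
          have := (dist_le_pi_dist D' (f v) k).trans hD'.le
          rwa [Real.dist_eq] at this
        have h2 : |f v k - d k| ≤ δ := by
          rw [hf]
          simp only
          have h3 : ((⌊2 ^ J * d k⌋ : ℤ) : ℝ) ≤ 2 ^ J * d k := Int.floor_le _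
          have h4 : 2 ^ J * d k < (⌊2 ^ J * d k⌋ : ℝ) + 1 := Int.lt_floor_add_one _
          rw [hvd k] at h3 h4
          have h5 : d k = 2 ^ J * d k * δ := by
            rw [hδe]
            field_simp
          rw [abs_le]
          constructor
          · nlinarith only [h5, hδ, h4]
          · nlinarith only [hδ, h5, h3]
        have h3 : D' k - d k = (D' k - f v k) + (f v k - d k) := by ring
        rw [h3]
        refine (abs_add_le _ _).trans ?_
        linarith only [hδ, h1, h2]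
      refine ⟨?_, ?_⟩
      · rw [pi_norm_le_iff_of_nonneg (by norm_num)]
        intro k
        rw [Real.norm_eq_abs]
        have h1 : D' k = (D' k - d k) + d k := by ring
        rw [h1]
        refine (abs_add_le _ _).trans ?_
        have := hDd k
        have := hd k
        linarith
      -- the sum of the test polynomials
      have hterm : ∀ i j k, (c j * (a k + ρ * ((u k - a k) / ρ + tt m i * D' k) -
          eval (pnt (τ₀ + ρ * tt m i) fun k => a k + ρ * ((u k - a k) / ρ + tt m i * D' k))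
            (g j k))) ^ 2 ≤ 1 / ((m : ℝ) + 1) ^ 4 := by
        intro i j k
        have hti := tt_mem m i
        have e : ∀ k, a k + ρ * ((u k - a k) / ρ + tt m i * D' k) =
            u k + ρ * tt m i * D' k := by
          intro k
          field_simp
          ring
        simp only [e]
        have h1 := hl (tt m i) hti j k
        have hin1 : ∀ k, |u k + ρ * tt m i * d k - a k| ≤ (2 * m + 5) * ρ := by
          intro k
          have e1 : u k + ρ * tt m i * d k - a k = (u k - a k) + ρ * (tt m i * d k) := by ring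
          rw [e1]
          refine (abs_add_le _ _).trans ?_
          rw [abs_mul, abs_of_pos hρ, abs_mul, abs_of_nonneg hti.1]
          have h2 : tt m i * |d k| ≤ 1 := by
            have := mul_le_mul hti.2 (hd k) (abs_nonneg _) zero_le_one
            linarith only [this]
          have h3 := mul_le_mul_of_nonneg_left h2 hρ.le
          have h4 : (0 : ℝ) ≤ m := Nat.cast_nonneg m
          have := hu k
          nlinarith only [hρ, h3, this]
        have hdD : ∀ k, |(u k + ρ * tt m i * D' k) - (u k + ρ * tt m i * d k)| ≤ 2 * δ := by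
          intro k
          have e1 : (u k + ρ * tt m i * D' k) - (u k + ρ * tt m i * d k) =
              (ρ * tt m i) * (D' k - d k) := by ring
          rw [e1, abs_mul, abs_of_nonneg (mul_nonneg hρ.le hti.1)]
          have h2 : ρ * tt m i ≤ 1 := by
            have := mul_le_mul hρ1 hti.2 hti.1 zero_le_one
            linarith only [this]
          calc ρ * tt m i * |D' k - d k| ≤ 1 * (2 * δ) :=
                mul_le_mul h2 (hDd k) (abs_nonneg _) zero_le_one
            _ = 2 * δ := one_mul _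
        have hin2 : ∀ k, |u k + ρ * tt m i * D' k - a k| ≤ (2 * m + 5) * ρ := by
          intro k
          have e1 : u k + ρ * tt m i * D' k - a k = (u k - a k) + ρ * (tt m i * D' k) := by ring
          rw [e1]
          refine (abs_add_le _ _).trans ?_
          rw [abs_mul, abs_of_pos hρ, abs_mul, abs_of_nonneg hti.1]
          have h5 : |D' k| ≤ 3 := by
            have h6 : D' k = (D' k - d k) + d k := by ring
            rw [h6]
            refine (abs_add_le _ _).trans ?_
            have := hDd k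
            have := hd k
            linarith
          have h2 : tt m i * |D' k| ≤ 3 := by
            have := mul_le_mul hti.2 h5 (abs_nonneg _) zero_le_one
            linarith only [this]
          have h3 := mul_le_mul_of_nonneg_left h2 hρ.le
          have h4 : (0 : ℝ) ≤ m := Nat.cast_nonneg m
          have := hu k
          nlinarith only [hρ, h3, this]
        have h2 := hmv _ (hττ i) j k (pnt (τ₀ + ρ * tt m i) fun k => u k + ρ * tt m i * d k)
          (by rw [hS]; exact ⟨rfl, hin1⟩)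
          (pnt (τ₀ + ρ * tt m i) fun k => u k + ρ * tt m i * D' k)
          (by rw [hS]; exact ⟨rfl, hin2⟩)
        have h3 : ‖(pnt (τ₀ + ρ * tt m i) fun k => u k + ρ * tt m i * D' k) -
            pnt (τ₀ + ρ * tt m i) fun k => u k + ρ * tt m i * d k‖ ≤ 2 * δ := by
          rw [pi_norm_le_iff_of_nonneg (by positivity)]
          intro o
          cases o with
          | none =>
            simp only [Pi.sub_apply, pnt, sub_self, norm_zero]
            positivity
          | some l =>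
            simp only [Pi.sub_apply, pnt, Real.norm_eq_abs]
            exact hdD l
        have h4 := h2.trans (mul_le_mul_of_nonneg_left h3 hL0)
        have h5 : |u k + ρ * tt m i * D' k -
            eval (pnt (τ₀ + ρ * tt m i) fun k => u k + ρ * tt m i * D' k) (g j k)| ≤
            C₃ * η j := by
          have e1 : u k + ρ * tt m i * D' k -
              eval (pnt (τ₀ + ρ * tt m i) fun k => u k + ρ * tt m i * D' k) (g j k) =
              (u k + ρ * tt m i * d k -
              eval (pnt (τ₀ + ρ * tt m i) fun k => u k + ρ * tt m i * d k) (g j k)) +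
              ((u k + ρ * tt m i * D' k) - (u k + ρ * tt m i * d k)) -
              (eval (pnt (τ₀ + ρ * tt m i) fun k => u k + ρ * tt m i * D' k) (g j k) -
              eval (pnt (τ₀ + ρ * tt m i) fun k => u k + ρ * tt m i * d k) (g j k)) := by ring
          rw [e1]
          refine (abs_sub _ _).trans ?_
          have h6 := abs_add_le (u k + ρ * tt m i * d k -
              eval (pnt (τ₀ + ρ * tt m i) fun k => u k + ρ * tt m i * d k) (g j k))
              ((u k + ρ * tt m i * D' k) - (u k + ρ * tt m i * d k))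
          have h7 := hdD k
          have h8 := hδη j
          have h9 : K * (m + 1) * (2 * δ) ≤ 2 * (K * (m + 1)) * η j := by
            have := mul_le_mul_of_nonneg_left h8 hL0
            nlinarith only [this]
          rw [hC₃]
          nlinarith only [h1, h4, h6, h7, h8, h9]
        have h6 : |c j * (u k + ρ * tt m i * D' k -
            eval (pnt (τ₀ + ρ * tt m i) fun k => u k + ρ * tt m i * D' k) (g j k))| ≤
            1 / ((m : ℝ) + 1) ^ 2 := by
          rw [abs_mul, abs_of_pos (hc0 j)]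
          refine (mul_le_mul_of_nonneg_left h5 (hc0 j).le).trans (le_of_eq ?_)
          rw [hc, hN]
          have h7 := hη0 j
          have h8 : (0 : ℝ) < (m : ℝ) + 1 := by linarith only
          have h9 : (0 : ℝ) < C₃ := by linarith only [hL0, hC₃]
          field_simp
        calc (c j * (u k + ρ * tt m i * D' k -
            eval (pnt (τ₀ + ρ * tt m i) fun k => u k + ρ * tt m i * D' k) (g j k))) ^ 2
            = |c j * (u k + ρ * tt m i * D' k -
            eval (pnt (τ₀ + ρ * tt m i) fun k => u k + ρ * tt m i * D' k) (g j k))| ^ 2 :=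
              (sq_abs _).symm
          _ ≤ (1 / ((m : ℝ) + 1) ^ 2) ^ 2 := pow_le_pow_left₀ (abs_nonneg _) h6 2
          _ = 1 / ((m : ℝ) + 1) ^ 4 := by
            rw [div_pow, one_pow, ← pow_mul]
      have hsum : ∀ i, eval (fun k => (u k - a k) / ρ + tt m i * D' k) (Q i) ≤
          m * (m * (1 / ((m : ℝ) + 1) ^ 4)) := by
        intro i
        rw [hQe]
        refine (Finset.sum_le_sum fun j _ => Finset.sum_le_sum fun k _ => hterm i j k).trans
          (le_of_eq ?_)
        rw [Finset.sum_const, Finset.sum_const, Finset.card_univ, Fintype.card_fin,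
          nsmul_eq_mul, nsmul_eq_mul]
      refine (Finset.sum_le_sum fun i _ => hsum i).trans ?_
      rw [Finset.sum_const, Finset.card_univ, Fintype.card_fin, Fintype.card_fin, nsmul_eq_mul]
      push_cast
      have h1 : (0 : ℝ) ≤ m := Nat.cast_nonneg m
      have h2 : (0 : ℝ) < ((m : ℝ) + 1) ^ 4 := by positivity
      have e : ((m : ℝ) + 1) * (m * (m * (1 / ((m : ℝ) + 1) ^ 4))) =
          ((m : ℝ) + 1) * m * m / ((m : ℝ) + 1) ^ 4 := by ring
      rw [e, div_le_one h2]
      have h3 : (m : ℝ) ≤ (m : ℝ) + 1 := by linarith only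
      calc ((m : ℝ) + 1) * m * m ≤ ((m : ℝ) + 1) * ((m : ℝ) + 1) * ((m : ℝ) + 1) := by gcongr
        _ = ((m : ℝ) + 1) ^ 3 * 1 := by ring
        _ ≤ ((m : ℝ) + 1) ^ 3 * ((m : ℝ) + 1) := by gcongr
        _ = ((m : ℝ) + 1) ^ 4 := by ring)
  rw [Finset.card_image_of_injective 𝓓 hfi] at hmain
  have hprod : 0 ≤ ∏ j, (A * η j / ρ) := Finset.prod_nonneg fun j _ => by
    have := hη0 j
    positivity
  have hsum2 : (𝓓.card : ENNReal) * ENNReal.ofReal δ ^ Fintype.card (Fin m) ≤
      ENNReal.ofReal (((2 * (K + 1) + 1) ^ (Fintype.card (Fin m) + Fintype.card (Fin m)) : ℕ) *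
        (Wt * (C₁ * ∏ j, (A * η j / ρ)))) := by
    refine hmain.trans ?_
    rw [ENNReal.ofReal_mul (Nat.cast_nonneg _), ENNReal.ofReal_natCast]
    refine mul_le_mul_right ?_ _
    rw [ENNReal.ofReal_mul hWt0, hWt,
      ENNReal.ofReal_sum_of_nonneg fun i _ => wt_nonneg _ _, Finset.sum_mul]
    refine Finset.sum_le_sum fun i _ => ?_
    exact mul_le_mul_right (hsec i) _
  have hfin : (𝓓.card : ℝ) * δ ^ m ≤
      ((2 * (K + 1) + 1) ^ (Fintype.card (Fin m) + Fintype.card (Fin m)) : ℕ) *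
        (Wt * (C₁ * ∏ j, (A * η j / ρ))) := by
    rw [← ENNReal.ofReal_natCast, ← ENNReal.ofReal_pow hδ.le,
      ← ENNReal.ofReal_mul (Nat.cast_nonneg _)] at hsum2
    rw [Fintype.card_fin] at hsum2 ⊢
    refine (ENNReal.ofReal_le_ofReal_iff ?_).1 hsum2
    have : (0 : ℝ) ≤ C₁ := by linarith only [hC₁]
    positivity
  have hP : ∏ j, (A * η j / ρ) = A ^ m * ∏ j, (η j / ρ) := by
    rw [Finset.prod_congr rfl fun j _ => mul_div_assoc A (η j) ρ, Finset.prod_mul_distrib,
      Finset.prod_const, Finset.card_univ, Fintype.card_fin]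
  rw [hP] at hfin
  have hPn : 0 ≤ ∏ j, (η j / ρ) := Finset.prod_nonneg fun j _ => by
    have := hη0 j
    positivity
  have h1 : (𝓓.card : ℝ) * δ ^ m ≤ B * ∏ j, (η j / ρ) := by
    refine hfin.trans (le_of_eq ?_)
    rw [hB]; ring
  have h2 : (𝓓.card : ℝ) = (𝓓.card : ℝ) * δ ^ m * (2 ^ J) ^ m := by
    rw [mul_assoc, ← mul_pow, hδe, one_div_mul_cancel hJ.ne', one_pow, mul_one]
  rw [h2]
  calc (𝓓.card : ℝ) * δ ^ m * (2 ^ J) ^ m ≤ (B * ∏ j, (η j / ρ)) * (2 ^ J) ^ m :=
        mul_le_mul_of_nonneg_right h1 (by positivity)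
    _ ≤ ((B + 1) * ∏ j, (η j / ρ)) * (2 ^ J) ^ m :=
        mul_le_mul_of_nonneg_right (mul_le_mul_of_nonneg_right (by linarith only) hPn) (by positivity)
    _ = (B + 1) * (2 ^ J) ^ m * ∏ j, (η j / ρ) := by ring

end Pool.GEN
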