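import Pool.Agent.H32.KR.Cnt
import Pool.Agent.H84.KBOX.BlkA

/-!
# Nested labels: polynomials on grids, the volume by Fubini
-/

set_option autoImplicit false

namespace Pool.GEN

open MeasureTheory Set MvPolynomial
open Pool.Agent.H50.PW

/-- The values of a polynomial are bounded by the values at some points of the unit interval. -/
theorem lag1 (D : ℕ) (R : ℝ) : ∃ C : ℝ, 1 ≤ C ∧ ∀ (q : Polynomial ℝ) (S : ℝ), q.natDegree ≤ D →
    (∀ i : Fin (D + 1), |q.eval (((i : ℕ) : ℝ) / (D + 1))| ≤ S) →
    ∀ t ∈ Icc (-R) R, |q.eval t| ≤ C * S := by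
  classical
  set v : ℕ → ℝ := fun i => (i : ℝ) / (D + 1) with hv
  have hD : (0 : ℝ) < D + 1 := by positivity
  have hinj : Set.InjOn v (Finset.range (D + 1) : Finset ℕ) := by
    intro i _ k _ h
    have h1 : (i : ℝ) / (D + 1) = (k : ℝ) / (D + 1) := h
    field_simp at h1
    exact_mod_cast h1
  have hM : ∀ i, ∃ M : ℝ, 0 ≤ M ∧ ∀ t ∈ Icc (-R) R,
      |(Lagrange.basis (Finset.range (D + 1)) v i).eval t| ≤ M := by
    intro i
    obtain ⟨M, hM⟩ := (isCompact_Icc (a := -R) (b := R)).exists_bound_of_continuousOn
      ((Lagrange.basis (Finset.range (D + 1)) v i).continuous.continuousOn)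
    refine ⟨max M 0, le_max_right _ _, fun t ht => ?_⟩
    exact (hM t ht).trans (le_max_left _ _)
  choose M hM0 hM1 using hM
  refine ⟨1 + ∑ i ∈ Finset.range (D + 1), M i, ?_, ?_⟩
  · have := Finset.sum_nonneg (s := Finset.range (D + 1)) fun i _ => hM0 i
    linarith
  intro q S hq hS t ht
  have hS0 : 0 ≤ S := le_trans (abs_nonneg _) (hS 0)
  have h1 : q = Lagrange.interpolate (Finset.range (D + 1)) v fun i => q.eval (v i) := by
    refine Lagrange.eq_interpolate hinj ?_
    rw [Finset.card_range]
    refine lt_of_le_of_lt (Polynomial.degree_le_natDegree) ?_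
    exact_mod_cast Nat.lt_succ_of_le hq
  have h2 : q.eval t = ∑ i ∈ Finset.range (D + 1),
      q.eval (v i) * (Lagrange.basis (Finset.range (D + 1)) v i).eval t := by
    conv_lhs => rw [h1]
    rw [Lagrange.interpolate_apply, Polynomial.eval_finsetSum]
    refine Finset.sum_congr rfl fun i _ => ?_
    rw [Polynomial.eval_mul, Polynomial.eval_C]
  rw [h2]
  refine le_trans (Finset.abs_sum_le_sum_abs _ _) ?_
  have h3 : ∑ i ∈ Finset.range (D + 1),
      |q.eval (v i) * (Lagrange.basis (Finset.range (D + 1)) v i).eval t| ≤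
      ∑ i ∈ Finset.range (D + 1), M i * S := by
    refine Finset.sum_le_sum fun i hi => ?_
    rw [abs_mul, mul_comm]
    exact mul_le_mul (hM1 i t ht) (hS ⟨i, Finset.mem_range.1 hi⟩) (abs_nonneg _) (hM0 i)
  refine h3.trans ?_
  rw [← Finset.sum_mul]
  nlinarith

/-- The values of a polynomial are bounded by the values at a grid. -/
theorem lagm (m D : ℕ) (R : ℝ) (hR : 1 ≤ R) : ∃ C : ℝ, 1 ≤ C ∧
    ∀ (Q : MvPolynomial (Fin m) ℝ) (S : ℝ), Q.totalDegree ≤ D →
    (∀ i : Fin m → Fin (D + 1), |eval (fun k => (((i k : Fin (D + 1)) : ℕ) : ℝ) / (D + 1)) Q| ≤ S) →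
    ∀ x : Fin m → ℝ, (∀ k, |x k| ≤ R) → |eval x Q| ≤ C * S := by
  classical
  obtain ⟨C₁, hC₁, h1⟩ := lag1 D R
  refine ⟨C₁ ^ m, one_le_pow₀ hC₁, ?_⟩
  intro Q S hQ hS x hx
  have hS0 : 0 ≤ S := le_trans (abs_nonneg _) (hS fun _ => 0)
  have key : ∀ I : Finset (Fin m), ∀ i : Fin m → Fin (D + 1),
      |eval (fun k => if k ∈ I then x k else (((i k : Fin (D + 1)) : ℕ) : ℝ) / (D + 1)) Q| ≤
        C₁ ^ I.card * S := by
    intro I
    induction I using Finset.induction_on with
    | empty =>
      intro i
      simpa using hS i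
    | insert k I hk ih =>
      intro i
      obtain ⟨y, hy⟩ : ∃ y : Fin m → ℝ, y = fun l => if l ∈ I then x l else
        (((i l : Fin (D + 1)) : ℕ) : ℝ) / (D + 1) := ⟨_, rfl⟩
      obtain ⟨q, hq⟩ : ∃ q : Polynomial ℝ, q = aeval (fun l => if l = k then
        (Polynomial.X : Polynomial ℝ) else Polynomial.C (y l)) Q := ⟨_, rfl⟩
      have hqe : ∀ t, q.eval t = eval (fun l => if l = k then t else y l) Q := by
        intro t
        rw [hq, Pool.KBX.eval_aeval_poly]
        congr 2
        funext l
        split_ifs <;> simp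
      have hqd : q.natDegree ≤ D := by
        rw [hq]
        refine Pool.KBX.natDegree_aeval_le _ _ (fun l => ?_) hQ
        split_ifs
        · exact Polynomial.natDegree_X_le
        · rw [Polynomial.natDegree_C]
          exact Nat.zero_le _
      have h2 := h1 q (C₁ ^ I.card * S) hqd (by
        intro j
        rw [hqe]
        have h3 := ih (fun l => if l = k then j else i l)
        have e : (fun l => if l = k then (((j : Fin (D + 1)) : ℕ) : ℝ) / (D + 1) else y l) =
            fun l => if l ∈ I then x l else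
              ((((fun l => if l = k then j else i l) l : Fin (D + 1)) : ℕ) : ℝ) / (D + 1) := by
          funext l
          by_cases hl : l = k
          · subst hl
            simp only [if_neg hk]
            simp
          · simp only [if_neg hl, hy]
        rw [e]
        exact h3) (x k) (abs_le.1 (hx k))
      rw [hqe] at h2
      have e : (fun l => if l ∈ insert k I then x l else
          (((i l : Fin (D + 1)) : ℕ) : ℝ) / (D + 1)) = fun l => if l = k then x k else y l := by
        funext l
        by_cases hl : l = k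
        · subst hl
          simp
        · rw [if_neg hl, hy]
          simp only [Finset.mem_insert, hl, false_or]
      rw [e, Finset.card_insert_of_notMem hk, pow_succ]
      calc _ ≤ C₁ * (C₁ ^ I.card * S) := h2
        _ = _ := by ring
  have h2 := key Finset.univ (fun _ => 0)
  simp only [Finset.mem_univ, if_true, Finset.card_univ, Fintype.card_fin] at h2
  exact h2

/-- The volume of a set of points whose coordinates are determined by the previous ones. -/
theorem vol_fub (n : ℕ) : ∀ (f : Fin n → (Fin n → ℝ) → ℝ) (η : Fin n → ℝ), (∀ j, Measurable (f j)) →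
    (∀ j x y, (∀ i < j, x i = y i) → f j x = f j y) → (∀ j, 0 ≤ η j) →
    volume {x : Fin n → ℝ | ∀ j, |x j - f j x| ≤ η j} ≤ ENNReal.ofReal (∏ j, (2 * η j)) := by
  induction n with
  | zero =>
    intro f η _ _ _
    have h1 : {x : Fin 0 → ℝ | ∀ j, |x j - f j x| ≤ η j} ⊆ Metric.closedBall 0 1 := by
      intro x _
      rw [Metric.mem_closedBall, dist_pi_le_iff zero_le_one]
      intro j
      exact j.elim0
    refine (measure_mono h1).trans ?_
    rw [Real.volume_pi_closedBall _ zero_le_one]
    simp
  | succ n ih =>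
    intro f η hf hdep hη
    have hmp := volume_preserving_piFinSuccAbove (fun _ : Fin (n + 1) => ℝ) (Fin.last n)
    obtain ⟨T, hT⟩ : ∃ T : Set (ℝ × (Fin n → ℝ)), T = {z | ∀ j : Fin (n + 1),
      |(Fin.snoc z.2 z.1 : Fin (n + 1) → ℝ) j - f j (Fin.snoc z.2 z.1 : Fin (n + 1) → ℝ)| ≤
        η j} := ⟨_, rfl⟩
    have hsn : Measurable (fun z : ℝ × (Fin n → ℝ) => (Fin.snoc z.2 z.1 : Fin (n + 1) → ℝ)) := by
      refine measurable_pi_lambda _ fun j => ?_
      refine Fin.lastCases ?_ (fun i => ?_) j
      · simp only [Fin.snoc_last]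
        exact measurable_fst
      · simp only [Fin.snoc_castSucc]
        exact (measurable_pi_apply i).comp measurable_snd
    have hTm : MeasurableSet T := by
      rw [hT]
      have : {z : ℝ × (Fin n → ℝ) | ∀ j : Fin (n + 1),
        |(Fin.snoc z.2 z.1 : Fin (n + 1) → ℝ) j - f j (Fin.snoc z.2 z.1 : Fin (n + 1) → ℝ)| ≤
        η j} = ⋂ j : Fin (n + 1), {z | |(Fin.snoc z.2 z.1 : Fin (n + 1) → ℝ) j -
          f j (Fin.snoc z.2 z.1 : Fin (n + 1) → ℝ)| ≤ η j} := by
        ext z; simp
      rw [this]
      refine MeasurableSet.iInter fun j => ?_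
      refine measurableSet_le ?_ measurable_const
      exact (((measurable_pi_apply j).comp hsn).sub ((hf j).comp hsn)).abs
    have hpre : {x : Fin (n + 1) → ℝ | ∀ j, |x j - f j x| ≤ η j} =
        (MeasurableEquiv.piFinSuccAbove (fun _ : Fin (n + 1) => ℝ) (Fin.last n)) ⁻¹' T := by
      ext x
      have e : (Fin.snoc ((MeasurableEquiv.piFinSuccAbove (fun _ : Fin (n + 1) => ℝ)
          (Fin.last n)) x).2 ((MeasurableEquiv.piFinSuccAbove (fun _ : Fin (n + 1) => ℝ)
          (Fin.last n)) x).1 : Fin (n + 1) → ℝ) = x := by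
        funext j
        refine Fin.lastCases ?_ (fun i => ?_) j
        · rw [Fin.snoc_last]
          rfl
        · rw [Fin.snoc_castSucc]
          show x ((Fin.last n).succAbove i) = x i.castSucc
          rw [Fin.succAbove_last]
      rw [hT]
      simp only [Set.mem_ofPred_eq, Set.mem_preimage, e]
    rw [hpre, hmp.measure_preimage_equiv, Measure.volume_eq_prod, Measure.prod_apply_symm hTm]
    obtain ⟨f', hf'⟩ : ∃ f' : Fin n → (Fin n → ℝ) → ℝ,
      f' = fun j y => f j.castSucc (Fin.snoc y 0 : Fin (n + 1) → ℝ) := ⟨_, rfl⟩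
    obtain ⟨S, hS⟩ : ∃ S : Set (Fin n → ℝ), S = {y | ∀ j, |y j - f' j y| ≤ η j.castSucc} :=
      ⟨_, rfl⟩
    have hS1 := ih f' (fun j => η j.castSucc) (by
      intro j
      rw [hf']
      have h0 : Measurable (fun y : Fin n → ℝ => ((0 : ℝ), y)) :=
        measurable_const.prodMk measurable_id
      exact (hf j.castSucc).comp (hsn.comp h0)) (by
      intro j x y hxy
      rw [hf']
      refine hdep _ _ _ fun i hi => ?_
      have hi' : (i : ℕ) < j := hi
      have e : i = (⟨i, by omega⟩ : Fin n).castSucc := by ext; simp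
      rw [e, Fin.snoc_castSucc, Fin.snoc_castSucc]
      exact hxy _ hi') (fun j => hη _)
    rw [← hS] at hS1
    have hSm : MeasurableSet S := by
      rw [hS]
      have : {y : Fin n → ℝ | ∀ j, |y j - f' j y| ≤ η j.castSucc} =
          ⋂ j, {y | |y j - f' j y| ≤ η j.castSucc} := by ext y; simp
      rw [this]
      refine MeasurableSet.iInter fun j => ?_
      refine measurableSet_le ?_ measurable_const
      have h0 : Measurable (fun y : Fin n → ℝ => ((0 : ℝ), y)) :=
        measurable_const.prodMk measurable_id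
      have h2 : Measurable (f' j) := by
        rw [hf']
        exact (hf j.castSucc).comp (hsn.comp h0)
      exact ((measurable_pi_apply j).sub h2).abs
    have hsec : ∀ y, volume ((fun x => (x, y)) ⁻¹' T) ≤
        S.indicator (fun _ => ENNReal.ofReal (2 * η (Fin.last n))) y := by
      intro y
      by_cases hy : y ∈ S
      · rw [Set.indicator_of_mem hy]
        have h2 : (fun x => (x, y)) ⁻¹' T ⊆
            Metric.closedBall (f (Fin.last n) (Fin.snoc y 0 : Fin (n + 1) → ℝ))
              (η (Fin.last n)) := by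
          intro a ha
          rw [hT] at ha
          have h3 := ha (Fin.last n)
          simp only [Fin.snoc_last] at h3
          rw [hdep (Fin.last n) (Fin.snoc y a : Fin (n + 1) → ℝ)
            (Fin.snoc y 0 : Fin (n + 1) → ℝ) (fun i hi => by
              have hi' : (i : ℕ) < n := hi
              have e : i = (⟨i, hi'⟩ : Fin n).castSucc := by ext; simp
              rw [e, Fin.snoc_castSucc, Fin.snoc_castSucc])] at h3
          rw [Metric.mem_closedBall, Real.dist_eq]
          exact h3
        refine (measure_mono h2).trans ?_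
        rw [Real.volume_closedBall]
      · have h2 : (fun x => (x, y)) ⁻¹' T = ∅ := by
          rw [Set.eq_empty_iff_forall_notMem]
          intro a ha
          refine hy ?_
          rw [hS]
          intro j
          rw [hT] at ha
          have h3 := ha j.castSucc
          rw [Fin.snoc_castSucc] at h3
          have e : f j.castSucc (Fin.snoc y a : Fin (n + 1) → ℝ) = f' j y := by
            rw [hf']
            refine hdep _ _ _ fun i hi => ?_
            have hi' : (i : ℕ) < j := hi
            have e : i = (⟨i, by omega⟩ : Fin n).castSucc := by ext; simp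
            rw [e, Fin.snoc_castSucc, Fin.snoc_castSucc]
          rw [← e]
          exact h3
        rw [h2, measure_empty]
        exact bot_le
    refine (lintegral_mono hsec).trans ?_
    rw [lintegral_indicator_const hSm, Fin.prod_univ_castSucc,
      ENNReal.ofReal_mul (Finset.prod_nonneg fun j _ => by have := hη j.castSucc; positivity),
      mul_comm]
    exact mul_le_mul_left hS1 _

end Pool.GEN
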