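import Pool.Agent.H32.KR.K2b

/-!
# The directions of the lines with exact labels of all dimensions
-/

set_option autoImplicit false

namespace Pool.GEN

open Finset Real MvPolynomial
open Pool.Agent.H49.Ent Pool.Agent.H32.Dense Pool.STK Pool.KA Pool.KSAT Pool.K2S Pool.PB Pool.S6C
open Pool.FLF (Fam.sub)

variable {m J : ℕ}

/-- **(K2)** -/
theorem k2_thm (m : ℕ) : K2Stmt m := by
  classical
  intro K w ε hw0 hw1 hε
  obtain ⟨C₁, hC₁, hrem⟩ := rem_all m K
  obtain ⟨C₂, hC₂, hdir⟩ := ch_dir m K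
  obtain ⟨c, hc⟩ : ∃ c : ℕ, (2 * m + 7 : ℝ) < 2 ^ c := pow_unbounded_of_one_lt _ one_lt_two
  have hm0 : (0 : ℝ) ≤ m := Nat.cast_nonneg m
  have hm1 : (0 : ℝ) < (m : ℝ) + 1 := by positivity
  have hC₁0 : 0 < C₁ := by linarith only [hC₁]
  have hl2 : 0 < Real.log 2 := Real.log_pos one_lt_two
  have hl7 : 0 < Real.log 7 := Real.log_pos (by norm_num)
  have hlm : 0 ≤ Real.log (m + 1) := Real.log_nonneg (by linarith only)
  have hlC : 0 ≤ Real.log C₂ := Real.log_nonneg hC₂
  obtain ⟨Q, hQ⟩ : ∃ Q : ℝ, Q = c * Real.log 2 + 2 * m * (c * Real.log 2) + m * Real.log 7 +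
    2 * m * Real.log (m + 1) + 2 * m * C₁ + Real.log C₂ + m * Real.log 2 := ⟨_, rfl⟩
  have hQ0 : 0 ≤ Q := by rw [hQ]; positivity
  obtain ⟨τ, hτ⟩ : ∃ τ : ℝ, τ = min (Real.log 2 / (8 * C₁)) (ε / (4 * (m + 1) * C₁)) := ⟨_, rfl⟩
  have hτ0 : 0 < τ := by rw [hτ]; exact lt_min (by positivity) (by positivity)
  have hτ1 : τ * (8 * C₁) ≤ Real.log 2 := by
    rw [← le_div_iff₀ (by positivity), hτ]
    exact min_le_left _ _
  have hτ2 : τ * (4 * (m + 1) * C₁) ≤ ε := by
    rw [← le_div_iff₀ (by positivity), hτ]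
    exact min_le_right _ _
  refine ⟨τ, hτ0, ⌈4 * c + 8 * C₁ / Real.log 2 + Real.log 2 / ε + 2 * Q / ε⌉₊, ?_⟩
  intro J hJ F A hA s I V z z' G hTr hTm hI hs hlab
  have hJ1 : 4 * c + 8 * C₁ / Real.log 2 + Real.log 2 / ε + 2 * Q / ε ≤ (J : ℝ) :=
    (Nat.le_ceil _).trans (by exact_mod_cast hJ)
  have p1 : 0 ≤ 8 * C₁ / Real.log 2 := by positivity
  have p2 : 0 ≤ Real.log 2 / ε := by positivity
  have p3 : 0 ≤ 2 * Q / ε := by positivity
  have p4 : (0 : ℝ) ≤ 4 * c := by positivity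
  have hJa : 4 * (c : ℝ) ≤ J := by linarith only [hJ1, p1, p2, p3]
  have hJb : 8 * C₁ ≤ J * Real.log 2 := by
    rw [← div_le_iff₀ hl2]; linarith only [hJ1, p2, p3]
  have hJc : Real.log 2 ≤ J * ε := by
    rw [← div_le_iff₀ hε]; linarith only [hJ1, p1, p3]
  have hJd : 2 * Q ≤ J * ε := by
    rw [← div_le_iff₀ hε]; linarith only [hJ1, p1, p2]
  have hJ0 : (0 : ℝ) ≤ J := Nat.cast_nonneg J
  have hsum : 0 ≤ ∑ j, (1 - s j) := Finset.sum_nonneg fun j _ => by linarith only [hs, (hs j).2]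
  rcases le_or_gt (1 / 2) w with hw2 | hw2
  · -- the trivial bound
    refine ⟨A, fun _ h => h, ?_, ?_⟩
    · have h1 : Real.exp (-(ε * J)) ≤ 1 := by
        rw [Real.exp_le_one_iff]
        have := mul_nonneg hε.le hJ0
        linarith only [hl2, hJc]
      calc _ ≤ 1 * Pe F.p A := mul_le_mul_of_nonneg_right h1 hA.le
        _ = _ := one_mul _
    · refine (ch_dir_triv F (isLaw_cond F.isLaw hA) _).trans ?_
      have h1 : (m : ℝ) * Real.log 7 ≤ ε * J := by
        have h2 : (m : ℝ) * Real.log 7 ≤ Q := by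
          rw [hQ]
          have a1 : 0 ≤ c * Real.log 2 := by positivity
          have a2 : 0 ≤ 2 * m * (c * Real.log 2) := by positivity
          have a3 : 0 ≤ 2 * m * Real.log (m + 1) := by positivity
          have a4 : 0 ≤ 2 * m * C₁ := by positivity
          have a5 : 0 ≤ m * Real.log 2 := by positivity
          linarith only [hlC, a1, a2, a3, a4, a5]
        linarith only [hl2, hJc, hJd, h2]
      have h3 : (m : ℝ) * (J * Real.log 2) ≤ ((∑ j, (1 - s j)) + 2 * m * w) * Real.log 2 * J := by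
        have h4 : (m : ℝ) ≤ (∑ j, (1 - s j)) + 2 * m * w := by nlinarith only [hsum, hw2]
        have h5 := mul_le_mul_of_nonneg_right h4 (mul_nonneg hl2.le hJ0)
        linarith only [h5]
      linarith only [h1, h3]
  · obtain ⟨w₀, hw₀⟩ : ∃ w₀ : ℕ, w₀ = ⌊w * J⌋₊ := ⟨_, rfl⟩
    have hw₀1 : (w₀ : ℝ) ≤ w * J := by rw [hw₀]; exact Nat.floor_le (by positivity)
    have hw₀2 : (w₀ : ℝ) ≤ J / 2 := by nlinarith only [hw₀1, hw2]
    have hwJ : (w₀ : ℝ) + c ≤ J * (3 / 4) := by linarith only [hJ1, p1, p2, p3, hw₀2]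
    have hwJ' : w₀ + c ≤ J := by
      have : ((w₀ + c : ℕ) : ℝ) ≤ J := by push_cast; linarith only [hJ1, p1, p2, p3, hw₀2]
      exact_mod_cast this
    rw [← hw₀]
    obtain ⟨P, hP⟩ : ∃ P : Fin m → ℕ, P = fun j => ⌊s j * J⌋₊ := ⟨_, rfl⟩
    have hlab' : ∀ j, LabOK F (I j) K J w₀ (P j) A (z j) (z' j) (G j) := by
      intro j
      rw [hP, hw₀]
      exact hlab j
    have hPJ : ∀ j, P j ≤ J := by
      intro j
      rw [hP]
      refine Nat.floor_le_of_le ?_
      have := (hs j).2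
      nlinarith only [this]
    have hPs : ∀ j, s j * J - 1 ≤ P j := by
      intro j
      rw [hP]
      exact (Nat.sub_one_lt_floor _).le
    have hθ0 : 0 ≤ τ * J := by positivity
    obtain ⟨B, hBA, hPB, hB⟩ := hrem J F A hA w₀ (w₀ + c) P I V z z' G (τ * J) (by omega) hwJ'
      hθ0 hTm (by
        have h1 : C₁ * (τ * J) ≤ J * Real.log 2 / 8 := by
          have := mul_le_mul_of_nonneg_right hτ1 hJ0
          linarith only [this]
        have h2 : (J : ℝ) / 4 * Real.log 2 ≤ ((J : ℝ) - ((w₀ + c : ℕ) : ℝ)) * Real.log 2 := by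
          refine mul_le_mul_of_nonneg_right ?_ hl2.le
          push_cast
          linarith only [hJ1, p1, p2, p3, hw₀2]
        linarith only [hJb, h1, h2]) hlab'
    have hPB0 : 0 < Pe F.p B := by linarith only [hA, hPB]
    have hlaw := isLaw_cond F.isLaw hPB0
    have hpB : ∀ ω, 0 < Pool.Agent.H49.Ent.cond F.p B True ω → B ω := by
      intro ω hω
      have := ((cond_pos_iff F.isLaw.nonneg B True ω).1 hω).2
      exact of_eq_true this
    obtain ⟨E, hE⟩ : ∃ E : ℝ, E = Real.exp (C₁ * (τ * J + 1)) := ⟨_, rfl⟩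
    have hE1 : 1 ≤ E := by
      rw [hE, Real.one_le_exp_iff]
      positivity
    have hlE : Real.log E = C₁ * (τ * J + 1) := by rw [hE, Real.log_exp]
    obtain ⟨η, hη⟩ : ∃ η : Fin m → ℝ, η = fun j => (m + 1) * E / 2 ^ P j := ⟨_, rfl⟩
    have hηJ : ∀ j, 1 / 2 ^ J ≤ η j := by
      intro j
      rw [hη]
      simp only
      have h1 : (1 : ℝ) / 2 ^ J ≤ 1 / 2 ^ P j := inv_mono (hPJ j)
      refine h1.trans (div_le_div_of_nonneg_right ?_ (by positivity))
      nlinarith only [hE1]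
    refine ⟨B, hBA, ?_, ?_⟩
    · have h1 : Real.exp (-(ε * J)) ≤ 1 / 2 := by
        have h2 : Real.exp (-(ε * J)) ≤ Real.exp (-Real.log 2) := Real.exp_le_exp.2 (by linarith only [hJc])
        have h3 : Real.exp (-Real.log 2) = 1 / 2 := by
          rw [Real.exp_neg, Real.exp_log (by norm_num)]
          norm_num
        exact h2.trans h3.le
      have := mul_le_mul_of_nonneg_right h1 hA.le
      linarith only [hPB, this]
    rcases Nat.eq_zero_or_pos m with hm | hm
    · subst hm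
      refine (ch_dir_triv F hlaw _).trans ?_
      have h1 := mul_nonneg hε.le hJ0
      simp only [Nat.cast_zero, zero_mul, mul_zero, add_zero]
      have h2 : 0 ≤ (∑ j, (1 - s j)) * Real.log 2 * J :=
        mul_nonneg (mul_nonneg hsum hl2.le) hJ0
      linarith only [hl2, hJc, h2]
    -- the chain rule
    obtain ⟨Y, hY⟩ : ∃ Y : F.Ω → ((∀ j, V j) × (ℕ × F.ζ)),
      Y = fun ω => ((fun j => z' j (slam F w₀ ω)), (F.T1 w₀ ω, F.Z ω)) := ⟨_, rfl⟩
    have c1 := CH_le_add hlaw.nonneg (F.D J) (F.T1 (w₀ + c)) Y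
    have c2 := CH_le_add hlaw.nonneg (F.D J) (fun ω => fl (w₀ + c) (F.x1 (w₀ + c) ω))
      (fun ω => (F.T1 (w₀ + c) ω, Y ω))
    have d1 : CH (Pool.Agent.H49.Ent.cond F.p B True) (F.T1 (w₀ + c)) Y ≤ c * Real.log 2 :=
      ch_T1 F hlaw w₀ c hwJ' Y (fun y => y.2.1) (fun ω => by rw [hY])
    have hB' : ∀ ω, 0 < Pool.Agent.H49.Ent.cond F.p B True ω → ∀ s ∈ Set.Icc (0 : ℝ) 1, ∀ j k,
        |F.x1 (w₀ + c) ω k + 1 / 2 ^ (w₀ + c) * s * F.d ω k -
        eval (pnt ((F.T1 (w₀ + c) ω : ℝ) / 2 ^ (w₀ + c) + 1 / 2 ^ (w₀ + c) * s)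
          fun k => F.x1 (w₀ + c) ω k + 1 / 2 ^ (w₀ + c) * s * F.d ω k)
          (G j (z' j (slam F w₀ ω)) k)| ≤ η j := by
      intro ω hω s hs j k
      have h1 := hB ω (hpB ω hω) s hs j k
      rw [← hE] at h1
      rw [hη]
      exact h1
    obtain ⟨j₀, hj₀⟩ : ∃ j₀ : Fin m, j₀ = ⟨0, hm⟩ := ⟨_, rfl⟩
    have hI0 : I j₀ = ∅ := by
      rw [← Finset.card_eq_zero, hI, hj₀]
    have d2 : CH (Pool.Agent.H49.Ent.cond F.p B True) (fun ω => fl (w₀ + c) (F.x1 (w₀ + c) ω))
        (fun ω => (F.T1 (w₀ + c) ω, Y ω)) ≤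
        m * Real.log (2 * (2 ^ (w₀ + c) * (2 * η j₀) + 1) + 1) := by
      refine ch_cell F hlaw (w₀ + c) Y (fun y k => G j₀ (y.1 j₀) k) (η j₀) ?_ ?_
      · intro y k b b' hb
        refine (hlab' j₀).dep _ _ b b' hb fun i hi => ?_
        rw [hI0] at hi
        exact absurd hi (Finset.notMem_empty _)
      · intro ω hω k
        have h1 := hB' ω hω 0 ⟨le_rfl, zero_le_one⟩ j₀ k
        simp only [mul_zero, zero_mul, add_zero] at h1
        rw [hY]
        exact h1
    have d3 : CH (Pool.Agent.H49.Ent.cond F.p B True) (F.D J)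
        (fun ω => (fl (w₀ + c) (F.x1 (w₀ + c) ω), (F.T1 (w₀ + c) ω, Y ω))) ≤
        Real.log (C₂ * (2 ^ J) ^ m * ∏ j, (η j / (1 / 2 ^ (w₀ + c)))) := by
      rw [hY]
      exact hdir J F _ hlaw w₀ (w₀ + c) P I V z z' G η B (by omega) hwJ'
        (by rw [Nat.add_sub_cancel_left]; exact hc.le) (fun j => (hI j).le) hpB hηJ
        (fun j => (hlab' j).sub hBA) hB'
    -- the numbers
    have e2 : Real.log (2 * (2 ^ (w₀ + c) * (2 * η j₀) + 1) + 1) ≤
        ((w₀ : ℝ) + c) * Real.log 2 + Real.log 7 + Real.log (m + 1) + C₁ * (τ * J + 1) := by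
      have h1 : ((w₀ : ℝ) + c) * Real.log 2 + Real.log 7 + Real.log (m + 1) +
          C₁ * (τ * J + 1) = Real.log (2 ^ (w₀ + c) * 7 * (m + 1) * E) := by
        rw [Real.log_mul (by positivity) (by positivity), Real.log_mul (by positivity)
          (by positivity), Real.log_mul (by positivity) (by positivity), Real.log_pow, hlE]
        push_cast
        ring
      have hη0 : 0 < η j₀ := lt_of_lt_of_le (by positivity) (hηJ j₀)
      rw [h1]
      refine Real.log_le_log (by positivity) ?_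
      have h2 : η j₀ ≤ (m + 1) * E := by
        rw [hη]
        exact div_le_self (by positivity) (one_le_pow₀ (by norm_num))
      have h3 : (1 : ℝ) ≤ 2 ^ (w₀ + c) := one_le_pow₀ (by norm_num)
      have h4 : 1 ≤ (m + 1) * E := by nlinarith only [hE1]
      have h5 := mul_le_mul_of_nonneg_left h2 (by positivity : (0 : ℝ) ≤ 2 ^ (w₀ + c))
      have h6 : 1 ≤ (2 : ℝ) ^ (w₀ + c) * ((m + 1) * E) := by nlinarith only [h4, hw0, hw2, hη0, h3, h2]
      linarith only [h5, h6]
    have e3 : Real.log (C₂ * (2 ^ J) ^ m * ∏ j, (η j / (1 / 2 ^ (w₀ + c)))) =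
        Real.log C₂ + m * (J * Real.log 2) + ∑ j, (Real.log (m + 1) + C₁ * (τ * J + 1) -
          P j * Real.log 2 + ((w₀ : ℝ) + c) * Real.log 2) := by
      have hne : ∀ j ∈ (Finset.univ : Finset (Fin m)), η j / (1 / 2 ^ (w₀ + c)) ≠ 0 := by
        intro j _
        have : 0 < η j := lt_of_lt_of_le (by positivity) (hηJ j)
        positivity
      rw [Real.log_mul (by positivity) (Finset.prod_ne_zero_iff.2 hne), Real.log_mul
        (by positivity) (by positivity), Real.log_pow, Real.log_pow, Real.log_prod hne]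
      congr 1
      refine Finset.sum_congr rfl fun j _ => ?_
      rw [hη]
      simp only
      rw [div_div_eq_mul_div, div_one, Real.log_mul (by positivity) (by positivity),
        Real.log_div (by positivity) (by positivity), Real.log_mul (by positivity)
        (by positivity), Real.log_pow, Real.log_pow, hlE]
      push_cast
      ring
    have e4 : ∑ j, (Real.log (m + 1) + C₁ * (τ * J + 1) - P j * Real.log 2 +
        ((w₀ : ℝ) + c) * Real.log 2) ≤ ∑ j, ((Real.log (m + 1) + C₁ * (τ * J + 1) +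
          Real.log 2 + ((w₀ : ℝ) + c) * Real.log 2 - J * Real.log 2) +
            (1 - s j) * (Real.log 2 * J)) := by
      refine Finset.sum_le_sum fun j _ => ?_
      have h1 := mul_le_mul_of_nonneg_right (hPs j) hl2.le
      linarith only [h1]
    have e4' : ∑ j, ((Real.log (m + 1) + C₁ * (τ * J + 1) +
          Real.log 2 + ((w₀ : ℝ) + c) * Real.log 2 - J * Real.log 2) +
            (1 - s j) * (Real.log 2 * J)) = m * (Real.log (m + 1) + C₁ * (τ * J + 1) +
          Real.log 2 + ((w₀ : ℝ) + c) * Real.log 2 - J * Real.log 2) +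
            (∑ j, (1 - s j)) * (Real.log 2 * J) := by
      rw [Finset.sum_add_distrib, Finset.sum_const, Finset.card_univ, Fintype.card_fin,
        nsmul_eq_mul, ← Finset.sum_mul]
    rw [e4'] at e4
    rw [hY] at c1
    refine c1.trans ?_
    rw [← hY]
    have e5 := mul_le_mul_of_nonneg_left e2 hm0
    have f1 : (m : ℝ) * (w₀ * Real.log 2) ≤ m * (w * J * Real.log 2) :=
      mul_le_mul_of_nonneg_left (mul_le_mul_of_nonneg_right hw₀1 hl2.le) hm0
    have f2 : 2 * m * (C₁ * (τ * J)) ≤ ε * J / 2 := by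
      have h1 := mul_le_mul_of_nonneg_right hτ2 hJ0
      have h2 : 0 ≤ C₁ * (τ * J) := by positivity
      nlinarith only [h1, h2]
    have total : c * Real.log 2 + (m * (((w₀ : ℝ) + c) * Real.log 2 + Real.log 7 +
        Real.log (m + 1) + C₁ * (τ * J + 1)) + (Real.log C₂ + m * (J * Real.log 2) +
        (m * (Real.log (m + 1) + C₁ * (τ * J + 1) +
          Real.log 2 + ((w₀ : ℝ) + c) * Real.log 2 - J * Real.log 2) +
            (∑ j, (1 - s j)) * (Real.log 2 * J)))) ≤
        ((∑ j, (1 - s j)) + 2 * m * w) * Real.log 2 * J + ε * J := by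
      have g1 : c * Real.log 2 + (m * (((w₀ : ℝ) + c) * Real.log 2 + Real.log 7 +
        Real.log (m + 1) + C₁ * (τ * J + 1)) + (Real.log C₂ + m * (J * Real.log 2) +
        (m * (Real.log (m + 1) + C₁ * (τ * J + 1) +
          Real.log 2 + ((w₀ : ℝ) + c) * Real.log 2 - J * Real.log 2) +
            (∑ j, (1 - s j)) * (Real.log 2 * J)))) = Q + 2 * (m * (w₀ * Real.log 2)) +
            2 * m * (C₁ * (τ * J)) + (∑ j, (1 - s j)) * (Real.log 2 * J) := by
        rw [hQ]
        ring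
      rw [g1]
      linarith only [hJd, f1, f2]
    linarith only [hQ, hJd, c2, d1, d2, d3, e3, e4, e5, f1, f2]

end Pool.GEN
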