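import Pool.Agent.H32.KR.N3

/-!
# The directions of the lines with exact nested labels

`k2n_thm`: the labels `z' j` of the coordinates `σ j` over the coordinates before `j`, in the
order `σ`, with the precisions `s j`, and any labels `z₀ k` of all coordinates `k` as functions of
the time only, with precision `2`: the directions have entropy at most
`∑ j, (1 - s j) + 2 m w` given the labels and the window.
-/

set_option autoImplicit false

namespace Pool.GEN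

open Finset Real MvPolynomial
open Pool.Agent.H49.Ent Pool.Agent.H32.Dense Pool.STK Pool.KA Pool.KSAT Pool.K2S Pool.PB Pool.S6C
open Pool.FLF (Fam.sub)

variable {m J : ℕ}

/-- The entropy of the directions given the cell, for nested labels. -/
theorem ch_dirn (m K : ℕ) : ∃ C : ℝ, 1 ≤ C ∧ ∀ (J : ℕ) (F : Fam m J) (p : F.Ω → ℝ), IsLaw p →
    ∀ (w₀ w : ℕ) (σ : Equiv.Perm (Fin m)) (V : Fin m → Type) (z' : ∀ j, LnT F → V j)
    (G : ∀ j, V j → MvPolynomial (Option (Fin m)) ℝ) (η : Fin m → ℝ) (U : Type) (Y : F.Ω → U)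
    (y : U → ∀ j, V j),
    (∀ ω, 0 < p ω → ∀ j, y (Y ω) j = z' j (slam F w₀ ω)) →
    (∀ j, 1 / 2 ^ J ≤ η j) → (∀ j v, (G j v).totalDegree ≤ K) →
    (∀ j v, ∀ b b' : Option (Fin m) → ℝ, b none = b' none →
      (∀ i ∈ bef σ j, b (some i) = b' (some i)) → eval b (G j v) = eval b' (G j v)) →
    (∀ ω, 0 < p ω → ∀ s ∈ Set.Icc (0 : ℝ) 1, ∀ x : Fin m → ℝ,
      (∀ k, |x k - (F.x1 w ω k + 1 / 2 ^ w * s * F.d ω k)| ≤ 2 / 2 ^ J) → ∀ j,
        |x (σ j) - eval (pnt ((F.T1 w ω : ℝ) / 2 ^ w + 1 / 2 ^ w * s) x)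
          (G j (z' j (slam F w₀ ω)))| ≤ η j) →
    CH p (F.D J) (fun ω => (fl w (F.x1 w ω), (F.T1 w ω, Y ω))) ≤
      Real.log (C * (2 ^ J) ^ m * ∏ j, (η j / (1 / 2 ^ w))) := by
  classical
  obtain ⟨C, hC, hcnt⟩ := cnt_nst m K
  refine ⟨C, hC, ?_⟩
  intro J F p hp w₀ w σ V z' G η U Y y hy hη hdeg hdep hdev
  obtain ⟨x, hx⟩ : ∃ x : ℝ, x = C * (2 ^ J) ^ m * ∏ j, (η j / (1 / 2 ^ w)) := ⟨_, rfl⟩
  have hJ : (0 : ℝ) < 2 ^ J := by positivity
  have hw1 : (1 : ℝ) ≤ 2 ^ w := one_le_pow₀ (by norm_num)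
  have hη0 : ∀ j, 0 < η j := fun j => lt_of_lt_of_le (by positivity) (hη j)
  have hx1 : 1 ≤ x := by
    have h1 : (2 ^ J : ℝ) ^ m * ∏ j, (η j / (1 / 2 ^ w)) =
        ∏ j, (2 ^ J * (η j / (1 / 2 ^ w))) := by
      rw [Finset.prod_mul_distrib, Finset.prod_const, Finset.card_univ, Fintype.card_fin]
    have h2 : 1 ≤ ∏ j, (2 ^ J * (η j / (1 / 2 ^ w))) := by
      refine le_trans (le_of_eq (Finset.prod_const_one (s := (Finset.univ : Finset (Fin m)))).symm)
        (Finset.prod_le_prod (fun _ _ => zero_le_one) fun j _ => ?_)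
      have h3 := hη j
      rw [div_le_iff₀ hJ] at h3
      rw [div_div_eq_mul_div, div_one]
      have h4 : 0 < η j := hη0 j
      nlinarith only [mul_pos hJ h4, h3, hw1]
    rw [hx, mul_assoc, h1]
    nlinarith only [hC, h2]
  rw [← hx]
  have hn : Real.log (⌊x⌋₊ : ℝ) ≤ Real.log x := by
    have h1 : 1 ≤ ⌊x⌋₊ := Nat.le_floor (by exact_mod_cast hx1)
    refine Real.log_le_log (by exact_mod_cast h1) (Nat.floor_le (by linarith only [hx1]))
  refine le_trans (Pool.OC.ch_le_log_card' hp _ _ ⌊x⌋₊ fun yy => ?_) hn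
  by_cases hyy : ∃ ω, 0 < p ω ∧ (fl w (F.x1 w ω), (F.T1 w ω, Y ω)) = yy
  · obtain ⟨ω₀, hω₀, hy₀⟩ := hyy
    obtain ⟨ρ, hρe⟩ : ∃ ρ : ℝ, ρ = 1 / 2 ^ w := ⟨_, rfl⟩
    have hρ : 0 < ρ := by rw [hρe]; positivity
    have hρ1 : ρ ≤ 1 := by
      rw [hρe, div_le_one (by positivity)]
      exact hw1
    obtain ⟨a, ha⟩ : ∃ a : Fin m → ℝ, a = fun k => (fl w (F.x1 w ω₀) k : ℝ) * ρ := ⟨_, rfl⟩
    have hxa : ∀ ω, fl w (F.x1 w ω) = fl w (F.x1 w ω₀) → ∀ k, |F.x1 w ω k - a k| ≤ ρ := by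
      intro ω he k
      have e1 : (fl w (F.x1 w ω₀) k : ℝ) = (⌊2 ^ w * F.x1 w ω k⌋ : ℤ) := by
        rw [← he]; rfl
      have a1 := Int.floor_le (2 ^ w * F.x1 w ω k)
      have a2 := Int.lt_floor_add_one (2 ^ w * F.x1 w ω k)
      have e2 : F.x1 w ω k = (2 ^ w * F.x1 w ω k) * ρ := by
        rw [hρe]
        field_simp
      have e3 : F.x1 w ω k - a k = (2 ^ w * F.x1 w ω k - (⌊2 ^ w * F.x1 w ω k⌋ : ℤ)) * ρ := by
        rw [ha]
        simp only
        rw [e1, sub_mul, ← e2]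
      rw [e3, abs_mul, abs_of_pos hρ]
      have h1 : |2 ^ w * F.x1 w ω k - (⌊2 ^ w * F.x1 w ω k⌋ : ℤ)| ≤ 1 := by
        rw [abs_le]
        constructor <;> linarith only [a1, a2]
      calc _ ≤ 1 * ρ := mul_le_mul_of_nonneg_right h1 hρ.le
        _ = ρ := one_mul ρ
    obtain ⟨τ₀, hτ₀⟩ : ∃ τ₀ : ℝ, τ₀ = (F.T1 w ω₀ : ℝ) / 2 ^ w := ⟨_, rfl⟩
    -- the set of directions
    obtain ⟨𝓓, h𝓓⟩ : ∃ 𝓓 : Finset (Fin m → ℤ), 𝓓 = (Finset.univ.filter fun ω => 0 < p ω ∧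
      (fl w (F.x1 w ω), (F.T1 w ω, Y ω)) = yy).image (F.D J) := ⟨_, rfl⟩
    have hkey := hcnt J ρ τ₀ a σ η (fun j => G j (z' j (slam F w₀ ω₀))) hρ hρ1 hη0
      (fun j => hdeg _ _) (fun j b b' h1 h2 => hdep _ _ b b' h1 fun i hi => by
        have h3 := h2 (σ.symm i) (mem_bef.1 hi)
        rw [Equiv.apply_symm_apply] at h3
        exact h3) 𝓓 (by
        intro v hv
        rw [h𝓓, Finset.mem_image] at hv
        obtain ⟨ω, hω, hv⟩ := hv
        obtain ⟨hω1, hω2⟩ := (Finset.mem_filter.1 hω).2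
        rw [← hy₀] at hω2
        have e1 := (Prod.ext_iff.1 hω2).1
        have e2 := (Prod.ext_iff.1 (Prod.ext_iff.1 hω2).2).1
        have e3 : Y ω = Y ω₀ := (Prod.ext_iff.1 (Prod.ext_iff.1 hω2).2).2
        refine ⟨F.x1 w ω, F.d ω, hxa ω e1, F.dir ω, fun k => by rw [← hv]; rfl, ?_⟩
        intro s hs x hx j
        rw [hρe] at hx
        have h1 := hdev ω hω1 s hs x hx j
        have e4 : z' j (slam F w₀ ω) = z' j (slam F w₀ ω₀) := by
          rw [← hy ω hω1 j, ← hy ω₀ hω₀ j, e3]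
        have e5 : F.T1 w ω = F.T1 w ω₀ := e2
        rw [e4, e5, ← hτ₀, ← hρe] at h1
        exact h1)
    refine ⟨𝓓, Nat.le_floor ?_, ?_⟩
    · rw [hx, ← hρe]
      exact hkey
    · intro ω hω hY
      rw [h𝓓]
      exact Finset.mem_image_of_mem _ (Finset.mem_filter.2 ⟨Finset.mem_univ _, hω, hY⟩)
  · refine ⟨∅, by simp, ?_⟩
    intro ω hω hY
    exact absurd ⟨ω, hω, hY⟩ hyy

/-- **(K2N)** The directions, for nested labels of one coordinate each. -/
def K2NStmt (m : ℕ) : Prop :=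
  ∀ (K : ℕ) (w ε : ℝ), 0 < w → w ≤ 1 → 0 < ε → ∃ τ : ℝ, 0 < τ ∧ ∃ J₁ : ℕ, ∀ J ≥ J₁,
    ∀ (F : Fam m J) (A : F.Ω → Prop) (hA : 0 < Pe F.p A) (s : Fin m → ℝ)
    (σ : Equiv.Perm (Fin m)) (e : ℕ) (r ρ : Fin m → ℕ) (V V₀ : Fin m → Type)
    (z : ∀ j, PtT F → V j) (z' : ∀ j, LnT F → V j) (z₀ : ∀ j, LnT F → V₀ j)
    (G : ∀ j, V j → MvPolynomial (Option (Fin m)) ℝ)
    (G₀ : ∀ j, V₀ j → MvPolynomial (Option (Fin m)) ℝ),
    (Fam.sub F A hA).Tm (τ * J) → (∀ j, 0 ≤ s j ∧ s j ≤ 1) → (e : ℝ) ≤ τ * J → (∀ j, ρ j ≤ J) →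
    (∀ j, LbOK F (bef σ j) (σ j) K e (r j) ⌊w * J⌋₊ (ρ j) ⌊s j * J⌋₊ A (z j) (z' j) (G j)) →
    (∀ k v, (G₀ k v).totalDegree ≤ K) →
    (∀ k v, ∀ b b' : Option (Fin m) → ℝ, b none = b' none → eval b (G₀ k v) = eval b' (G₀ k v)) →
    (∀ k ω, A ω → |F.x ω k - eval (bt F ω) (G₀ k (z₀ k (slam F ⌊w * J⌋₊ ω)))| ≤ 2) →
    ∃ B : F.Ω → Prop, Sub B A ∧ Real.exp (-(ε * J)) * Pe F.p A ≤ Pe F.p B ∧
      CH (Pool.Agent.H49.Ent.cond F.p B True) (F.D J)
        (fun ω => ((fun j => z' j (slam F ⌊w * J⌋₊ ω)), (fun k => z₀ k (slam F ⌊w * J⌋₊ ω)),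
          F.T1 ⌊w * J⌋₊ ω, F.Z ω)) ≤
        ((∑ j, (1 - s j)) + 2 * m * w) * Real.log 2 * J + ε * J

/-- **(K2N)** -/
theorem k2n_thm (m : ℕ) : K2NStmt m := by
  classical
  intro K w ε hw0 hw1 hε
  obtain ⟨C₁, hC₁, hrem⟩ := rem_nst m K
  obtain ⟨C₂, hC₂, hdir⟩ := ch_dirn m K
  have hm0 : (0 : ℝ) ≤ m := Nat.cast_nonneg m
  have hm1 : (0 : ℝ) < (m : ℝ) + 1 := by positivity
  have hC₁0 : 0 < C₁ := by linarith only [hC₁]
  have hl2 : 0 < Real.log 2 := Real.log_pos one_lt_two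
  have hl7 : 0 < Real.log 7 := Real.log_pos (by norm_num)
  have hlC₁ : 0 ≤ Real.log C₁ := Real.log_nonneg hC₁
  have hlC : 0 ≤ Real.log C₂ := Real.log_nonneg hC₂
  obtain ⟨Q, hQ⟩ : ∃ Q : ℝ, Q = m * Real.log 7 +
    2 * m * Real.log C₁ + 2 * m * C₁ + Real.log C₂ + m * Real.log 2 := ⟨_, rfl⟩
  have hQ0 : 0 ≤ Q := by rw [hQ]; positivity
  obtain ⟨τ, hτ⟩ : ∃ τ : ℝ, τ = min (Real.log 2 / (8 * C₁))
    (ε / (4 * (m + 1) * (C₁ + Real.log 2))) := ⟨_, rfl⟩
  have hτ0 : 0 < τ := by rw [hτ]; exact lt_min (by positivity) (by positivity)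
  have hτ1 : τ * (8 * C₁) ≤ Real.log 2 := by
    rw [← le_div_iff₀ (by positivity), hτ]
    exact min_le_left _ _
  have hτ2 : τ * (4 * (m + 1) * (C₁ + Real.log 2)) ≤ ε := by
    rw [← le_div_iff₀ (by positivity), hτ]
    exact min_le_right _ _
  refine ⟨τ, hτ0, ⌈8 * C₁ / Real.log 2 + Real.log 2 / ε + 2 * Q / ε⌉₊, ?_⟩
  intro J hJ F A hA s σ e r ρ V V₀ z z' z₀ G G₀ hTm hs he hρ hlab hdeg₀ hdep₀ hpos₀
  have hJ1 : 8 * C₁ / Real.log 2 + Real.log 2 / ε + 2 * Q / ε ≤ (J : ℝ) :=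
    (Nat.le_ceil _).trans (by exact_mod_cast hJ)
  have p1 : 0 ≤ 8 * C₁ / Real.log 2 := by positivity
  have p2 : 0 ≤ Real.log 2 / ε := by positivity
  have p3 : 0 ≤ 2 * Q / ε := by positivity
  have hJb : 8 * C₁ ≤ J * Real.log 2 := by
    rw [← div_le_iff₀ hl2]; linarith only [hJ1, p2, p3]
  have hJc : Real.log 2 ≤ J * ε := by
    rw [← div_le_iff₀ hε]; linarith only [hJ1, p1, p3]
  have hJd : 2 * Q ≤ J * ε := by
    rw [← div_le_iff₀ hε]; linarith only [hJ1, p1, p2]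
  have hJ0 : (0 : ℝ) ≤ J := Nat.cast_nonneg J
  have hsum : 0 ≤ ∑ j, (1 - s j) := Finset.sum_nonneg fun j _ => by linarith only [(hs j).2]
  rcases le_or_gt (1 / 2) w with hw2 | hw2
  · -- the trivial bound
    refine ⟨A, fun _ h => h, ?_, ?_⟩
    · have h1 : Real.exp (-(ε * J)) ≤ 1 := by
        rw [Real.exp_le_one_iff]
        have := mul_nonneg hε.le hJ0
        linarith only [this]
      calc _ ≤ 1 * Pe F.p A := mul_le_mul_of_nonneg_right h1 hA.le
        _ = _ := one_mul _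
    · refine (ch_dir_triv F (isLaw_cond F.isLaw hA) _).trans ?_
      have h1 : (m : ℝ) * Real.log 7 ≤ ε * J := by
        have h2 : (m : ℝ) * Real.log 7 ≤ Q := by
          rw [hQ]
          have a3 : 0 ≤ 2 * m * Real.log C₁ := by positivity
          have a4 : 0 ≤ 2 * m * C₁ := by positivity
          have a5 : 0 ≤ m * Real.log 2 := by positivity
          linarith only [a3, a4, a5, hlC]
        linarith only [h2, hJd, hQ0]
      have h3 : (m : ℝ) * (J * Real.log 2) ≤ ((∑ j, (1 - s j)) + 2 * m * w) * Real.log 2 * J := by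
        have h4 : (m : ℝ) ≤ (∑ j, (1 - s j)) + 2 * m * w := by nlinarith only [hsum, hm0, hw2]
        have h5 := mul_le_mul_of_nonneg_right h4 (mul_nonneg hl2.le hJ0)
        linarith only [h5]
      linarith only [h1, h3]
  · obtain ⟨w₀, hw₀⟩ : ∃ w₀ : ℕ, w₀ = ⌊w * J⌋₊ := ⟨_, rfl⟩
    have hw₀1 : (w₀ : ℝ) ≤ w * J := by rw [hw₀]; exact Nat.floor_le (by positivity)
    have hw₀2 : (w₀ : ℝ) ≤ J / 2 := by nlinarith only [hw₀1, hw2, hJ0]
    have hwJ' : w₀ ≤ J := by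
      have : (w₀ : ℝ) ≤ J := by linarith only [hw₀2, hJ0]
      exact_mod_cast this
    rw [← hw₀] at hpos₀ ⊢
    obtain ⟨P, hP⟩ : ∃ P : Fin m → ℕ, P = fun j => ⌊s j * J⌋₊ := ⟨_, rfl⟩
    have hlab' : ∀ j, LbOK F (bef σ j) (σ j) K e (r j) w₀ (ρ j) (P j) A (z j) (z' j) (G j) := by
      intro j
      rw [hP, hw₀]
      exact hlab j
    have hPJ : ∀ j, P j ≤ J := by
      intro j
      rw [hP]
      refine Nat.floor_le_of_le ?_
      have := (hs j).2
      nlinarith only [this, hJ0]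
    have hPs : ∀ j, s j * J - 1 ≤ P j := by
      intro j
      rw [hP]
      exact (Nat.sub_one_lt_floor _).le
    have hθ0 : 0 ≤ τ * J := by positivity
    obtain ⟨B, hBA, hPB, hB⟩ := hrem J F A hA w₀ w₀ e P σ V V₀ z' z₀ G G₀ (τ * J) le_rfl hwJ'
      hθ0 hTm (by
        have h1 : C₁ * (τ * J) ≤ J * Real.log 2 / 8 := by
          have := mul_le_mul_of_nonneg_right hτ1 hJ0
          linarith only [this]
        have h2 : (J : ℝ) / 2 * Real.log 2 ≤ ((J : ℝ) - (w₀ : ℝ)) * Real.log 2 := by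
          refine mul_le_mul_of_nonneg_right ?_ hl2.le
          linarith only [hw₀2]
        linarith only [h1, h2, hJb, hJ0, mul_nonneg hJ0 hl2.le]) hPJ
      (fun j => (hlab' j).deg) hdeg₀ (fun j => (hlab' j).pos) (fun j ω hω => hpos₀ j ω hω)
      (fun j ω hω b hb k => (hlab' j).lip ω hω b (fun o => (hb o).trans (inv_mono (hρ j))) k)
    have hPB0 : 0 < Pe F.p B := by linarith only [hPB, hA]
    have hlaw := isLaw_cond F.isLaw hPB0
    have hpB : ∀ ω, 0 < Pool.Agent.H49.Ent.cond F.p B True ω → B ω := by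
      intro ω hω
      have := ((cond_pos_iff F.isLaw.nonneg B True ω).1 hω).2
      exact of_eq_true this
    obtain ⟨E, hE⟩ : ∃ E : ℝ, E = Real.exp (C₁ * (τ * J + 1)) := ⟨_, rfl⟩
    have hE1 : 1 ≤ E := by
      rw [hE, Real.one_le_exp_iff]
      positivity
    have hlE : Real.log E = C₁ * (τ * J + 1) := by rw [hE, Real.log_exp]
    obtain ⟨η, hη⟩ : ∃ η : Fin m → ℝ, η = fun j => C₁ * E * 2 ^ e / 2 ^ P j := ⟨_, rfl⟩
    have h2e : (1 : ℝ) ≤ 2 ^ e := one_le_pow₀ (by norm_num)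
    have hηJ : ∀ j, 1 / 2 ^ J ≤ η j := by
      intro j
      rw [hη]
      simp only
      have h1 : (1 : ℝ) / 2 ^ J ≤ 1 / 2 ^ P j := inv_mono (hPJ j)
      refine h1.trans (div_le_div_of_nonneg_right ?_ (by positivity))
      have h2 : 1 ≤ C₁ * E := by nlinarith only [hC₁, hE1]
      nlinarith only [h2, h2e]
    refine ⟨B, hBA, ?_, ?_⟩
    · have h1 : Real.exp (-(ε * J)) ≤ 1 / 2 := by
        have h2 : Real.exp (-(ε * J)) ≤ Real.exp (-Real.log 2) :=
          Real.exp_le_exp.2 (by linarith only [hJc])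
        have h3 : Real.exp (-Real.log 2) = 1 / 2 := by
          rw [Real.exp_neg, Real.exp_log (by norm_num)]
          norm_num
        exact h2.trans h3.le
      have := mul_le_mul_of_nonneg_right h1 hA.le
      linarith only [this, hPB]
    -- the chain rule
    obtain ⟨Y, hY⟩ : ∃ Y : F.Ω → ((∀ j, V j) × (∀ j, V₀ j) × ℕ × F.ζ),
      Y = fun ω => ((fun j => z' j (slam F w₀ ω)), (fun k => z₀ k (slam F w₀ ω)),
        F.T1 w₀ ω, F.Z ω) := ⟨_, rfl⟩
    have c1 := CH_le_add hlaw.nonneg (F.D J) (fun ω => fl w₀ (F.x1 w₀ ω)) Y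
    have hB' : ∀ ω, 0 < Pool.Agent.H49.Ent.cond F.p B True ω → ∀ s ∈ Set.Icc (0 : ℝ) 1,
        ∀ x : Fin m → ℝ, (∀ k, |x k - (F.x1 w₀ ω k + 1 / 2 ^ w₀ * s * F.d ω k)| ≤ 2 / 2 ^ J) →
        ∀ j, |x (σ j) - eval (pnt ((F.T1 w₀ ω : ℝ) / 2 ^ w₀ + 1 / 2 ^ w₀ * s) x)
          (G j (z' j (slam F w₀ ω)))| ≤ η j := by
      intro ω hω s hs x hx j
      have h1 := (hB ω (hpB ω hω) s hs).2 x hx j
      rw [← hE] at h1
      rw [hη]
      exact h1
    -- the position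
    have d2 : CH (Pool.Agent.H49.Ent.cond F.p B True) (fun ω => fl w₀ (F.x1 w₀ ω)) Y ≤
        m * Real.log (2 * (2 ^ w₀ * (2 * (C₁ * E)) + 1) + 1) := by
      have h1 := ch_cell F hlaw w₀ Y (fun y k => G₀ k (y.2.1 k)) (C₁ * E) (by
        intro y k b b' hb
        exact hdep₀ _ _ b b' hb) (by
        intro ω hω k
        have h1 := (hB ω (hpB ω hω) 0 ⟨le_rfl, zero_le_one⟩).1 k
        simp only [mul_zero, zero_mul, add_zero] at h1
        rw [← hE] at h1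
        rw [hY]
        exact h1)
      refine le_trans (le_of_eq ?_) h1
      refine CH_congr hlaw.nonneg (fun _ _ _ _ h => (Prod.ext_iff.1 h).1)
        (fun _ _ _ _ h => (Prod.ext_iff.1 h).1) ?_ ?_
      · intro ω ω' _ _ h
        have h3 : F.T1 w₀ ω = F.T1 w₀ ω' := by
          rw [hY] at h
          exact (Prod.ext_iff.1 (Prod.ext_iff.1 (Prod.ext_iff.1 h).2).2).1
        exact Prod.ext h3 h
      · intro ω ω' _ _ h
        exact (Prod.ext_iff.1 h).2
    have d3 : CH (Pool.Agent.H49.Ent.cond F.p B True) (F.D J)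
        (fun ω => (fl w₀ (F.x1 w₀ ω), Y ω)) ≤
        Real.log (C₂ * (2 ^ J) ^ m * ∏ j, (η j / (1 / 2 ^ w₀))) := by
      have h1 := hdir J F _ hlaw w₀ w₀ σ V z' G η _ Y (fun y => y.1)
        (fun ω _ j => by rw [hY]) hηJ (fun j => (hlab' j).deg)
        (fun j v b b' hb hb' => (hlab' j).dep v b b' hb hb') hB'
      refine le_trans (le_of_eq ?_) h1
      refine CH_congr hlaw.nonneg (fun _ _ _ _ h => (Prod.ext_iff.1 h).1)
        (fun _ _ _ _ h => (Prod.ext_iff.1 h).1) ?_ ?_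
      · intro ω ω' _ _ h
        have h2 := (Prod.ext_iff.1 h).1
        have h4 := (Prod.ext_iff.1 h).2
        have h3 : F.T1 w₀ ω = F.T1 w₀ ω' := by
          simp only [hY] at h4
          exact (Prod.ext_iff.1 (Prod.ext_iff.1 (Prod.ext_iff.1 h4).2).2).1
        exact Prod.ext h2 (Prod.ext h3 h4)
      · intro ω ω' _ _ h
        exact Prod.ext (Prod.ext_iff.1 h).1 (Prod.ext_iff.1 (Prod.ext_iff.1 h).2).2
    -- the numbers
    have e2 : Real.log (2 * (2 ^ w₀ * (2 * (C₁ * E)) + 1) + 1) ≤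
        (w₀ : ℝ) * Real.log 2 + Real.log 7 + Real.log C₁ + C₁ * (τ * J + 1) := by
      have h1 : (w₀ : ℝ) * Real.log 2 + Real.log 7 + Real.log C₁ +
          C₁ * (τ * J + 1) = Real.log (2 ^ w₀ * 7 * C₁ * E) := by
        rw [Real.log_mul (by positivity) (by positivity), Real.log_mul (by positivity)
          (by positivity), Real.log_mul (by positivity) (by positivity), Real.log_pow, hlE]
      rw [h1]
      refine Real.log_le_log (by positivity) ?_
      have h3 : (1 : ℝ) ≤ 2 ^ w₀ := one_le_pow₀ (by norm_num)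
      have h4 : 1 ≤ C₁ * E := by nlinarith only [hC₁, hE1]
      have h6 : 1 ≤ (2 : ℝ) ^ w₀ * (C₁ * E) := by nlinarith only [h3, h4]
      linarith only [h6]
    have e3 : Real.log (C₂ * (2 ^ J) ^ m * ∏ j, (η j / (1 / 2 ^ w₀))) =
        Real.log C₂ + m * (J * Real.log 2) + ∑ j, (Real.log C₁ + C₁ * (τ * J + 1) +
          e * Real.log 2 - P j * Real.log 2 + (w₀ : ℝ) * Real.log 2) := by
      have hne : ∀ j ∈ (Finset.univ : Finset (Fin m)), η j / (1 / 2 ^ w₀) ≠ 0 := by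
        intro j _
        have : 0 < η j := lt_of_lt_of_le (by positivity) (hηJ j)
        positivity
      rw [Real.log_mul (by positivity) (Finset.prod_ne_zero_iff.2 hne), Real.log_mul
        (by positivity) (by positivity), Real.log_pow, Real.log_pow, Real.log_prod hne]
      congr 1
      refine Finset.sum_congr rfl fun j _ => ?_
      rw [hη]
      simp only
      rw [div_div_eq_mul_div, div_one, Real.log_mul (by positivity) (by positivity),
        Real.log_div (by positivity) (by positivity), Real.log_mul (by positivity)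
        (by positivity), Real.log_mul (by positivity) (by positivity), Real.log_pow,
        Real.log_pow, Real.log_pow, hlE]
    have e4 : ∑ j, (Real.log C₁ + C₁ * (τ * J + 1) + e * Real.log 2 - P j * Real.log 2 +
        (w₀ : ℝ) * Real.log 2) ≤ ∑ j, ((Real.log C₁ + C₁ * (τ * J + 1) + e * Real.log 2 +
          Real.log 2 + (w₀ : ℝ) * Real.log 2 - J * Real.log 2) +
            (1 - s j) * (Real.log 2 * J)) := by
      refine Finset.sum_le_sum fun j _ => ?_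
      have h1 := mul_le_mul_of_nonneg_right (hPs j) hl2.le
      linarith only [h1]
    have e4' : ∑ j, ((Real.log C₁ + C₁ * (τ * J + 1) + e * Real.log 2 +
          Real.log 2 + (w₀ : ℝ) * Real.log 2 - J * Real.log 2) +
            (1 - s j) * (Real.log 2 * J)) = m * (Real.log C₁ + C₁ * (τ * J + 1) +
          e * Real.log 2 + Real.log 2 + (w₀ : ℝ) * Real.log 2 - J * Real.log 2) +
            (∑ j, (1 - s j)) * (Real.log 2 * J) := by
      rw [Finset.sum_add_distrib, Finset.sum_const, Finset.card_univ, Fintype.card_fin,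
        nsmul_eq_mul, ← Finset.sum_mul]
    rw [e4'] at e4
    rw [hY] at c1
    refine c1.trans ?_
    rw [← hY]
    have e5 := mul_le_mul_of_nonneg_left e2 hm0
    have f1 : (m : ℝ) * (w₀ * Real.log 2) ≤ m * (w * J * Real.log 2) :=
      mul_le_mul_of_nonneg_left (mul_le_mul_of_nonneg_right hw₀1 hl2.le) hm0
    have f2 : 2 * m * (C₁ * (τ * J)) + m * (e * Real.log 2) ≤ ε * J / 2 := by
      have h1 := mul_le_mul_of_nonneg_right hτ2 hJ0
      have h2 : 0 ≤ C₁ * (τ * J) := by positivity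
      have h3 : (e : ℝ) * Real.log 2 ≤ τ * J * Real.log 2 := mul_le_mul_of_nonneg_right he hl2.le
      have h4 : 0 ≤ τ * J * Real.log 2 := by positivity
      have h5 : (m : ℝ) * (e * Real.log 2) ≤ m * (τ * J * Real.log 2) :=
        mul_le_mul_of_nonneg_left h3 hm0
      have h6 : (4 * m * (C₁ * (τ * J)) + 4 * m * (τ * J * Real.log 2)) ≤ ε * J := by
        have e6 : τ * (4 * (m + 1) * (C₁ + Real.log 2)) * J = (4 * m * (C₁ * (τ * J)) +
          4 * m * (τ * J * Real.log 2)) + 4 * (C₁ * (τ * J)) + 4 * (τ * J * Real.log 2) := by ring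
        linarith only [h1, e6, h2, h4]
      have h7 : 0 ≤ (m : ℝ) * (τ * J * Real.log 2) := mul_nonneg hm0 h4
      linarith only [h5, h6, h7]
    have total : (m * ((w₀ : ℝ) * Real.log 2 + Real.log 7 +
        Real.log C₁ + C₁ * (τ * J + 1)) + (Real.log C₂ + m * (J * Real.log 2) +
        (m * (Real.log C₁ + C₁ * (τ * J + 1) + e * Real.log 2 +
          Real.log 2 + (w₀ : ℝ) * Real.log 2 - J * Real.log 2) +
            (∑ j, (1 - s j)) * (Real.log 2 * J)))) ≤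
        ((∑ j, (1 - s j)) + 2 * m * w) * Real.log 2 * J + ε * J := by
      have g1 : (m * ((w₀ : ℝ) * Real.log 2 + Real.log 7 +
        Real.log C₁ + C₁ * (τ * J + 1)) + (Real.log C₂ + m * (J * Real.log 2) +
        (m * (Real.log C₁ + C₁ * (τ * J + 1) + e * Real.log 2 +
          Real.log 2 + (w₀ : ℝ) * Real.log 2 - J * Real.log 2) +
            (∑ j, (1 - s j)) * (Real.log 2 * J)))) = Q + 2 * (m * (w₀ * Real.log 2)) +
            (2 * m * (C₁ * (τ * J)) + m * (e * Real.log 2)) +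
            (∑ j, (1 - s j)) * (Real.log 2 * J) := by
        rw [hQ]
        ring
      rw [g1]
      linarith only [f1, f2, hJd]
    linarith only [total, e3, e4, e5, d2, d3]

end Pool.GEN
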