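import Pool.Agent.H71.GEN.Stm
import Pool.Agent.H71.GEN.Vel
import Pool.Agent.H32.KR.Cnt
import Pool.Agent.H87.OC.Cost

/-!
# The lines stay close to the leaves of all labels during a window
-/

set_option autoImplicit false

namespace Pool.GEN

open Finset Real MvPolynomial
open Pool.Agent.H49.Ent Pool.Agent.H32.Dense Pool.STK Pool.KA Pool.KSAT Pool.K2S Pool.PB Pool.S6C
open Pool.FLF (Fam.sub)
open Pool.PB.Trl (rt rt_mem t_rt)

variable {m J : ℕ}

theorem eval_lc_gen (F : Fam m J) (w : ℕ) (ω : F.Ω) (s : ℝ) (o : Option (Fin m)) :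
    (lc w (slam F w ω) o).eval s = pnt ((F.T1 w ω : ℝ) / 2 ^ w + 1 / 2 ^ w * s)
      (fun k => F.x1 w ω k + 1 / 2 ^ w * s * F.d ω k) o := by
  cases o with
  | none =>
    simp only [lc, pnt, Polynomial.eval_add, Polynomial.eval_mul, Polynomial.eval_C,
      Polynomial.eval_X]
    rfl
  | some k =>
    simp only [lc, pnt, Polynomial.eval_add, Polynomial.eval_mul, Polynomial.eval_C,
      Polynomial.eval_X]
    unfold Fam.x1
    have e1 : (slam F w ω).1.1 k = F.u ω k := rfl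
    have e2 : (slam F w ω).1.2 k = F.d ω k := rfl
    have e3 : (slam F w ω).2.2 = F.T1 w ω := rfl
    rw [e1, e2, e3]
    ring

/-- **All the deviations are small during the window.** -/
theorem rem_all (m K : ℕ) : ∃ C : ℝ, 1 ≤ C ∧ ∀ (J : ℕ) (F : Fam m J) (A : F.Ω → Prop)
    (hA : 0 < Pe F.p A) (w₀ w : ℕ) (P : Fin m → ℕ) (I : Fin m → Finset (Fin m))
    (V : Fin m → Type) (z : ∀ j, PtT F → V j) (z' : ∀ j, LnT F → V j)
    (G : ∀ j, V j → Fin m → MvPolynomial (Option (Fin m)) ℝ) (θ : ℝ), w₀ ≤ w → w ≤ J → 0 ≤ θ →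
    (Fam.sub F A hA).Tm θ → C * (θ + 1) ≤ ((J : ℝ) - w) * Real.log 2 →
    (∀ j, LabOK F (I j) K J w₀ (P j) A (z j) (z' j) (G j)) →
    ∃ B : F.Ω → Prop, Sub B A ∧ Pe F.p A / 2 ≤ Pe F.p B ∧ ∀ ω, B ω → ∀ s ∈ Set.Icc (0 : ℝ) 1,
      ∀ j k, |F.x1 w ω k + 1 / 2 ^ w * s * F.d ω k -
        eval (pnt ((F.T1 w ω : ℝ) / 2 ^ w + 1 / 2 ^ w * s)
          fun k => F.x1 w ω k + 1 / 2 ^ w * s * F.d ω k) (G j (z' j (slam F w₀ ω)) k)| ≤
        (m + 1) * Real.exp (C * (θ + 1)) / 2 ^ P j := by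
  classical
  obtain ⟨C, hC, hrem⟩ := Pool.PZ.Zrt.rem_ev (m := m) (2 * (K + 1))
  refine ⟨C, hC, ?_⟩
  intro J F A hA w₀ w P I V z z' G θ hw₀ hw hθ hTm hJ hlab
  obtain ⟨G', hG'⟩ : ∃ G' : Fin m → LnT F → Fin m → MvPolynomial (Option (Fin m)) ℝ,
    G' = fun j s => G j (z' j (s.1, s.2.1, s.2.2 / 2 ^ (w - w₀))) := ⟨_, rfl⟩
  have hGe : ∀ j ω, G' j (slam F w ω) = G j (z' j (slam F w₀ ω)) := by
    intro j ω
    rw [hG']
    simp only
    rw [← slam_coarse F hw₀ hw ω]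
  have hGd : ∀ j s k, (G' j s k).totalDegree ≤ K := by
    intro j s k
    rw [hG']
    exact (hlab j).deg _ _
  obtain ⟨q, hq⟩ : ∃ q : LnT F → Polynomial ℝ,
    q = fun s => ∑ j, ∑ k, (Polynomial.C (2 ^ P j) * dv w (G' j) k s) ^ 2 := ⟨_, rfl⟩
  have hqd : ∀ s, (q s).natDegree ≤ 2 * (K + 1) := by
    intro s
    rw [hq]
    refine Polynomial.natDegree_sum_le_of_forall_le _ _ fun j _ => ?_
    refine Polynomial.natDegree_sum_le_of_forall_le _ _ fun k _ => ?_
    refine (Polynomial.natDegree_pow_le).trans ?_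
    refine Nat.mul_le_mul_left 2 ?_
    exact (Polynomial.natDegree_C_mul_le _ _).trans (natDegree_dv w (hGd j) k s)
  have hqe : ∀ s t, (q s).eval t = ∑ j, ∑ k, (2 ^ P j * (dv w (G' j) k s).eval t) ^ 2 := by
    intro s t
    rw [hq]
    simp only [Polynomial.eval_finsetSum, Polynomial.eval_pow, Polynomial.eval_mul,
      Polynomial.eval_C]
  have hm0 : (0 : ℝ) ≤ m := Nat.cast_nonneg m
  obtain ⟨B, hBA, hPB, hB⟩ := hrem J F A hA w q (((m : ℝ) + 1) ^ 2) θ hw hqd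
    (by positivity) hθ hTm hJ (by
      intro ω hω
      rw [hqe]
      have h1 : ∀ j ∈ (Finset.univ : Finset (Fin m)), ∑ k, (2 ^ P j *
          (dv w (G' j) k (slam F w ω)).eval (rt F w ω)) ^ 2 ≤ (m : ℝ) := by
        intro j _
        have h2 : ∀ k ∈ (Finset.univ : Finset (Fin m)), (2 ^ P j *
            (dv w (G' j) k (slam F w ω)).eval (rt F w ω)) ^ 2 ≤ 1 := by
          intro k _
          rw [eval_dv F hw, hGe]
          have h3 := (hlab j).pos ω hω k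
          rw [le_div_iff₀ (by positivity)] at h3
          have h4 : |2 ^ P j * (F.x ω k - eval (bt F ω) (G j (z' j (slam F w₀ ω)) k))| ≤ 1 := by
            rw [abs_mul, abs_of_pos (by positivity : (0 : ℝ) < 2 ^ P j), mul_comm]
            exact h3
          rw [← sq_abs]
          have h5 := abs_nonneg (2 ^ P j * (F.x ω k - eval (bt F ω) (G j (z' j (slam F w₀ ω)) k)))
          nlinarith
        refine (Finset.sum_le_sum h2).trans (le_of_eq ?_)
        rw [Finset.sum_const, Finset.card_univ, Fintype.card_fin, nsmul_eq_mul, mul_one]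
      have h2 := Finset.sum_le_sum h1
      rw [Finset.sum_const, Finset.card_univ, Fintype.card_fin, nsmul_eq_mul] at h2
      have h3 : 0 ≤ ∑ j, ∑ k, (2 ^ P j * (dv w (G' j) k (slam F w ω)).eval (rt F w ω)) ^ 2 :=
        Finset.sum_nonneg fun j _ => Finset.sum_nonneg fun k _ => sq_nonneg _
      rw [abs_of_nonneg h3]
      nlinarith)
  refine ⟨B, hBA, hPB, fun ω hω s hs j k => ?_⟩
  obtain ⟨E, hE⟩ : ∃ E : ℝ, E = Real.exp (C * (θ + 1)) := ⟨_, rfl⟩
  have hE1 : 1 ≤ E := by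
    rw [hE, Real.one_le_exp_iff]
    have : 0 ≤ θ + 1 := by linarith
    nlinarith
  have h2 := hB ω hω s hs
  rw [hqe, ← hE] at h2
  have h3 : (2 ^ P j * (dv w (G' j) k (slam F w ω)).eval s) ^ 2 ≤
      ∑ j, ∑ k, (2 ^ P j * (dv w (G' j) k (slam F w ω)).eval s) ^ 2 := by
    refine le_trans ?_ (Finset.single_le_sum (f := fun j => ∑ k, (2 ^ P j *
      (dv w (G' j) k (slam F w ω)).eval s) ^ 2)
      (fun j _ => Finset.sum_nonneg fun k _ => sq_nonneg _) (Finset.mem_univ j))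
    exact Finset.single_le_sum (f := fun k => (2 ^ P j *
      (dv w (G' j) k (slam F w ω)).eval s) ^ 2)
      (fun k _ => sq_nonneg _) (Finset.mem_univ k)
  have h4 := (h3.trans (le_abs_self _)).trans h2
  have h5 : E * ((m : ℝ) + 1) ^ 2 ≤ ((m + 1) * E) ^ 2 := by
    have h6 : E * ((m : ℝ) + 1) ^ 2 ≤ E ^ 2 * ((m : ℝ) + 1) ^ 2 :=
      mul_le_mul_of_nonneg_right (by nlinarith) (by positivity)
    refine h6.trans (le_of_eq (by ring))
  have h6 := abs_le_of_sq_le_sq (h4.trans h5) (by positivity)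
  rw [abs_mul, abs_of_pos (by positivity : (0 : ℝ) < 2 ^ P j)] at h6
  have h7 : (dv w (G' j) k (slam F w ω)).eval s = F.x1 w ω k + 1 / 2 ^ w * s * F.d ω k -
        eval (pnt ((F.T1 w ω : ℝ) / 2 ^ w + 1 / 2 ^ w * s)
          fun k => F.x1 w ω k + 1 / 2 ^ w * s * F.d ω k) (G j (z' j (slam F w₀ ω)) k) := by
    unfold dv
    rw [Polynomial.eval_sub, Pool.KBX.eval_aeval_poly, eval_lc_gen, hGe]
    have : (fun i => (lc w (slam F w ω) i).eval s) =
        pnt ((F.T1 w ω : ℝ) / 2 ^ w + 1 / 2 ^ w * s)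
          fun k => F.x1 w ω k + 1 / 2 ^ w * s * F.d ω k := by
      funext o
      exact eval_lc_gen F w ω s o
    rw [this]
    rfl
  rw [← h7, ← hE, le_div_iff₀ (by positivity), mul_comm]
  exact h6

end Pool.GEN
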