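import Pool.Agent.H32.KR.K2a

/-!
# The entropies of the window, of the cell and of the direction
-/

set_option autoImplicit false

namespace Pool.GEN

open Finset Real MvPolynomial
open Pool.Agent.H49.Ent Pool.Agent.H32.Dense Pool.STK Pool.KA Pool.KSAT Pool.K2S Pool.PB Pool.S6C
open Pool.FLF (Fam.sub)

variable {m J : ℕ}

/-- The entropy of a shorter window. -/
theorem ch_T1 (F : Fam m J) {p : F.Ω → ℝ} (hp : IsLaw p) (w₀ c : ℕ) (h : w₀ + c ≤ J) {U : Type}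
    (Y : F.Ω → U) (φ : U → ℕ) (hφ : ∀ ω, F.T1 w₀ ω = φ (Y ω)) :
    CH p (F.T1 (w₀ + c)) Y ≤ c * Real.log 2 := by
  have h1 := Pool.OC.ch_le_log_card' hp (F.T1 (w₀ + c)) Y (2 ^ c) (fun z =>
    ⟨Finset.Ico (2 ^ c * φ z) (2 ^ c * φ z + 2 ^ c), by rw [Nat.card_Ico, Nat.add_sub_cancel_left], by
      intro ω _ hY
      have e := T1_div F h ω
      rw [← hY, ← hφ, e, Finset.mem_Ico]
      have h2 := Nat.div_add_mod (F.T1 (w₀ + c) ω) (2 ^ c)
      have h3 := Nat.mod_lt (F.T1 (w₀ + c) ω) (y := 2 ^ c) (by positivity)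
      constructor <;> omega⟩)
  refine h1.trans (le_of_eq ?_)
  push_cast
  rw [Real.log_pow]

/-- The entropy of the cell, given the window and labels without free coordinates. -/
theorem ch_cell (F : Fam m J) {p : F.Ω → ℝ} (hp : IsLaw p) (w : ℕ) {U : Type} (Y : F.Ω → U)
    (g : U → Fin m → MvPolynomial (Option (Fin m)) ℝ) (η : ℝ)
    (hdep : ∀ y k, ∀ b b' : Option (Fin m) → ℝ, b none = b' none →
      eval b (g y k) = eval b' (g y k))
    (hpos : ∀ ω, 0 < p ω → ∀ k, |F.x1 w ω k - eval (pnt ((F.T1 w ω : ℝ) / 2 ^ w) (F.x1 w ω))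
      (g (Y ω) k)| ≤ η) :
    CH p (fun ω => fl w (F.x1 w ω)) (fun ω => (F.T1 w ω, Y ω)) ≤
      m * Real.log (2 * (2 ^ w * (2 * η) + 1) + 1) := by
  have h1 := CH_le_vec hp.nonneg hp.sum_one (fun ω => fl w (F.x1 w ω))
    (fun ω => (F.T1 w ω, Y ω)) (fun _ => 2 ^ w * (2 * η) + 1) (by
      intro ω ω' hω hω' he k
      have e1 : F.T1 w ω = F.T1 w ω' := (Prod.ext_iff.1 he).1
      have e2 : Y ω = Y ω' := (Prod.ext_iff.1 he).2
      have h2 := hpos ω hω k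
      have h3 := hpos ω' hω' k
      rw [← e1, ← e2] at h3
      have h4 : eval (pnt ((F.T1 w ω : ℝ) / 2 ^ w) (F.x1 w ω)) (g (Y ω) k) =
          eval (pnt ((F.T1 w ω : ℝ) / 2 ^ w) (F.x1 w ω')) (g (Y ω) k) := hdep _ _ _ _ rfl
      rw [h4] at h2
      have h5 : |F.x1 w ω k - F.x1 w ω' k| ≤ 2 * η := by
        rw [abs_le] at h2 h3 ⊢
        constructor <;> linarith only [h2, h3]
      have h6 : (0 : ℝ) < 2 ^ w := by positivity
      have h7 : |2 ^ w * F.x1 w ω k - 2 ^ w * F.x1 w ω' k| ≤ 2 ^ w * (2 * η) := by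
        rw [← mul_sub, abs_mul, abs_of_pos h6]
        exact mul_le_mul_of_nonneg_left h5 h6.le
      have a1 := Int.floor_le (2 ^ w * F.x1 w ω k)
      have a2 := Int.lt_floor_add_one (2 ^ w * F.x1 w ω k)
      have a3 := Int.floor_le (2 ^ w * F.x1 w ω' k)
      have a4 := Int.lt_floor_add_one (2 ^ w * F.x1 w ω' k)
      have e3 : fl w (F.x1 w ω) k = ⌊2 ^ w * F.x1 w ω k⌋ := rfl
      have e4 : fl w (F.x1 w ω') k = ⌊2 ^ w * F.x1 w ω' k⌋ := rfl
      rw [e3, e4]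
      push_cast
      rw [abs_le] at h7 ⊢
      constructor <;> linarith)
  rw [Ex_const hp.sum_one] at h1
  exact h1

/-- The entropy of the directions, without conditions. -/
theorem ch_dir_triv (F : Fam m J) {p : F.Ω → ℝ} (hp : IsLaw p) {U : Type} (Y : F.Ω → U) :
    CH p (F.D J) Y ≤ m * (J * Real.log 2 + Real.log 7) := by
  have h1 := CH_le_vec hp.nonneg hp.sum_one (F.D J) Y (fun _ => 2 ^ J * 2 + 1) (by
      intro ω ω' hω hω' he k
      have h2 := abs_le.1 (F.dir ω k)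
      have h3 := abs_le.1 (F.dir ω' k)
      have h6 : (0 : ℝ) < 2 ^ J := by positivity
      have h7 : |2 ^ J * F.d ω k - 2 ^ J * F.d ω' k| ≤ 2 ^ J * 2 := by
        rw [← mul_sub, abs_mul, abs_of_pos h6]
        refine mul_le_mul_of_nonneg_left ?_ h6.le
        rw [abs_le]
        constructor <;> linarith only [h2, h3]
      have a1 := Int.floor_le (2 ^ J * F.d ω k)
      have a2 := Int.lt_floor_add_one (2 ^ J * F.d ω k)
      have a3 := Int.floor_le (2 ^ J * F.d ω' k)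
      have a4 := Int.lt_floor_add_one (2 ^ J * F.d ω' k)
      have e3 : F.D J ω k = ⌊2 ^ J * F.d ω k⌋ := rfl
      have e4 : F.D J ω' k = ⌊2 ^ J * F.d ω' k⌋ := rfl
      rw [e3, e4]
      push_cast
      rw [abs_le] at h7 ⊢
      constructor <;> linarith)
  rw [Ex_const hp.sum_one] at h1
  refine h1.trans (mul_le_mul_of_nonneg_left ?_ (Nat.cast_nonneg m))
  have h2 : (1 : ℝ) ≤ 2 ^ J := one_le_pow₀ (by norm_num)
  have h3 : (J : ℝ) * Real.log 2 + Real.log 7 = Real.log (2 ^ J * 7) := by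
    rw [Real.log_mul (by positivity) (by norm_num), Real.log_pow]
  rw [h3]
  refine Real.log_le_log (by positivity) ?_
  linarith only [h2]

/-- The entropy of the directions given the cell. -/
theorem ch_dir (m K : ℕ) : ∃ C : ℝ, 1 ≤ C ∧ ∀ (J : ℕ) (F : Fam m J) (p : F.Ω → ℝ), IsLaw p →
    ∀ (w₀ w : ℕ) (P : Fin m → ℕ) (I : Fin m → Finset (Fin m))
    (V : Fin m → Type) (z : ∀ j, PtT F → V j) (z' : ∀ j, LnT F → V j)
    (G : ∀ j, V j → Fin m → MvPolynomial (Option (Fin m)) ℝ) (η : Fin m → ℝ) (A : F.Ω → Prop),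
    w₀ ≤ w → w ≤ J → (2 * m + 7 : ℝ) ≤ 2 ^ (w - w₀) → (∀ j, (I j).card ≤ j) →
    (∀ ω, 0 < p ω → A ω) → (∀ j, 1 / 2 ^ J ≤ η j) →
    (∀ j, LabOK F (I j) K J w₀ (P j) A (z j) (z' j) (G j)) →
    (∀ ω, 0 < p ω → ∀ s ∈ Set.Icc (0 : ℝ) 1, ∀ j k, |F.x1 w ω k + 1 / 2 ^ w * s * F.d ω k -
        eval (pnt ((F.T1 w ω : ℝ) / 2 ^ w + 1 / 2 ^ w * s)
          fun k => F.x1 w ω k + 1 / 2 ^ w * s * F.d ω k) (G j (z' j (slam F w₀ ω)) k)| ≤ η j) →
    CH p (F.D J) (fun ω => (fl w (F.x1 w ω), (F.T1 w ω, ((fun j => z' j (slam F w₀ ω)),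
      (F.T1 w₀ ω, F.Z ω))))) ≤
      Real.log (C * (2 ^ J) ^ m * ∏ j, (η j / (1 / 2 ^ w))) := by
  classical
  obtain ⟨C, hC, hcnt⟩ := cnt_dir m K
  refine ⟨C, hC, ?_⟩
  intro J F p hp w₀ w P I V z z' G η A hw₀ hw hwc hI hpA hη hlab hdev
  obtain ⟨x, hx⟩ : ∃ x : ℝ, x = C * (2 ^ J) ^ m * ∏ j, (η j / (1 / 2 ^ w)) := ⟨_, rfl⟩
  have hJ : (0 : ℝ) < 2 ^ J := by positivity
  have hw1 : (1 : ℝ) ≤ 2 ^ w := one_le_pow₀ (by norm_num)
  have hη0 : ∀ j, 0 < η j := fun j => lt_of_lt_of_le (by positivity) (hη j)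
  have hx1 : 1 ≤ x := by
    have h1 : (2 ^ J : ℝ) ^ m * ∏ j, (η j / (1 / 2 ^ w)) =
        ∏ j, (2 ^ J * (η j / (1 / 2 ^ w))) := by
      rw [Finset.prod_mul_distrib, Finset.prod_const, Finset.card_univ, Fintype.card_fin]
    have h2 : 1 ≤ ∏ j, (2 ^ J * (η j / (1 / 2 ^ w))) := by
      refine le_trans (le_of_eq (Finset.prod_const_one (s := (Finset.univ : Finset (Fin m)))).symm)
        (Finset.prod_le_prod (fun _ _ => zero_le_one) fun j _ => ?_)
      have h3 := hη j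
      rw [div_le_iff₀ hJ] at h3
      rw [div_div_eq_mul_div, div_one]
      have h4 : 0 < η j := hη0 j
      nlinarith only [hw1, h3, mul_pos hJ h4]
    rw [hx, mul_assoc, h1]
    nlinarith only [hC, h2]
  rw [← hx]
  have hn : Real.log (⌊x⌋₊ : ℝ) ≤ Real.log x := by
    have h1 : 1 ≤ ⌊x⌋₊ := Nat.le_floor (by exact_mod_cast hx1)
    refine Real.log_le_log (by exact_mod_cast h1) (Nat.floor_le (by linarith only [hx1]))
  refine le_trans (Pool.OC.ch_le_log_card' hp _ _ ⌊x⌋₊ fun y => ?_) hn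
  by_cases hy : ∃ ω, 0 < p ω ∧ (fl w (F.x1 w ω), (F.T1 w ω, ((fun j => z' j (slam F w₀ ω)),
      (F.T1 w₀ ω, F.Z ω)))) = y
  · obtain ⟨ω₀, hω₀, hy₀⟩ := hy
    obtain ⟨ρ, hρe⟩ : ∃ ρ : ℝ, ρ = 1 / 2 ^ w := ⟨_, rfl⟩
    have hρ : 0 < ρ := by rw [hρe]; positivity
    have hρ1 : ρ ≤ 1 := by
      rw [hρe, div_le_one (by positivity)]
      exact hw1
    obtain ⟨a, ha⟩ : ∃ a : Fin m → ℝ, a = fun k => (fl w (F.x1 w ω₀) k : ℝ) * ρ := ⟨_, rfl⟩
    have hxa : ∀ ω, fl w (F.x1 w ω) = fl w (F.x1 w ω₀) → ∀ k, |F.x1 w ω k - a k| ≤ ρ := by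
      intro ω he k
      have e1 : (fl w (F.x1 w ω₀) k : ℝ) = (⌊2 ^ w * F.x1 w ω k⌋ : ℤ) := by
        rw [← he]; rfl
      have a1 := Int.floor_le (2 ^ w * F.x1 w ω k)
      have a2 := Int.lt_floor_add_one (2 ^ w * F.x1 w ω k)
      have e2 : F.x1 w ω k = (2 ^ w * F.x1 w ω k) * ρ := by
        rw [hρe]
        field_simp
      have e3 : F.x1 w ω k - a k = (2 ^ w * F.x1 w ω k - (⌊2 ^ w * F.x1 w ω k⌋ : ℤ)) * ρ := by
        rw [ha]
        simp only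
        rw [e1, sub_mul, ← e2]
      rw [e3, abs_mul, abs_of_pos hρ]
      have h1 : |2 ^ w * F.x1 w ω k - (⌊2 ^ w * F.x1 w ω k⌋ : ℤ)| ≤ 1 := by
        rw [abs_le]
        constructor <;> linarith
      calc _ ≤ 1 * ρ := mul_le_mul_of_nonneg_right h1 hρ.le
        _ = ρ := one_mul ρ
    obtain ⟨τ₀, hτ₀⟩ : ∃ τ₀ : ℝ, τ₀ = (F.T1 w ω₀ : ℝ) / 2 ^ w := ⟨_, rfl⟩
    -- the time and the position of the reference sample
    have ht : F.t ω₀ ∈ Set.Icc τ₀ (τ₀ + ρ) := by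
      have h1 := Pool.PB.Trl.t_rt F hw ω₀
      have h2 := Pool.PB.Trl.rt_mem F w ω₀
      have e : (slam F w ω₀).2.2 = F.T1 w ω₀ := rfl
      rw [e, add_div, ← hτ₀] at h1
      have h3 : 0 ≤ Pool.PB.Trl.rt F w ω₀ / 2 ^ w := div_nonneg h2.1 (by positivity)
      have h4 : Pool.PB.Trl.rt F w ω₀ / 2 ^ w ≤ ρ := by
        rw [hρe]
        exact div_le_div_of_nonneg_right h2.2 (by positivity)
      constructor <;> linarith
    have hxx : ∀ k, |F.x ω₀ k - F.x1 w ω₀ k| ≤ ρ := by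
      intro k
      have e : F.x ω₀ k - F.x1 w ω₀ k = (F.t ω₀ - τ₀) * F.d ω₀ k := by
        rw [hτ₀]
        unfold Fam.x Fam.x1
        ring
      rw [e, abs_mul]
      have h1 : |F.t ω₀ - τ₀| ≤ ρ := by
        rw [abs_le]
        constructor <;> linarith [ht.1, ht.2]
      calc _ ≤ ρ * 1 := mul_le_mul h1 (F.dir ω₀ k) (abs_nonneg _) hρ.le
        _ = ρ := mul_one ρ
    have hbig : (2 * m + 7) * ρ ≤ 1 / 2 ^ w₀ := by
      rw [hρe, mul_one_div, div_le_div_iff₀ (by positivity) (by positivity), one_mul]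
      have e : (2 : ℝ) ^ w = 2 ^ (w - w₀) * 2 ^ w₀ := by rw [← pow_add, Nat.sub_add_cancel hw₀]
      rw [e]
      exact mul_le_mul_of_nonneg_right hwc (by positivity)
    -- the set of directions
    obtain ⟨𝓓, h𝓓⟩ : ∃ 𝓓 : Finset (Fin m → ℤ), 𝓓 = (Finset.univ.filter fun ω => 0 < p ω ∧
      (fl w (F.x1 w ω), (F.T1 w ω, ((fun j => z' j (slam F w₀ ω)),
      (F.T1 w₀ ω, F.Z ω)))) = y).image (F.D J) := ⟨_, rfl⟩
    have hkey := hcnt J ρ τ₀ a I η (fun j k => G j (z' j (slam F w₀ ω₀)) k) hρ hρ1 hI hη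
      (fun j k => (hlab j).deg _ _) (fun j k b b' h1 h2 => (hlab j).dep _ _ b b' h1 h2) (by
        intro b hb1 hb2 j k o
        refine (hlab j).lip ω₀ (hpA ω₀ hω₀) b (fun o => ?_) k o
        refine le_trans ?_ hbig
        have hm0 : (0 : ℝ) ≤ m := Nat.cast_nonneg m
        cases o with
        | none =>
          have e : bt F ω₀ none = F.t ω₀ := rfl
          rw [e, abs_le]
          have h1 : ρ ≤ (2 * m + 7) * ρ := by nlinarith only [hρ]
          constructor <;> linarith only [h1, hb1, ht, hb1.1, hb1.2, ht.1, ht.2]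
        | some l =>
          have e : bt F ω₀ (some l) = F.x ω₀ l := rfl
          have h1 := abs_le.1 (hb2 l)
          have h2 := abs_le.1 (hxa ω₀ rfl l)
          have h3 := abs_le.1 (hxx l)
          rw [e, abs_le]
          constructor <;> linarith only [h1, h2, h3, h1.1, h1.2, h2.1, h2.2, h3.1, h3.2]) 𝓓 (by
        intro v hv
        rw [h𝓓, Finset.mem_image] at hv
        obtain ⟨ω, hω, hv⟩ := hv
        obtain ⟨hω1, hω2⟩ := (Finset.mem_filter.1 hω).2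
        rw [← hy₀] at hω2
        have e1 := (Prod.ext_iff.1 hω2).1
        have e2 := (Prod.ext_iff.1 (Prod.ext_iff.1 hω2).2).1
        have e3 := (Prod.ext_iff.1 (Prod.ext_iff.1 (Prod.ext_iff.1 hω2).2).2).1
        refine ⟨F.x1 w ω, F.d ω, hxa ω e1, F.dir ω, fun k => by rw [← hv]; rfl, ?_⟩
        intro s hs j k
        have h1 := hdev ω hω1 s hs j k
        have e4 : z' j (slam F w₀ ω) = z' j (slam F w₀ ω₀) := congrFun e3 j
        have e5 : F.T1 w ω = F.T1 w ω₀ := e2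
        rw [e4, e5, ← hτ₀, ← hρe] at h1
        exact h1)
    refine ⟨𝓓, Nat.le_floor ?_, ?_⟩
    · rw [hx, ← hρe]
      exact hkey
    · intro ω hω hY
      rw [h𝓓]
      exact Finset.mem_image_of_mem _ (Finset.mem_filter.2 ⟨Finset.mem_univ _, hω, hY⟩)
  · refine ⟨∅, by simp, ?_⟩
    intro ω hω hY
    exact absurd ⟨ω, hω, hY⟩ hy

end Pool.GEN
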