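import Pool.Agent.H32.KR.N1

/-!
# The number of directions for nested labels
-/

set_option autoImplicit false

namespace Pool.GEN

open MeasureTheory Set MvPolynomial
open Pool.Agent.H50.PW

/-- Fubini in any order of the coordinates. -/
theorem vol_perm {n : ℕ} (σ : Equiv.Perm (Fin n)) (f : Fin n → (Fin n → ℝ) → ℝ) (η : Fin n → ℝ)
    (hf : ∀ j, Measurable (f j))
    (hdep : ∀ j x y, (∀ i < j, x (σ i) = y (σ i)) → f j x = f j y) (hη : ∀ j, 0 ≤ η j) :
    volume {x : Fin n → ℝ | ∀ j, |x (σ j) - f j x| ≤ η j} ≤ ENNReal.ofReal (∏ j, (2 * η j)) := by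
  have hmp := volume_measurePreserving_piCongrLeft (fun _ : Fin n => ℝ) σ
  obtain ⟨Φ, hΦ⟩ : ∃ Φ : (Fin n → ℝ) ≃ᵐ (Fin n → ℝ),
    Φ = MeasurableEquiv.piCongrLeft (fun _ : Fin n => ℝ) σ := ⟨_, rfl⟩
  have e : ∀ y i, Φ y (σ i) = y i := by
    intro y i
    rw [hΦ]
    exact Equiv.piCongrLeft_apply_apply (P := fun _ : Fin n => ℝ) σ y i
  rw [← hΦ] at hmp
  have h1 : volume {x : Fin n → ℝ | ∀ j, |x (σ j) - f j x| ≤ η j} =
      volume (Φ ⁻¹' {x : Fin n → ℝ | ∀ j, |x (σ j) - f j x| ≤ η j}) :=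
    (hmp.measure_preimage_equiv _).symm
  rw [h1]
  have h2 : Φ ⁻¹' {x : Fin n → ℝ | ∀ j, |x (σ j) - f j x| ≤ η j} =
      {y : Fin n → ℝ | ∀ j, |y j - f j (Φ y)| ≤ η j} := by
    ext y
    simp only [Set.mem_preimage, Set.mem_ofPred_eq, e]
  rw [h2]
  refine vol_fub n (fun j y => f j (Φ y)) η (fun j => (hf j).comp Φ.measurable) ?_ hη
  intro j x y hxy
  refine hdep _ _ _ fun i hi => ?_
  rw [e, e]
  exact hxy i hi

/-- The test polynomial. -/
noncomputable def tst1 {m : ℕ} (τ ρ : ℝ) (a : Fin m → ℝ) (σ : Equiv.Perm (Fin m)) (c : Fin m → ℝ)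
    (g : Fin m → MvPolynomial (Option (Fin m)) ℝ) : MvPolynomial (Fin m) ℝ :=
  ∑ j, (C (c j) * (C (a (σ j)) + C ρ * X (σ j) - bind₁ (sbs τ ρ a) (g j))) ^ 2

theorem eval_tst1 {m : ℕ} (τ ρ : ℝ) (a : Fin m → ℝ) (σ : Equiv.Perm (Fin m)) (c : Fin m → ℝ)
    (g : Fin m → MvPolynomial (Option (Fin m)) ℝ) (y : Fin m → ℝ) :
    eval y (tst1 τ ρ a σ c g) = ∑ j, (c j * (a (σ j) + ρ * y (σ j) -
      eval (pnt τ fun k => a k + ρ * y k) (g j))) ^ 2 := by
  unfold tst1
  rw [map_sum]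
  refine Finset.sum_congr rfl fun j _ => ?_
  rw [map_pow, map_mul, eval_C, map_sub, eval_sbs]
  simp

theorem deg_tst1 {m K : ℕ} (τ ρ : ℝ) (a : Fin m → ℝ) (σ : Equiv.Perm (Fin m)) (c : Fin m → ℝ)
    (g : Fin m → MvPolynomial (Option (Fin m)) ℝ)
    (hg : ∀ j, (g j).totalDegree ≤ K) : (tst1 τ ρ a σ c g).totalDegree ≤ 2 * (K + 1) := by
  unfold tst1
  refine (totalDegree_finsetSum _ _).trans (Finset.sup_le fun j _ => ?_)
  refine (totalDegree_pow _ _).trans (Nat.mul_le_mul_left 2 ?_)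
  refine (totalDegree_mul _ _).trans ?_
  rw [totalDegree_C, zero_add]
  refine (totalDegree_sub _ _).trans (max_le ?_ ?_)
  · refine (totalDegree_add _ _).trans (max_le ?_ ?_)
    · simp
    · refine (totalDegree_mul _ _).trans ?_
      simp only [totalDegree_C, totalDegree_X, zero_add]
      omega
  · exact ((totalDegree_bind₁_le _ (deg_sbs τ ρ a) _).trans (hg j)).trans (by omega)

/-- **The number of directions for nested labels.** -/
theorem cnt_nst (m K : ℕ) : ∃ C : ℝ, 1 ≤ C ∧ ∀ (J : ℕ) (ρ τ₀ : ℝ) (a : Fin m → ℝ)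
    (σ : Equiv.Perm (Fin m)) (η : Fin m → ℝ)
    (g : Fin m → MvPolynomial (Option (Fin m)) ℝ), 0 < ρ → ρ ≤ 1 →
    (∀ j, 0 < η j) → (∀ j, (g j).totalDegree ≤ K) →
    (∀ j, ∀ b b' : Option (Fin m) → ℝ, b none = b' none →
      (∀ i < j, b (some (σ i)) = b' (some (σ i))) → eval b (g j) = eval b' (g j)) →
    ∀ 𝓓 : Finset (Fin m → ℤ), (∀ v ∈ 𝓓, ∃ u d : Fin m → ℝ, (∀ k, |u k - a k| ≤ ρ) ∧
      (∀ k, |d k| ≤ 1) ∧ (∀ k, ⌊2 ^ J * d k⌋ = v k) ∧ ∀ s ∈ Icc (0 : ℝ) 1, ∀ x : Fin m → ℝ,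
        (∀ k, |x k - (u k + ρ * s * d k)| ≤ 2 / 2 ^ J) → ∀ j,
        |x (σ j) - eval (pnt (τ₀ + ρ * s) x) (g j)| ≤ η j) →
    (𝓓.card : ℝ) ≤ C * (2 ^ J) ^ m * ∏ j, (η j / ρ) := by
  classical
  obtain ⟨N, hN⟩ : ∃ N : ℝ, N = ((m : ℝ) + 1) ^ 2 := ⟨_, rfl⟩
  have hm1 : (1 : ℝ) ≤ (m : ℝ) + 1 := by
    have : (0 : ℝ) ≤ m := Nat.cast_nonneg m
    linarith
  have hN1 : 1 ≤ N := by
    rw [hN]
    exact one_le_pow₀ hm1
  obtain ⟨Wt, hWt⟩ : ∃ Wt : ℝ, Wt = ∑ i, wt (tt m) i := ⟨_, rfl⟩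
  have hWt0 : 0 ≤ Wt := by rw [hWt]; exact Finset.sum_nonneg fun i _ => wt_nonneg _ _
  obtain ⟨A, hA⟩ : ∃ A : ℝ, A = (2 * m + 1) * N := ⟨_, rfl⟩
  have hA1 : 1 ≤ A := by
    rw [hA]
    have : (0 : ℝ) ≤ m := Nat.cast_nonneg m
    nlinarith
  obtain ⟨B, hB⟩ : ∃ B : ℝ, B = ((2 * (K + 1) + 1) ^ (Fintype.card (Fin m) +
    Fintype.card (Fin m)) : ℕ) * (Wt * (2 * A) ^ m) := ⟨_, rfl⟩
  have hB0 : 0 ≤ B := by
    rw [hB]
    have : (0 : ℝ) ≤ A := by linarith
    positivity
  refine ⟨B + 1, by linarith, ?_⟩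
  intro J ρ τ₀ a σ η g hρ hρ1 hη0 hdeg hdep 𝓓 h𝓓
  have hJ : (0 : ℝ) < 2 ^ J := by positivity
  obtain ⟨δ, hδe⟩ : ∃ δ : ℝ, δ = 1 / 2 ^ J := ⟨_, rfl⟩
  have hδ : 0 < δ := by rw [hδe]; positivity
  have hδ1 : δ ≤ 1 := by
    rw [hδe, div_le_one hJ]
    exact one_le_pow₀ (by norm_num)
  have hδ2 : (2 : ℝ) / 2 ^ J = 2 * δ := by rw [hδe]; ring
  obtain ⟨c, hc⟩ : ∃ c : Fin m → ℝ, c = fun j => 1 / (N * η j) := ⟨_, rfl⟩
  have hc0 : ∀ j, 0 < c j := fun j => by
    rw [hc]
    have := hη0 j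
    positivity
  obtain ⟨Q, hQ⟩ : ∃ Q : Fin (Fintype.card (Fin m) + 1) → MvPolynomial (Fin m) ℝ,
    Q = fun i => tst1 (τ₀ + ρ * tt m i) ρ a σ c g := ⟨_, rfl⟩
  have hQe : ∀ i (y : Fin m → ℝ), eval y (Q i) = ∑ j, (c j * (a (σ j) + ρ * y (σ j) -
      eval (pnt (τ₀ + ρ * tt m i) fun k => a k + ρ * y k) (g j))) ^ 2 := by
    intro i y
    rw [hQ]
    exact eval_tst1 _ _ _ _ _ _ _
  have hQ0 : ∀ i x, 0 ≤ eval x (Q i) := by
    intro i x
    rw [hQe]
    exact Finset.sum_nonneg fun j _ => sq_nonneg _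
  -- the sections
  have hsec : ∀ i, volume {y : Fin m → ℝ | ‖y‖ ≤ 2 * Fintype.card (Fin m) + 2 + |tt m i| * 3 ∧
      eval y (Q i) ≤ 4 * Fintype.card (Fin m) + 1} ≤
      ENNReal.ofReal (∏ j, (2 * (A * η j / ρ))) := by
    intro i
    obtain ⟨f, hf⟩ : ∃ f : Fin m → (Fin m → ℝ) → ℝ, f = fun j y =>
      (eval (pnt (τ₀ + ρ * tt m i) fun k => a k + ρ * y k) (g j) - a (σ j)) / ρ := ⟨_, rfl⟩
    have hfm : ∀ j, Measurable (f j) := by
      intro j
      rw [hf]
      have h1 : Measurable fun b : Option (Fin m) → ℝ => eval b (g j) :=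
        (MvPolynomial.continuous_eval (g j)).measurable
      have h2 : Measurable fun y : Fin m → ℝ =>
          pnt (τ₀ + ρ * tt m i) fun k => a k + ρ * y k := by
        refine measurable_pi_lambda _ fun o => ?_
        cases o with
        | none => exact measurable_const
        | some k =>
          have h3 : Measurable fun y : Fin m → ℝ => a k + ρ * y k :=
            measurable_const.add (measurable_const.mul (measurable_pi_apply k))
          exact h3
      exact ((h1.comp h2).sub_const _).div_const _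
    refine le_trans (measure_mono ?_) (vol_perm σ f (fun j => A * η j / ρ) hfm ?_ ?_)
    · rintro y ⟨hy1, hy2⟩ j
      rw [Fintype.card_fin, hQe] at hy2
      have h1 : (c j * (a (σ j) + ρ * y (σ j) -
          eval (pnt (τ₀ + ρ * tt m i) fun k => a k + ρ * y k) (g j))) ^ 2 ≤ 4 * m + 1 := by
        refine le_trans ?_ hy2
        exact Finset.single_le_sum (f := fun j => (c j * (a (σ j) + ρ * y (σ j) -
          eval (pnt (τ₀ + ρ * tt m i) fun k => a k + ρ * y k) (g j))) ^ 2)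
          (fun k _ => sq_nonneg _) (Finset.mem_univ j)
      have h2 : (4 * m + 1 : ℝ) ≤ (2 * m + 1) ^ 2 := by nlinarith only [sq_nonneg (m : ℝ)]
      have h4 := abs_le_of_sq_le_sq (h1.trans h2) (by positivity)
      rw [abs_mul, abs_of_pos (hc0 j), hc] at h4
      have h5 : 0 < N * η j := mul_pos (by linarith only [hN1]) (hη0 j)
      simp only [one_div] at h4
      rw [inv_mul_le_iff₀ h5] at h4
      have e : y (σ j) - f j y = (a (σ j) + ρ * y (σ j) -
          eval (pnt (τ₀ + ρ * tt m i) fun k => a k + ρ * y k) (g j)) / ρ := by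
        rw [hf]
        simp only
        field_simp
        ring
      rw [e, abs_div, abs_of_pos hρ]
      refine div_le_div_of_nonneg_right (h4.trans (le_of_eq ?_)) hρ.le
      rw [hA]; ring
    · intro j x y hxy
      rw [hf]
      simp only
      have e : eval (pnt (τ₀ + ρ * tt m i) fun k => a k + ρ * x k) (g j) =
          eval (pnt (τ₀ + ρ * tt m i) fun k => a k + ρ * y k) (g j) :=
        hdep j _ _ rfl fun i hi => by simp only [pnt, hxy i hi]
      rw [e]
    · intro j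
      have := hη0 j
      positivity
  -- the count
  obtain ⟨f, hf⟩ : ∃ f : (Fin m → ℤ) → Fin m → ℝ, f = fun v k => (v k : ℝ) * δ := ⟨_, rfl⟩
  have hfi : Function.Injective f := by
    intro v v' h
    funext k
    have h1 := congrFun h k
    rw [hf] at h1
    simp only [mul_left_inj' hδ.ne'] at h1
    exact_mod_cast h1
  have hmain := card_directions_le (μ := Fin m) (d := 2 * (K + 1)) (by omega) (R := 3) Q
    (fun i => by rw [hQ]; exact deg_tst1 _ _ _ _ _ _ hdeg) hQ0 (tt m) (tt_inj m) (𝓓.image f) hδ (by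
      intro D hD D' hD' hne
      obtain ⟨v, -, rfl⟩ := Finset.mem_image.1 hD
      obtain ⟨v', -, rfl⟩ := Finset.mem_image.1 hD'
      have h1 : v ≠ v' := fun h => hne (by rw [h])
      obtain ⟨k, hk⟩ := Function.ne_iff.1 h1
      refine le_trans ?_ (dist_le_pi_dist (f v) (f v') k)
      rw [Real.dist_eq, hf]
      simp only
      rw [← sub_mul, abs_mul, abs_of_pos hδ]
      have h2 : (1 : ℝ) ≤ |(v k : ℝ) - v' k| := by
        have : (1 : ℤ) ≤ |v k - v' k| := Int.one_le_abs (sub_ne_zero.2 hk)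
        exact_mod_cast this
      nlinarith only [hδ, h2]) (by
      intro D hD
      obtain ⟨v, hv, rfl⟩ := Finset.mem_image.1 hD
      obtain ⟨u, d, hu, hd, hvd, hl⟩ := h𝓓 v hv
      refine ⟨fun k => (u k - a k) / ρ, ?_, fun D' hD' => ?_⟩
      · rw [pi_norm_le_iff_of_nonneg zero_le_one]
        intro k
        rw [Real.norm_eq_abs, abs_div, abs_of_pos hρ, div_le_one hρ]
        exact hu k
      have hDd : ∀ k, |D' k - d k| ≤ 2 * δ := by
        intro k
        have h1 : |D' k - f v k| ≤ δ / 2 := by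
          have := (dist_le_pi_dist D' (f v) k).trans hD'.le
          rwa [Real.dist_eq] at this
        have h2 : |f v k - d k| ≤ δ := by
          rw [hf]
          simp only
          have h3 : ((⌊2 ^ J * d k⌋ : ℤ) : ℝ) ≤ 2 ^ J * d k := Int.floor_le _
          have h4 : 2 ^ J * d k < (⌊2 ^ J * d k⌋ : ℝ) + 1 := Int.lt_floor_add_one _
          rw [hvd k] at h3 h4
          have h5 : d k = 2 ^ J * d k * δ := by
            rw [hδe]
            field_simp
          rw [abs_le]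
          constructor
          · nlinarith only [h5, hδ, h4]
          · nlinarith only [hδ, h5, h3]
        have h3 : D' k - d k = (D' k - f v k) + (f v k - d k) := by ring
        rw [h3]
        refine (abs_add_le _ _).trans ?_
        linarith only [hδ, h1, h2]
      refine ⟨?_, ?_⟩
      · rw [pi_norm_le_iff_of_nonneg (by norm_num)]
        intro k
        rw [Real.norm_eq_abs]
        have h1 : D' k = (D' k - d k) + d k := by ring
        rw [h1]
        refine (abs_add_le _ _).trans ?_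
        have a1 := hDd k
        have a2 := hd k
        linarith only [a1, a2, hδ1]
      -- the sum of the test polynomials
      have hterm : ∀ i j, (c j * (a (σ j) + ρ * ((u (σ j) - a (σ j)) / ρ + tt m i * D' (σ j)) -
          eval (pnt (τ₀ + ρ * tt m i) fun k => a k + ρ * ((u k - a k) / ρ + tt m i * D' k))
            (g j))) ^ 2 ≤ 1 / ((m : ℝ) + 1) ^ 4 := by
        intro i j
        have hti := tt_mem m i
        have e : ∀ k, a k + ρ * ((u k - a k) / ρ + tt m i * D' k) =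
            u k + ρ * tt m i * D' k := by
          intro k
          field_simp
          ring
        simp only [e]
        have h1 := hl (tt m i) hti (fun k => u k + ρ * tt m i * D' k) (by
          intro k
          have e1 : (u k + ρ * tt m i * D' k) - (u k + ρ * tt m i * d k) =
              (ρ * tt m i) * (D' k - d k) := by ring
          rw [e1, abs_mul, abs_of_nonneg (mul_nonneg hρ.le hti.1), hδ2]
          have h2 : ρ * tt m i ≤ 1 := by
            have := mul_le_mul hρ1 hti.2 hti.1 zero_le_one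
            linarith only [this]
          calc ρ * tt m i * |D' k - d k| ≤ 1 * (2 * δ) :=
                mul_le_mul h2 (hDd k) (abs_nonneg _) zero_le_one
            _ = 2 * δ := one_mul _) j
        have h6 : |c j * (u (σ j) + ρ * tt m i * D' (σ j) -
            eval (pnt (τ₀ + ρ * tt m i) fun k => u k + ρ * tt m i * D' k) (g j))| ≤
            1 / ((m : ℝ) + 1) ^ 2 := by
          rw [abs_mul, abs_of_pos (hc0 j)]
          refine (mul_le_mul_of_nonneg_left h1 (hc0 j).le).trans (le_of_eq ?_)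
          rw [hc, hN]
          have h7 := hη0 j
          have h8 : (0 : ℝ) < (m : ℝ) + 1 := by linarith only [hm1]
          field_simp
        calc (c j * (u (σ j) + ρ * tt m i * D' (σ j) -
            eval (pnt (τ₀ + ρ * tt m i) fun k => u k + ρ * tt m i * D' k) (g j))) ^ 2
            = |c j * (u (σ j) + ρ * tt m i * D' (σ j) -
            eval (pnt (τ₀ + ρ * tt m i) fun k => u k + ρ * tt m i * D' k) (g j))| ^ 2 :=
              (sq_abs _).symm
          _ ≤ (1 / ((m : ℝ) + 1) ^ 2) ^ 2 := pow_le_pow_left₀ (abs_nonneg _) h6 2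
          _ = 1 / ((m : ℝ) + 1) ^ 4 := by
            rw [div_pow, one_pow, ← pow_mul]
      have hsum : ∀ i, eval (fun k => (u k - a k) / ρ + tt m i * D' k) (Q i) ≤
          m * (1 / ((m : ℝ) + 1) ^ 4) := by
        intro i
        rw [hQe]
        refine (Finset.sum_le_sum fun j _ => hterm i j).trans (le_of_eq ?_)
        rw [Finset.sum_const, Finset.card_univ, Fintype.card_fin, nsmul_eq_mul]
      refine (Finset.sum_le_sum fun i _ => hsum i).trans ?_
      rw [Finset.sum_const, Finset.card_univ, Fintype.card_fin, Fintype.card_fin, nsmul_eq_mul]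
      push_cast
      have h1 : (0 : ℝ) ≤ m := Nat.cast_nonneg m
      have h2 : (0 : ℝ) < ((m : ℝ) + 1) ^ 4 := by positivity
      have e : ((m : ℝ) + 1) * (m * (1 / ((m : ℝ) + 1) ^ 4)) =
          ((m : ℝ) + 1) * m / ((m : ℝ) + 1) ^ 4 := by ring
      rw [e, div_le_one h2]
      have h3 : (m : ℝ) ≤ (m : ℝ) + 1 := by linarith only
      have h4 : (1 : ℝ) ≤ ((m : ℝ) + 1) ^ 2 := one_le_pow₀ hm1
      calc ((m : ℝ) + 1) * m ≤ ((m : ℝ) + 1) * ((m : ℝ) + 1) := by gcongr
        _ = ((m : ℝ) + 1) ^ 2 * 1 := by ring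
        _ ≤ ((m : ℝ) + 1) ^ 2 * ((m : ℝ) + 1) ^ 2 := by gcongr
        _ = ((m : ℝ) + 1) ^ 4 := by ring)
  rw [Finset.card_image_of_injective 𝓓 hfi] at hmain
  have hsum2 : (𝓓.card : ENNReal) * ENNReal.ofReal δ ^ Fintype.card (Fin m) ≤
      ENNReal.ofReal (((2 * (K + 1) + 1) ^ (Fintype.card (Fin m) + Fintype.card (Fin m)) : ℕ) *
        (Wt * ∏ j, (2 * (A * η j / ρ)))) := by
    refine hmain.trans ?_
    rw [ENNReal.ofReal_mul (Nat.cast_nonneg _), ENNReal.ofReal_natCast]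
    refine mul_le_mul_right ?_ _
    rw [ENNReal.ofReal_mul hWt0, hWt,
      ENNReal.ofReal_sum_of_nonneg fun i _ => wt_nonneg _ _, Finset.sum_mul]
    refine Finset.sum_le_sum fun i _ => ?_
    exact mul_le_mul_right (hsec i) _
  have hfin : (𝓓.card : ℝ) * δ ^ m ≤
      ((2 * (K + 1) + 1) ^ (Fintype.card (Fin m) + Fintype.card (Fin m)) : ℕ) *
        (Wt * ∏ j, (2 * (A * η j / ρ))) := by
    rw [← ENNReal.ofReal_natCast, ← ENNReal.ofReal_pow hδ.le,
      ← ENNReal.ofReal_mul (Nat.cast_nonneg _)] at hsum2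
    rw [Fintype.card_fin] at hsum2 ⊢
    refine (ENNReal.ofReal_le_ofReal_iff ?_).1 hsum2
    have h1 : 0 ≤ ∏ j, (2 * (A * η j / ρ)) := Finset.prod_nonneg fun j _ => by
      have := hη0 j
      positivity
    positivity
  have hP : ∏ j, (2 * (A * η j / ρ)) = (2 * A) ^ m * ∏ j, (η j / ρ) := by
    have e : ∀ j ∈ (Finset.univ : Finset (Fin m)), 2 * (A * η j / ρ) = (2 * A) * (η j / ρ) :=
      fun j _ => by ring
    rw [Finset.prod_congr rfl e, Finset.prod_mul_distrib,
      Finset.prod_const, Finset.card_univ, Fintype.card_fin]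
  rw [hP] at hfin
  have hPn : 0 ≤ ∏ j, (η j / ρ) := Finset.prod_nonneg fun j _ => by
    have := hη0 j
    positivity
  have h1 : (𝓓.card : ℝ) * δ ^ m ≤ B * ∏ j, (η j / ρ) := by
    refine hfin.trans (le_of_eq ?_)
    rw [hB]; ring
  have h2 : (𝓓.card : ℝ) = (𝓓.card : ℝ) * δ ^ m * (2 ^ J) ^ m := by
    rw [mul_assoc, ← mul_pow, hδe, one_div_mul_cancel hJ.ne', one_pow, mul_one]
  rw [h2]
  calc (𝓓.card : ℝ) * δ ^ m * (2 ^ J) ^ m ≤ (B * ∏ j, (η j / ρ)) * (2 ^ J) ^ m :=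
        mul_le_mul_of_nonneg_right h1 (by positivity)
    _ ≤ ((B + 1) * ∏ j, (η j / ρ)) * (2 ^ J) ^ m :=
        mul_le_mul_of_nonneg_right (mul_le_mul_of_nonneg_right (by linarith only) hPn) (by positivity)
    _ = (B + 1) * (2 ^ J) ^ m * ∏ j, (η j / ρ) := by ring

end Pool.GEN
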