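import Pool.Agent.H32.KR.N2
import Pool.Agent.H32.KR.K2b
import Pool.Agent.H54.GN.Lb

/-!
# The lines and their neighbourhoods stay close to the leaves of nested labels
-/

set_option autoImplicit false

namespace Pool.GEN

open Finset Real MvPolynomial
open Pool.Agent.H49.Ent Pool.Agent.H32.Dense Pool.STK Pool.KA Pool.KSAT Pool.K2S Pool.PB Pool.S6C
open Pool.FLF (Fam.sub)
open Pool.PB.Trl (rt rt_mem t_rt)

variable {m J : ℕ}

/-- The deviation of a translate of the line from the graph. -/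
noncomputable def dvh {ζ : Type} (w : ℕ)
    (G : ((Fin m → ℝ) × (Fin m → ℝ)) × ζ × ℕ → MvPolynomial (Option (Fin m)) ℝ)
    (k : Fin m) (h : Fin m → ℝ) (s : ((Fin m → ℝ) × (Fin m → ℝ)) × ζ × ℕ) : Polynomial ℝ :=
  lc w s (some k) + Polynomial.C (h k) -
    aeval (fun o => lc w s o + Polynomial.C (pnt 0 h o)) (G s)

theorem natDegree_dvh {ζ : Type} (w : ℕ) {K : ℕ}
    {G : ((Fin m → ℝ) × (Fin m → ℝ)) × ζ × ℕ → MvPolynomial (Option (Fin m)) ℝ}
    (hG : ∀ s, (G s).totalDegree ≤ K) (k : Fin m) (h : Fin m → ℝ)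
    (s : ((Fin m → ℝ) × (Fin m → ℝ)) × ζ × ℕ) : (dvh w G k h s).natDegree ≤ K + 1 := by
  have h1 : ∀ o, (lc w s o + Polynomial.C (pnt 0 h o)).natDegree ≤ 1 := by
    intro o
    refine (Polynomial.natDegree_add_le _ _).trans (max_le (natDegree_lc w s o) ?_)
    rw [Polynomial.natDegree_C]
    exact Nat.zero_le _
  unfold dvh
  refine (Polynomial.natDegree_sub_le _ _).trans (max_le ?_ ?_)
  · refine (Polynomial.natDegree_add_le _ _).trans (max_le ?_ ?_)
    · exact (natDegree_lc w s _).trans (by omega)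
    · rw [Polynomial.natDegree_C]
      exact Nat.zero_le _
  · exact (Pool.KBX.natDegree_aeval_le _ _ h1 (hG s)).trans (by omega)

theorem eval_dvh_gen (F : Fam m J) (w : ℕ) (G : LnT F → MvPolynomial (Option (Fin m)) ℝ)
    (ω : F.Ω) (k : Fin m) (h : Fin m → ℝ) (s : ℝ) :
    (dvh w G k h (slam F w ω)).eval s = F.x1 w ω k + 1 / 2 ^ w * s * F.d ω k + h k -
      eval (pnt ((F.T1 w ω : ℝ) / 2 ^ w + 1 / 2 ^ w * s)
        fun k => F.x1 w ω k + 1 / 2 ^ w * s * F.d ω k + h k) (G (slam F w ω)) := by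
  unfold dvh
  rw [Polynomial.eval_sub, Polynomial.eval_add, Polynomial.eval_C, Pool.KBX.eval_aeval_poly,
    eval_lc_gen]
  have : (fun i => (lc w (slam F w ω) i + Polynomial.C (pnt 0 h i)).eval s) =
      pnt ((F.T1 w ω : ℝ) / 2 ^ w + 1 / 2 ^ w * s)
        fun k => F.x1 w ω k + 1 / 2 ^ w * s * F.d ω k + h k := by
    funext o
    rw [Polynomial.eval_add, Polynomial.eval_C, eval_lc_gen]
    cases o with
    | none => simp [pnt]
    | some k => simp [pnt]
  rw [this]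
  rfl

theorem eval_dvh_rt (F : Fam m J) {w : ℕ} (hw : w ≤ J)
    (G : LnT F → MvPolynomial (Option (Fin m)) ℝ)
    (ω : F.Ω) (k : Fin m) (h : Fin m → ℝ) :
    (dvh w G k h (slam F w ω)).eval (rt F w ω) = F.x ω k + h k -
      eval (fun o => bt F ω o + pnt 0 h o) (G (slam F w ω)) := by
  unfold dvh
  rw [Polynomial.eval_sub, Polynomial.eval_add, Polynomial.eval_C, Pool.KBX.eval_aeval_poly,
    eval_lc F hw]
  have : (fun i => (lc w (slam F w ω) i + Polynomial.C (pnt 0 h i)).eval (rt F w ω)) =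
      fun o => bt F ω o + pnt 0 h o := by
    funext o
    rw [Polynomial.eval_add, Polynomial.eval_C, eval_lc F hw]
  rw [this]
  rfl

/-- The mean value inequality in a direction of space. -/
theorem mvt_sp (P : MvPolynomial (Option (Fin m)) ℝ) (x v : Option (Fin m) → ℝ) (K δ : ℝ)
    (hK : 0 ≤ K) (hv : v none = 0) (hvδ : ∀ k, |v (some k)| ≤ δ) (hδ : 0 ≤ δ)
    (hP : ∀ s ∈ Set.Icc (0 : ℝ) 1, ∀ k, |eval (fun o => x o + s * v o) (pderiv (some k) P)| ≤ K) :
    |eval (fun o => x o + v o) P - eval x P| ≤ K * m * δ := by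
  obtain ⟨q, hq⟩ : ∃ q : Polynomial ℝ, q = aeval (fun o => Polynomial.C (x o) +
    Polynomial.C (v o) * Polynomial.X) P := ⟨_, rfl⟩
  have hpt : ∀ s : ℝ, (fun o => (Polynomial.C (x o) +
      Polynomial.C (v o) * Polynomial.X).eval s) = fun o => x o + s * v o := by
    intro s
    funext o
    rw [Polynomial.eval_add, Polynomial.eval_C, Polynomial.eval_mul, Polynomial.eval_C,
      Polynomial.eval_X, mul_comm]
  have hqe : ∀ s, q.eval s = eval (fun o => x o + s * v o) P := by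
    intro s
    rw [hq, Pool.KBX.eval_aeval_poly, hpt]
  have hqd : ∀ s ∈ Set.Icc (0 : ℝ) 1, |q.derivative.eval s| ≤ K * m * δ := by
    intro s hs
    rw [hq, der_aevalσ, Polynomial.eval_finsetSum]
    have h1 : ∀ o, (Polynomial.eval s (aeval (fun o => Polynomial.C (x o) +
        Polynomial.C (v o) * Polynomial.X) (pderiv o P) * Polynomial.derivative
        (Polynomial.C (x o) + Polynomial.C (v o) * Polynomial.X))) =
        eval (fun o => x o + s * v o) (pderiv o P) * v o := by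
      intro o
      rw [Polynomial.eval_mul, Pool.KBX.eval_aeval_poly, hpt]
      simp
    simp only [h1]
    rw [Fintype.sum_option, hv, mul_zero, zero_add]
    refine (Finset.abs_sum_le_sum_abs _ _).trans ?_
    have h2 : ∀ k ∈ (Finset.univ : Finset (Fin m)), |eval (fun o => x o + s * v o)
        (pderiv (some k) P) * v (some k)| ≤ K * δ := by
      intro k _
      rw [abs_mul]
      exact mul_le_mul (hP s hs k) (hvδ k) (abs_nonneg _) hK
    refine (Finset.sum_le_sum h2).trans (le_of_eq ?_)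
    rw [Finset.sum_const, Finset.card_univ, Fintype.card_fin, nsmul_eq_mul]
    ring
  have h3 := (convex_Icc (0 : ℝ) 1).norm_image_sub_le_of_norm_hasDerivWithin_le
    (f := fun s => q.eval s) (f' := fun s => q.derivative.eval s) (C := K * m * δ)
    (fun s _ => (q.hasDerivAt s).hasDerivWithinAt) (fun s hs => by
      rw [Real.norm_eq_abs]; exact hqd s hs) (Set.left_mem_Icc.2 zero_le_one)
    (Set.right_mem_Icc.2 zero_le_one)
  simp only [hqe, Real.norm_eq_abs, one_mul, zero_mul, add_zero, sub_zero, abs_one,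
    mul_one] at h3
  exact h3

/-- The Remez inequality for finitely many polynomials. -/
theorem rem_fin (m D N : ℕ) : ∃ C : ℝ, 1 ≤ C ∧ ∀ (J : ℕ) (F : Fam m J) (A : F.Ω → Prop)
    (hA : 0 < Pe F.p A) (w : ℕ) (ι : Type) [Fintype ι] (q : ι → LnT F → Polynomial ℝ) (θ : ℝ),
    Fintype.card ι ≤ N → w ≤ J → (∀ i s, (q i s).natDegree ≤ D) → 0 ≤ θ →
    (Fam.sub F A hA).Tm θ → C * (θ + 1) ≤ ((J : ℝ) - w) * Real.log 2 →
    (∀ i ω, A ω → |(q i (slam F w ω)).eval (rt F w ω)| ≤ 1) →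
    ∃ B : F.Ω → Prop, Sub B A ∧ Pe F.p A / 2 ≤ Pe F.p B ∧ ∀ ω, B ω → ∀ s ∈ Set.Icc (0 : ℝ) 1,
      ∀ i, |(q i (slam F w ω)).eval s| ≤ C * Real.exp (C * (θ + 1)) := by
  classical
  obtain ⟨C, hC, hrem⟩ := Pool.PZ.Zrt.rem_ev (m := m) (2 * D)
  have hN : (1 : ℝ) ≤ (N : ℝ) + 1 := by
    have : (0 : ℝ) ≤ N := Nat.cast_nonneg N
    linarith
  have hCC : C ≤ C * (N + 1) := by nlinarith
  refine ⟨C * (N + 1), hC.trans hCC, ?_⟩
  intro J F A hA w ι _ q θ hι hw hqd hθ hTm hJ hq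
  obtain ⟨Q, hQ⟩ : ∃ Q : LnT F → Polynomial ℝ, Q = fun s => ∑ i, (q i s) ^ 2 := ⟨_, rfl⟩
  have hQd : ∀ s, (Q s).natDegree ≤ 2 * D := by
    intro s
    rw [hQ]
    refine Polynomial.natDegree_sum_le_of_forall_le _ _ fun i _ => ?_
    exact (Polynomial.natDegree_pow_le).trans (Nat.mul_le_mul_left 2 (hqd i s))
  have hQe : ∀ s t, (Q s).eval t = ∑ i, ((q i s).eval t) ^ 2 := by
    intro s t
    rw [hQ]
    simp only [Polynomial.eval_finsetSum, Polynomial.eval_pow]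
  obtain ⟨B, hBA, hPB, hB⟩ := hrem J F A hA w Q ((N : ℝ) + 1) θ hw hQd
    (by linarith) hθ hTm (by
      refine le_trans ?_ hJ
      exact mul_le_mul_of_nonneg_right hCC (by linarith)) (by
      intro ω hω
      rw [hQe]
      have h1 : ∀ i ∈ (Finset.univ : Finset ι), ((q i (slam F w ω)).eval (rt F w ω)) ^ 2 ≤ 1 := by
        intro i _
        have h2 := hq i ω hω
        rw [← sq_abs]
        have h3 := abs_nonneg ((q i (slam F w ω)).eval (rt F w ω))
        nlinarith only [h2, h3]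
      have h2 := Finset.sum_le_sum h1
      rw [Finset.sum_const, Finset.card_univ, nsmul_eq_mul, mul_one] at h2
      have h3 : 0 ≤ ∑ i, ((q i (slam F w ω)).eval (rt F w ω)) ^ 2 :=
        Finset.sum_nonneg fun i _ => sq_nonneg _
      rw [abs_of_nonneg h3]
      have h4 : (Fintype.card ι : ℝ) ≤ N := by exact_mod_cast hι
      linarith only [h2, h4])
  refine ⟨B, hBA, hPB, fun ω hω s hs i => ?_⟩
  obtain ⟨E, hE⟩ : ∃ E : ℝ, E = Real.exp (C * (θ + 1)) := ⟨_, rfl⟩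
  have hE1 : 1 ≤ E := by
    rw [hE, Real.one_le_exp_iff]
    have : 0 ≤ θ + 1 := by linarith
    nlinarith
  have h2 := hB ω hω s hs
  rw [hQe, ← hE] at h2
  have h3 : ((q i (slam F w ω)).eval s) ^ 2 ≤ ∑ i, ((q i (slam F w ω)).eval s) ^ 2 :=
    Finset.single_le_sum (f := fun i => ((q i (slam F w ω)).eval s) ^ 2)
      (fun k _ => sq_nonneg _) (Finset.mem_univ i)
  have h4 := (h3.trans (le_abs_self _)).trans h2
  have h5 : E * ((N : ℝ) + 1) ≤ (((N : ℝ) + 1) * E) ^ 2 := by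
    have h6 : 1 ≤ ((N : ℝ) + 1) * E := by nlinarith only [hE1, hN]
    nlinarith only [h6]
  have h6 := abs_le_of_sq_le_sq (h4.trans h5) (by positivity)
  refine h6.trans ?_
  have h7 : E ≤ Real.exp (C * (N + 1) * (θ + 1)) := by
    rw [hE]
    exact Real.exp_le_exp.2 (mul_le_mul_of_nonneg_right hCC (by linarith))
  have h8 : (N : ℝ) + 1 ≤ C * (N + 1) := by nlinarith only [hC, hN]
  exact mul_le_mul h8 h7 (by linarith) (by linarith)

/-- **All the deviations near the lines are small during the window.** -/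
theorem rem_nst (m K : ℕ) : ∃ C : ℝ, 1 ≤ C ∧ ∀ (J : ℕ) (F : Fam m J) (A : F.Ω → Prop)
    (hA : 0 < Pe F.p A) (w₀ w e : ℕ) (P : Fin m → ℕ) (σ : Equiv.Perm (Fin m))
    (V V₀ : Fin m → Type) (z' : ∀ j, LnT F → V j) (z₀ : ∀ j, LnT F → V₀ j)
    (G : ∀ j, V j → MvPolynomial (Option (Fin m)) ℝ)
    (G₀ : ∀ j, V₀ j → MvPolynomial (Option (Fin m)) ℝ) (θ : ℝ), w₀ ≤ w → w ≤ J → 0 ≤ θ →
    (Fam.sub F A hA).Tm θ → C * (θ + 1) ≤ ((J : ℝ) - w) * Real.log 2 → (∀ j, P j ≤ J) →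
    (∀ j v, (G j v).totalDegree ≤ K) → (∀ j v, (G₀ j v).totalDegree ≤ K) →
    (∀ j, ∀ ω, A ω → |F.x ω (σ j) - eval (bt F ω) (G j (z' j (slam F w₀ ω)))| ≤ 1 / 2 ^ P j) →
    (∀ j, ∀ ω, A ω → |F.x ω j - eval (bt F ω) (G₀ j (z₀ j (slam F w₀ ω)))| ≤ 2) →
    (∀ j, ∀ ω, A ω → ∀ b : Option (Fin m) → ℝ, (∀ o, |b o - bt F ω o| ≤ 1 / 2 ^ J) → ∀ k,
      |eval b (pderiv (some k) (G j (z' j (slam F w₀ ω))))| ≤ 2 ^ e) →
    ∃ B : F.Ω → Prop, Sub B A ∧ Pe F.p A / 2 ≤ Pe F.p B ∧ ∀ ω, B ω → ∀ s ∈ Set.Icc (0 : ℝ) 1,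
      (∀ j, |F.x1 w ω j + 1 / 2 ^ w * s * F.d ω j -
        eval (pnt ((F.T1 w ω : ℝ) / 2 ^ w + 1 / 2 ^ w * s)
          fun k => F.x1 w ω k + 1 / 2 ^ w * s * F.d ω k) (G₀ j (z₀ j (slam F w₀ ω)))| ≤
          C * Real.exp (C * (θ + 1))) ∧
      ∀ x : Fin m → ℝ, (∀ k, |x k - (F.x1 w ω k + 1 / 2 ^ w * s * F.d ω k)| ≤ 2 / 2 ^ J) → ∀ j,
        |x (σ j) - eval (pnt ((F.T1 w ω : ℝ) / 2 ^ w + 1 / 2 ^ w * s) x)
          (G j (z' j (slam F w₀ ω)))| ≤ C * Real.exp (C * (θ + 1)) * 2 ^ e / 2 ^ P j := by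
  classical
  obtain ⟨C, hC, hrem⟩ := rem_fin m (K + 1)
    (Fintype.card ((Fin m × (Fin m → Fin (K + 1 + 1))) ⊕ Fin m))
  obtain ⟨C₂, hC₂, hlag⟩ := lagm m (K + 1) 2 one_le_two
  have hm0 : (0 : ℝ) ≤ m := Nat.cast_nonneg m
  obtain ⟨C₀, hC₀⟩ : ∃ C₀ : ℝ, C₀ = (m : ℝ) + 2 := ⟨_, rfl⟩
  have hC₀1 : 2 ≤ C₀ := by rw [hC₀]; linarith
  have hCC : C ≤ C * C₂ * C₀ := by
    have h1 : 1 ≤ C₂ * C₀ := by nlinarith
    nlinarith
  have hCC2 : C * 2 ≤ C * C₂ * C₀ := by
    have h1 : 2 ≤ C₂ * C₀ := by nlinarith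
    nlinarith
  refine ⟨C * C₂ * C₀, hC.trans hCC, ?_⟩
  intro J F A hA w₀ w e P σ V V₀ z' z₀ G G₀ θ hw₀ hw hθ hTm hJ hPJ hdeg hdeg₀ hpos hpos₀ hlip
  obtain ⟨δ, hδ⟩ : ∃ δ : ℝ, δ = 1 / 2 ^ J := ⟨_, rfl⟩
  have hδ0 : 0 < δ := by rw [hδ]; positivity
  have hδP : ∀ j, δ ≤ 1 / 2 ^ P j := fun j => by rw [hδ]; exact inv_mono (hPJ j)
  have hδ2 : (2 : ℝ) / 2 ^ J = 2 * δ := by rw [hδ]; ring
  obtain ⟨h, hh⟩ : ∃ h : (Fin m → Fin (K + 1 + 1)) → Fin m → ℝ,
    h = fun i k => δ * ((((i k : Fin (K + 1 + 1)) : ℕ) : ℝ) / (((K + 1 : ℕ) : ℝ) + 1)) := ⟨_, rfl⟩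
  have hhδ : ∀ i k, 0 ≤ h i k ∧ h i k ≤ δ := by
    intro i k
    rw [hh]
    have h1 : (0 : ℝ) < ((K + 1 : ℕ) : ℝ) + 1 := by positivity
    have h2 : (((i k : Fin (K + 1 + 1)) : ℕ) : ℝ) ≤ ((K + 1 : ℕ) : ℝ) := by
      exact_mod_cast Nat.lt_succ_iff.1 (i k).2
    refine ⟨by positivity, ?_⟩
    calc δ * ((((i k : Fin (K + 1 + 1)) : ℕ) : ℝ) / (((K + 1 : ℕ) : ℝ) + 1)) ≤ δ * 1 := by
          refine mul_le_mul_of_nonneg_left ?_ hδ0.le
          rw [div_le_one h1]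
          linarith
      _ = δ := mul_one δ
  obtain ⟨G', hG'⟩ : ∃ G' : Fin m → LnT F → MvPolynomial (Option (Fin m)) ℝ,
    G' = fun j s => G j (z' j (s.1, s.2.1, s.2.2 / 2 ^ (w - w₀))) := ⟨_, rfl⟩
  have hGe : ∀ j ω, G' j (slam F w ω) = G j (z' j (slam F w₀ ω)) := by
    intro j ω
    rw [hG']
    simp only
    rw [← slam_coarse F hw₀ hw ω]
  have hGd : ∀ j s, (G' j s).totalDegree ≤ K := by
    intro j s
    rw [hG']
    exact hdeg _ _
  obtain ⟨H', hH'⟩ : ∃ H' : Fin m → LnT F → MvPolynomial (Option (Fin m)) ℝ,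
    H' = fun j s => G₀ j (z₀ j (s.1, s.2.1, s.2.2 / 2 ^ (w - w₀))) := ⟨_, rfl⟩
  have hHe : ∀ j ω, H' j (slam F w ω) = G₀ j (z₀ j (slam F w₀ ω)) := by
    intro j ω
    rw [hH']
    simp only
    rw [← slam_coarse F hw₀ hw ω]
  have hHd : ∀ j s, (H' j s).totalDegree ≤ K := by
    intro j s
    rw [hH']
    exact hdeg₀ _ _
  obtain ⟨q, hq⟩ : ∃ q : ((Fin m × (Fin m → Fin (K + 1 + 1))) ⊕ Fin m) → LnT F → Polynomial ℝ,
    q = Sum.elim (fun ji s => Polynomial.C (2 ^ P ji.1 / (C₀ * 2 ^ e)) *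
      dvh w (G' ji.1) (σ ji.1) (h ji.2) s)
      (fun j s => Polynomial.C (1 / 2) * dvh w (H' j) j (fun _ => 0) s) := ⟨_, rfl⟩
  have hC₀e : 0 < C₀ * 2 ^ e := by
    have : (0 : ℝ) < 2 ^ e := by positivity
    nlinarith
  obtain ⟨B, hBA, hPB, hB⟩ := hrem J F A hA w ((Fin m × (Fin m → Fin (K + 1 + 1))) ⊕ Fin m) q θ
    le_rfl hw (by
      rintro (⟨j, i⟩ | j) s
      · rw [hq]
        exact (Polynomial.natDegree_C_mul_le _ _).trans (natDegree_dvh w (hGd j) _ _ s)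
      · rw [hq]
        exact (Polynomial.natDegree_C_mul_le _ _).trans (natDegree_dvh w (hHd j) _ _ s))
    hθ hTm (by
      refine le_trans ?_ hJ
      exact mul_le_mul_of_nonneg_right hCC (by linarith)) (by
      rintro (⟨j, i⟩ | j) ω hω
      · rw [hq]
        simp only [Sum.elim_inl, Polynomial.eval_mul, Polynomial.eval_C]
        rw [eval_dvh_rt F hw, hGe]
        have h1 := hpos j ω hω
        have hin : ∀ k, |h i k| ≤ δ := by
          intro k
          rw [abs_of_nonneg (hhδ i k).1]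
          exact (hhδ i k).2
        have h4 := mvt_sp (G j (z' j (slam F w₀ ω))) (bt F ω) (pnt 0 (h i)) (2 ^ e) δ
          (by positivity) rfl hin hδ0.le (by
            intro s hs k
            refine hlip j ω hω _ (fun o => ?_) k
            rw [add_sub_cancel_left, abs_mul, abs_of_nonneg hs.1, ← hδ]
            cases o with
            | none =>
              simp only [pnt, abs_zero, mul_zero]
              exact hδ0.le
            | some l =>
              calc s * |pnt 0 (h i) (some l)| ≤ 1 * δ :=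
                    mul_le_mul hs.2 (hin l) (abs_nonneg _) zero_le_one
                _ = δ := one_mul δ)
        have h5 : |F.x ω (σ j) + h i (σ j) -
            eval (fun o => bt F ω o + pnt 0 (h i) o) (G j (z' j (slam F w₀ ω)))| ≤
            ((m : ℝ) + 2) * 2 ^ e * (1 / 2 ^ P j) := by
          have e1 : F.x ω (σ j) + h i (σ j) -
            eval (fun o => bt F ω o + pnt 0 (h i) o) (G j (z' j (slam F w₀ ω))) =
            (F.x ω (σ j) - eval (bt F ω) (G j (z' j (slam F w₀ ω)))) + h i (σ j) -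
            (eval (fun o => bt F ω o + pnt 0 (h i) o) (G j (z' j (slam F w₀ ω))) -
            eval (bt F ω) (G j (z' j (slam F w₀ ω)))) := by ring
          rw [e1]
          refine (abs_sub _ _).trans ?_
          have h6 := abs_add_le (F.x ω (σ j) - eval (bt F ω) (G j (z' j (slam F w₀ ω))))
            (h i (σ j))
          have h7 := hin (σ j)
          have h8 := hδP j
          have h9 : (1 : ℝ) ≤ 2 ^ e := one_le_pow₀ (by norm_num)
          obtain ⟨Y, hY⟩ : ∃ Y : ℝ, Y = 1 / 2 ^ P j := ⟨_, rfl⟩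
          rw [← hY] at h1 h8 ⊢
          have hY0 : 0 < Y := by rw [hY]; positivity
          have g1 : 2 * Y ≤ 2 * (2 ^ e * Y) := by nlinarith only [h9, hY0]
          have g2 : 2 ^ e * (m : ℝ) * δ ≤ 2 ^ e * m * Y :=
            mul_le_mul_of_nonneg_left h8 (by positivity)
          have g3 : 2 * (2 ^ e * Y) + 2 ^ e * m * Y = ((m : ℝ) + 2) * 2 ^ e * Y := by ring
          linarith only [h1, h4, h6, h7, h8, g1, g2, g3]
        rw [abs_mul, abs_of_pos (by positivity : (0 : ℝ) < 2 ^ P j / (C₀ * 2 ^ e))]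
        refine (mul_le_mul_of_nonneg_left h5 (by positivity)).trans (le_of_eq ?_)
        rw [hC₀]
        have : (0 : ℝ) < (m : ℝ) + 2 := by linarith only [hm0]
        field_simp
      · rw [hq]
        simp only [Sum.elim_inr, Polynomial.eval_mul, Polynomial.eval_C]
        rw [eval_dvh_rt F hw, hHe, abs_mul, abs_of_pos (by norm_num : (0 : ℝ) < 1 / 2), add_zero]
        have e1 : (fun o => bt F ω o + pnt 0 (fun _ => 0) o) = bt F ω := by
          funext o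
          cases o with
          | none => simp [pnt]
          | some k => simp [pnt]
        rw [e1]
        have := hpos₀ j ω hω
        linarith only [this])
  refine ⟨B, hBA, hPB, fun ω hω s hs => ?_⟩
  obtain ⟨E, hE⟩ : ∃ E : ℝ, E = Real.exp (C * (θ + 1)) := ⟨_, rfl⟩
  have hE0 : 0 < E := by rw [hE]; positivity
  have hEE : E ≤ Real.exp (C * C₂ * C₀ * (θ + 1)) := by
    rw [hE]
    exact Real.exp_le_exp.2 (mul_le_mul_of_nonneg_right hCC (by linarith))
  have h2 := hB ω hω s hs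
  rw [← hE] at h2
  refine ⟨fun j => ?_, fun x hx j => ?_⟩
  · have h3 := h2 (Sum.inr j)
    rw [hq] at h3
    simp only [Sum.elim_inr, Polynomial.eval_mul, Polynomial.eval_C] at h3
    rw [eval_dvh_gen, hHe, abs_mul, abs_of_pos (by norm_num : (0 : ℝ) < 1 / 2)] at h3
    simp only [add_zero] at h3
    have h4 : C * 2 * E ≤ C * C₂ * C₀ * Real.exp (C * C₂ * C₀ * (θ + 1)) :=
      mul_le_mul hCC2 hEE hE0.le (by linarith)
    linarith only [h3, h4]
  -- the values at the grid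
  have hgrid : ∀ i, |(dvh w (G' j) (σ j) (h i) (slam F w ω)).eval s| ≤
      C * E * C₀ * 2 ^ e / 2 ^ P j := by
    intro i
    have h3 := h2 (Sum.inl (j, i))
    rw [hq] at h3
    simp only [Sum.elim_inl, Polynomial.eval_mul, Polynomial.eval_C] at h3
    have hpos' : (0 : ℝ) < 2 ^ P j / (C₀ * 2 ^ e) := by positivity
    rw [abs_mul, abs_of_pos hpos'] at h3
    rw [le_div_iff₀ (by positivity)]
    rw [div_mul_eq_mul_div, div_le_iff₀ hC₀e] at h3
    calc _ = 2 ^ P j * |(dvh w (G' j) (σ j) (h i) (slam F w ω)).eval s| := mul_comm _ _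
      _ ≤ C * E * (C₀ * 2 ^ e) := h3
      _ = _ := by ring
  -- interpolation
  obtain ⟨a, ha⟩ : ∃ a : Fin m → ℝ, a = fun k => F.x1 w ω k + 1 / 2 ^ w * s * F.d ω k := ⟨_, rfl⟩
  obtain ⟨t, ht⟩ : ∃ t : ℝ, t = (F.T1 w ω : ℝ) / 2 ^ w + 1 / 2 ^ w * s := ⟨_, rfl⟩
  obtain ⟨R, hR⟩ : ∃ R : MvPolynomial (Fin m) ℝ, R = MvPolynomial.C (a (σ j)) +
    MvPolynomial.C δ * X (σ j) - bind₁ (sbs t δ a) (G j (z' j (slam F w₀ ω))) := ⟨_, rfl⟩
  have hRe : ∀ y : Fin m → ℝ, eval y R = a (σ j) + δ * y (σ j) -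
      eval (pnt t fun k => a k + δ * y k) (G j (z' j (slam F w₀ ω))) := by
    intro y
    rw [hR, map_sub, eval_sbs]
    simp
  have hRd : R.totalDegree ≤ K + 1 := by
    rw [hR]
    refine (totalDegree_sub _ _).trans (max_le ?_ ?_)
    · refine (totalDegree_add _ _).trans (max_le ?_ ?_)
      · simp
      · refine (totalDegree_mul _ _).trans ?_
        simp only [totalDegree_C, totalDegree_X, zero_add]
        omega
    · exact ((Pool.Agent.H50.PW.totalDegree_bind₁_le _ (deg_sbs t δ a) _).trans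
        (hdeg _ _)).trans (by omega)
  have h3 := hlag R (C * E * C₀ * 2 ^ e / 2 ^ P j) hRd (by
    intro i
    rw [hRe]
    have h4 := hgrid i
    rw [eval_dvh_gen, hGe, ← ht] at h4
    have e1 : ∀ k, F.x1 w ω k + 1 / 2 ^ w * s * F.d ω k + h i k =
        a k + δ * ((((i k : Fin (K + 1 + 1)) : ℕ) : ℝ) / (((K + 1 : ℕ) : ℝ) + 1)) := by
      intro k
      rw [ha, hh]
    simp only [e1] at h4
    exact h4) (fun k => (x k - a k) / δ) (by
    intro k
    rw [abs_div, abs_of_pos hδ0, div_le_iff₀ hδ0, ← hδ2, ha]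
    exact hx k)
  rw [hRe] at h3
  have e1 : ∀ k, a k + δ * ((x k - a k) / δ) = x k := by
    intro k
    field_simp
    ring
  simp only [e1] at h3
  rw [← ht]
  refine h3.trans ?_
  rw [mul_div_assoc']
  refine div_le_div_of_nonneg_right ?_ (by positivity)
  calc C₂ * (C * E * C₀ * 2 ^ e) = (C * C₂ * C₀) * E * 2 ^ e := by ring
    _ ≤ (C * C₂ * C₀) * Real.exp (C * C₂ * C₀ * (θ + 1)) * 2 ^ e := by gcongr

end Pool.GEN
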