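import Mathlib

/-!
# The volume of a set which is close to graphs of all dimensions

`E` is a set in `ℝ ^ m`; for every `j < m` there are at most `j` coordinates which determine the
other ones up to `η j`. Then the volume of `E` is at most a constant times `∏ j, η j`.
-/

set_option autoImplicit false

namespace Pool.GEN

open MeasureTheory Set

/-- The condition for one set of free coordinates. -/
def Det {m : ℕ} (L : ℝ) (E : Set (Fin m → ℝ)) (I : Finset (Fin m)) (η : ℝ) : Prop :=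
  ∀ x ∈ E, ∀ y ∈ E, ∀ δ : ℝ, 0 ≤ δ → (∀ i ∈ I, |x i - y i| ≤ δ) →
    ∀ k, |x k - y k| ≤ 2 * η + L * δ

/-- A set of small diameter. -/
theorem vol_diam {m : ℕ} (F : Set (Fin m → ℝ)) (r : ℝ) (hr : 0 < r)
    (hF : ∀ x ∈ F, ∀ y ∈ F, ∀ k, |x k - y k| ≤ r) :
    volume F ≤ ENNReal.ofReal ((2 * r) ^ m) := by
  rcases F.eq_empty_or_nonempty with h | ⟨x, hx⟩
  · rw [h, measure_empty]
    exact bot_le
  · have h1 : F ⊆ Metric.closedBall x r := by
      intro y hy
      rw [Metric.mem_closedBall, dist_pi_le_iff hr.le]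
      intro k
      rw [Real.dist_eq]
      exact hF y hy x hx k
    refine (measure_mono h1).trans ?_
    rw [Real.volume_pi_closedBall x hr.le, Fintype.card_fin]

/-- The number of cells. -/
theorem cells {m : ℕ} (F : Set (Fin m → ℝ)) (I : Finset (Fin m)) (r s : ℝ) (hs : 0 < s)
    (hrs : s ≤ r) (V : ENNReal)
    (hF : ∀ x ∈ F, ∀ y ∈ F, ∀ k, |x k - y k| ≤ r)
    (hV : ∀ F' ⊆ F, (∀ x ∈ F', ∀ y ∈ F', ∀ i ∈ I, |x i - y i| ≤ s) → volume F' ≤ V) :
    volume F ≤ ENNReal.ofReal ((5 * (r / s)) ^ I.card) * V := by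
  classical
  rcases F.eq_empty_or_nonempty with h | ⟨x₀, hx₀⟩
  · rw [h, measure_empty]
    exact bot_le
  obtain ⟨R, hR⟩ : ∃ R : ℝ, R = r / s := ⟨_, rfl⟩
  have hR1 : 1 ≤ R := by
    rw [hR, le_div_iff₀ hs, one_mul]
    exact hrs
  obtain ⟨M, hM⟩ : ∃ M : ℕ, M = ⌈R⌉₊ := ⟨_, rfl⟩
  have hM1 : R ≤ M := by rw [hM]; exact Nat.le_ceil R
  have hM2 : (M : ℝ) < R + 1 := by rw [hM]; exact Nat.ceil_lt_add_one (by linarith)
  obtain ⟨T, hT⟩ : ∃ T : Finset (Fin m → ℤ), T = Fintype.piFinset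
      (fun i => if i ∈ I then Finset.Icc (-(M : ℤ)) M else {0}) := ⟨_, rfl⟩
  have hcard : T.card = (2 * M + 1) ^ I.card := by
    rw [hT, Fintype.card_piFinset]
    have h1 : ∀ i : Fin m, (if i ∈ I then Finset.Icc (-(M : ℤ)) M else {0}).card =
        if i ∈ I then 2 * M + 1 else 1 := by
      intro i
      split_ifs
      · rw [Int.card_Icc]
        omega
      · exact Finset.card_singleton _
    rw [Finset.prod_congr rfl fun i _ => h1 i, Finset.prod_ite, Finset.prod_const,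
      Finset.prod_const_one, mul_one, Finset.filter_mem_eq_inter, Finset.univ_inter]
  obtain ⟨Fc, hFc⟩ : ∃ Fc : (Fin m → ℤ) → Set (Fin m → ℝ), Fc = fun c =>
      {x | x ∈ F ∧ ∀ i ∈ I, ⌊(x i - x₀ i) / s⌋ = c i} := ⟨_, rfl⟩
  have hcov : F ⊆ ⋃ c ∈ T, Fc c := by
    intro x hx
    rw [mem_iUnion₂]
    refine ⟨fun i => if i ∈ I then ⌊(x i - x₀ i) / s⌋ else 0, ?_, ?_⟩
    · rw [hT, Fintype.mem_piFinset]
      intro i
      by_cases hi : i ∈ I
      · simp only [if_pos hi]
        have h1 := abs_le.1 (hF x hx x₀ hx₀ i)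
        have h2 : (x i - x₀ i) / s ≤ R := by
          rw [hR]
          exact div_le_div_of_nonneg_right h1.2 hs.le
        have h3 : -R ≤ (x i - x₀ i) / s := by
          rw [hR, ← neg_div]
          exact div_le_div_of_nonneg_right h1.1 hs.le
        rw [Finset.mem_Icc]
        constructor
        · rw [Int.le_floor]
          push_cast
          linarith
        · have h4 : (⌊(x i - x₀ i) / s⌋ : ℝ) ≤ (x i - x₀ i) / s := Int.floor_le _
          have h5 : (⌊(x i - x₀ i) / s⌋ : ℝ) ≤ (M : ℝ) := by linarith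
          exact_mod_cast h5
      · simp only [if_neg hi, Finset.mem_singleton]
    · rw [hFc]
      refine ⟨hx, fun i hi => ?_⟩
      exact (if_pos hi).symm
  have hpc : ∀ c, volume (Fc c) ≤ V := by
    intro c
    refine hV _ (by rw [hFc]; exact fun x hx => hx.1) ?_
    rw [hFc]
    rintro x ⟨-, hx⟩ y ⟨-, hy⟩ i hi
    have h1 : ⌊(x i - x₀ i) / s⌋ = ⌊(y i - x₀ i) / s⌋ := (hx i hi).trans (hy i hi).symm
    have h2 := Int.abs_sub_lt_one_of_floor_eq_floor h1
    have h3 : (x i - x₀ i) / s - (y i - x₀ i) / s = (x i - y i) / s := by ring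
    rw [h3, abs_div, abs_of_pos hs, div_lt_one hs] at h2
    exact h2.le
  calc volume F ≤ volume (⋃ c ∈ T, Fc c) := measure_mono hcov
    _ ≤ ∑ c ∈ T, volume (Fc c) := measure_biUnion_finset_le _ _
    _ ≤ ∑ _c ∈ T, V := Finset.sum_le_sum fun c _ => hpc c
    _ = (T.card : ENNReal) * V := by rw [Finset.sum_const, nsmul_eq_mul]
    _ ≤ ENNReal.ofReal ((5 * (r / s)) ^ I.card) * V := by
      refine mul_le_mul_left ?_ V
      rw [hcard, ← hR]
      have h1 : ((2 * M + 1 : ℕ) : ℝ) ≤ 5 * R := by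
        push_cast
        linarith
      have h2 : (((2 * M + 1) ^ I.card : ℕ) : ℝ) ≤ (5 * R) ^ I.card := by
        rw [Nat.cast_pow]
        exact pow_le_pow_left₀ (Nat.cast_nonneg _) h1 _
      rw [← ENNReal.ofReal_natCast]
      exact ENNReal.ofReal_le_ofReal h2

/-- The induction. -/
theorem vol_ind (m : ℕ) (L : ℝ) (hL : 0 ≤ L) : ∀ d n : ℕ, n + 1 + d = m →
    ∃ C : ℝ, 1 ≤ C ∧ ∀ (E : Set (Fin m → ℝ)) (I : ℕ → Finset (Fin m)) (η : ℕ → ℝ),
      (∀ j, (I j).card ≤ j) → (∀ j, 0 < η j) → (∀ j, η (j + 1) ≤ η j) →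
      (∀ j < m, Det L E (I j) (η j)) → ∀ F ⊆ E,
      (∀ x ∈ F, ∀ y ∈ F, ∀ k, |x k - y k| ≤ (2 + L) * η n) →
      volume F ≤ ENNReal.ofReal (C * (η n ^ (n + 1) * ∏ i ∈ Finset.range d, η (n + 1 + i))) := by
  intro d
  induction d with
  | zero =>
    intro n hn
    refine ⟨(2 * (2 + L)) ^ m, one_le_pow₀ (by linarith), ?_⟩
    intro E I η hI hη hηa hdet F hF hd
    have h0 := hη n
    refine (vol_diam F _ (by positivity) hd).trans ?_
    refine ENNReal.ofReal_le_ofReal (le_of_eq ?_)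
    rw [Finset.prod_range_zero, mul_one, ← mul_assoc, mul_pow]
    have : n + 1 = m := by omega
    rw [this]
  | succ d ih =>
    intro n hn
    obtain ⟨C, hC, h⟩ := ih (n + 1) (by omega)
    refine ⟨(5 * (2 + L)) ^ (n + 1) * C, ?_, ?_⟩
    · have : (1 : ℝ) ≤ (5 * (2 + L)) ^ (n + 1) := one_le_pow₀ (by linarith)
      nlinarith
    intro E I η hI hη hηa hdet F hF hd
    have h0 := hη n
    have h1 := hη (n + 1)
    have h01 : η (n + 1) ≤ (2 + L) * η n := by
      have := hηa n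
      nlinarith
    have h2 := cells F (I (n + 1)) ((2 + L) * η n) (η (n + 1)) h1 h01
      (ENNReal.ofReal (C * (η (n + 1) ^ (n + 1 + 1) *
        ∏ i ∈ Finset.range d, η (n + 1 + 1 + i)))) hd (by
        intro F' hF' hs
        refine h E I η hI hη hηa hdet F' (hF'.trans hF) ?_
        intro x hx y hy k
        have h3 := hdet (n + 1) (by omega) x (hF (hF' hx)) y (hF (hF' hy)) (η (n + 1)) h1.le
          (hs x hx y hy) k
        linarith)
    refine h2.trans ?_
    obtain ⟨R, hR⟩ : ∃ R : ℝ, R = η n / η (n + 1) := ⟨_, rfl⟩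
    have hR1 : 1 ≤ R := by
      rw [hR, le_div_iff₀ h1, one_mul]
      exact hηa n
    have hRe : R * η (n + 1) = η n := by
      rw [hR]
      exact div_mul_cancel₀ _ h1.ne'
    have e1 : 5 * ((2 + L) * η n / η (n + 1)) = 5 * (2 + L) * R := by
      rw [hR]; ring
    have hp : 0 ≤ ∏ i ∈ Finset.range d, η (n + 1 + 1 + i) :=
      Finset.prod_nonneg fun i _ => (hη _).le
    have h5 : (1 : ℝ) ≤ 5 * (2 + L) * R := by nlinarith
    rw [e1, ← ENNReal.ofReal_mul (by positivity)]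
    refine ENNReal.ofReal_le_ofReal ?_
    have h6 : (5 * (2 + L) * R) ^ (I (n + 1)).card ≤ (5 * (2 + L) * R) ^ (n + 1) :=
      pow_le_pow_right₀ h5 (hI (n + 1))
    have h7 : 0 ≤ C * (η (n + 1) ^ (n + 1 + 1) * ∏ i ∈ Finset.range d, η (n + 1 + 1 + i)) := by
      have : 0 ≤ C := by linarith
      positivity
    refine (mul_le_mul_of_nonneg_right h6 h7).trans (le_of_eq ?_)
    rw [Finset.prod_range_succ', mul_pow]
    have e2 : ∀ i, η (n + 1 + (i + 1)) = η (n + 1 + 1 + i) := fun i => by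
      congr 1
      omega
    rw [Finset.prod_congr rfl fun i _ => e2 i, add_zero, ← hRe]
    ring

/-- The volume, for a nonincreasing sequence of precisions. -/
theorem vol_anti (m : ℕ) (L : ℝ) (hL : 0 ≤ L) : ∃ C : ℝ, 1 ≤ C ∧
    ∀ (E : Set (Fin m → ℝ)) (I : ℕ → Finset (Fin m)) (η : ℕ → ℝ),
      (∀ j, (I j).card ≤ j) → (∀ j, 0 < η j) → (∀ j, η (j + 1) ≤ η j) →
      (∀ j < m, Det L E (I j) (η j)) →
      volume E ≤ ENNReal.ofReal (C * ∏ i ∈ Finset.range m, η i) := by
  rcases Nat.eq_zero_or_pos m with hm | hm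
  · refine ⟨1, le_rfl, fun E I η _ _ _ _ => ?_⟩
    subst hm
    rw [Finset.prod_range_zero, mul_one, ENNReal.ofReal_one]
    refine (measure_mono (subset_univ E)).trans ?_
    have : (univ : Set (Fin 0 → ℝ)) = Metric.closedBall 0 1 := by
      ext x
      simp [Subsingleton.elim x 0]
    rw [this, Real.volume_pi_closedBall _ zero_le_one]
    simp
  · obtain ⟨m', rfl⟩ : ∃ m', m = m' + 1 := ⟨m - 1, by omega⟩
    obtain ⟨C, hC, h⟩ := vol_ind (m' + 1) L hL m' 0 (by omega)
    refine ⟨C, hC, fun E I η hI hη hηa hdet => ?_⟩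
    refine (h E I η hI hη hηa hdet E Subset.rfl ?_).trans (ENNReal.ofReal_le_ofReal
      (le_of_eq ?_))
    · intro x hx y hy k
      have h0 := hη 0
      have h1 := hdet 0 hm x hx y hy 0 le_rfl (by
        intro i hi
        have := hI 0
        rw [Nat.le_zero, Finset.card_eq_zero] at this
        rw [this] at hi
        exact absurd hi (Finset.notMem_empty i)) k
      nlinarith
    · rw [Finset.prod_range_succ']
      have e : ∀ i, η (0 + 1 + i) = η (i + 1) := fun i => by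
        congr 1
        omega
      rw [Finset.prod_congr rfl fun i _ => e i]
      ring

/-- **The volume of a set which is close to graphs of all dimensions.** -/
theorem vol_det (m : ℕ) (L : ℝ) (hL : 0 ≤ L) : ∃ C : ℝ, 1 ≤ C ∧
    ∀ (E : Set (Fin m → ℝ)) (I : Fin m → Finset (Fin m)) (η : Fin m → ℝ),
      (∀ j, (I j).card ≤ j) → (∀ j, 0 < η j) → (∀ j, Det L E (I j) (η j)) →
      volume E ≤ ENNReal.ofReal (C * ∏ j, η j) := by
  classical
  rcases Nat.eq_zero_or_pos m with hm | hm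
  · obtain ⟨C, hC, h⟩ := vol_anti m L hL
    refine ⟨C, hC, fun E I η _ _ _ => ?_⟩
    refine (h E (fun _ => ∅) (fun _ => 1) (fun _ => by simp) (fun _ => one_pos)
      (fun _ => le_rfl) (fun j hj => absurd hj (by omega))).trans (ENNReal.ofReal_le_ofReal ?_)
    subst hm
    simp
  obtain ⟨C, hC, h⟩ := vol_anti m L hL
  refine ⟨C, hC, fun E I η hI hη hdet => ?_⟩
  -- the best index at most `n`
  have hex : ∀ n : ℕ, ∃ a : Fin m, (a : ℕ) ≤ n ∧ ∀ b : Fin m, (b : ℕ) ≤ n → η a ≤ η b := by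
    intro n
    have hne : (Finset.univ.filter fun b : Fin m => (b : ℕ) ≤ n).Nonempty :=
      ⟨(⟨0, hm⟩ : Fin m), by simp⟩
    obtain ⟨a, ha, hmin⟩ := Finset.exists_min_image _ η hne
    exact ⟨a, (Finset.mem_filter.1 ha).2, fun b hb => hmin b (by simp [hb])⟩
  choose a ha hmin using hex
  have h1 := h E (fun n => I (a n)) (fun n => η (a n)) (fun n => (hI (a n)).trans (ha n))
    (fun n => hη _) (fun n => hmin (n + 1) (a n) ((ha n).trans (Nat.le_succ n)))
    (fun n _ => hdet (a n))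
  refine h1.trans (ENNReal.ofReal_le_ofReal ?_)
  refine mul_le_mul_of_nonneg_left ?_ (by linarith)
  rw [Finset.prod_range (fun n => η (a n))]
  exact Finset.prod_le_prod (fun j _ => (hη _).le) fun j _ => hmin j j le_rfl

end Pool.GEN
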